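import Mathlib
import Pool.Agent.H58P.Rad

set_option autoImplicit false
set_option linter.unusedSectionVars false

/-!
# Multiplicities of the zeros of a polynomial whose values at the natural numbers are zero or of
large valuation at almost all primes of a number field
-/

namespace Pool.Agent.T6.H54.PM

open NumberField Polynomial IsDedekindDomain

variable {K : Type} [Field K] [NumberField K]

theorem not_mem_sq (v : Ideal (𝓞 K)) (hv : v.IsPrime) {p : ℕ} (hp : p.Prime)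
    (hpv : (p : 𝓞 K) ∈ v) (hd : ((discr K : ℤ) : 𝓞 K) ∉ v) : (p : 𝓞 K) ∉ v ^ 2 := by
  intro h
  have h1 : ¬ (p : ℤ) ∣ discr K := by
    rintro ⟨c, hc⟩
    apply hd
    rw [hc]
    push_cast
    exact v.mul_mem_right _ hpv
  have hsq := Pool.Agent.H58P.squarefree_span p hp h1
  have h2 : v * v ∣ Ideal.span {(p : 𝓞 K)} := by
    rw [← pow_two, Ideal.dvd_span_singleton]
    exact h
  have h3 := hsq v h2
  rw [Ideal.isUnit_iff] at h3
  exact hv.ne_top h3

/-- the norms of the values of a nonconstant polynomial are unbounded -/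
theorem norm_big (h : (𝓞 K)[X]) (hd : 0 < h.degree) (a b : ℕ) (hb : 0 < b) (M : ℝ) :
    ∃ k : ℕ, M < |((Algebra.norm ℤ (h.eval ((a + b * k : ℕ) : 𝓞 K)) : ℤ) : ℝ)| := by
  classical
  have hev : ∀ w : InfinitePlace K, ∀ᶠ k : ℕ in Filter.atTop,
      |M| + 2 ≤ w ((h.eval ((a + b * k : ℕ) : 𝓞 K) : 𝓞 K) : K) := by
    intro w
    set ψ : 𝓞 K →+* ℂ := w.embedding.comp (algebraMap (𝓞 K) K) with hψ
    have hinj : Function.Injective ψ :=
      w.embedding.injective.comp (RingOfIntegers.coe_injective)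
    have hdeg : 0 < (h.map ψ).degree := by
      rw [degree_map_eq_of_injective hinj]
      exact hd
    have hz : Filter.Tendsto (fun k : ℕ => ‖((a + b * k : ℕ) : ℂ)‖) Filter.atTop Filter.atTop := by
      have h1 : (fun k : ℕ => ‖((a + b * k : ℕ) : ℂ)‖) = fun k : ℕ => ((a + b * k : ℕ) : ℝ) := by
        funext k
        rw [Complex.norm_natCast]
      rw [h1]
      refine tendsto_natCast_atTop_atTop.comp ?_
      refine Filter.tendsto_atTop_mono (fun k => ?_) Filter.tendsto_id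
      have := Nat.le_mul_of_pos_left k hb
      simp only [id]
      omega
    have h1 := (h.map ψ).tendsto_norm_atTop hdeg hz
    filter_upwards [h1.eventually_ge_atTop (|M| + 2)] with k hk
    have e : (h.map ψ).eval ((a + b * k : ℕ) : ℂ) = ψ (h.eval ((a + b * k : ℕ) : 𝓞 K)) := by
      rw [Polynomial.eval_natCast_map]
    rw [e] at hk
    rw [← InfinitePlace.norm_embedding_eq]
    exact hk
  obtain ⟨k, hk⟩ := (Filter.eventually_all.2 hev).exists
  refine ⟨k, ?_⟩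
  have h1 := InfinitePlace.prod_eq_abs_norm ((h.eval ((a + b * k : ℕ) : 𝓞 K) : 𝓞 K) : K)
  have h2 : (Algebra.norm ℚ ((h.eval ((a + b * k : ℕ) : 𝓞 K) : 𝓞 K) : K) : ℚ) =
      ((Algebra.norm ℤ (h.eval ((a + b * k : ℕ) : 𝓞 K)) : ℤ) : ℚ) :=
    (Algebra.coe_norm_int _).symm
  rw [h2] at h1
  have h3 : ((|((Algebra.norm ℤ (h.eval ((a + b * k : ℕ) : 𝓞 K)) : ℤ) : ℚ)| : ℚ) : ℝ) =
      |((Algebra.norm ℤ (h.eval ((a + b * k : ℕ) : 𝓞 K)) : ℤ) : ℝ)| := by
    push_cast
    rfl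
  rw [h3] at h1
  rw [← h1]
  have hM : (1 : ℝ) ≤ |M| + 2 := by
    have := abs_nonneg M
    linarith
  have h4 : (|M| + 2) ^ (Fintype.card (InfinitePlace K)) ≤
      ∏ w : InfinitePlace K, w ((h.eval ((a + b * k : ℕ) : 𝓞 K) : 𝓞 K) : K) ^ w.mult := by
    rw [← Finset.card_univ, ← Finset.prod_const]
    refine Finset.prod_le_prod (fun w _ => by positivity) fun w _ => ?_
    refine (hk w).trans ?_
    exact le_self_pow₀ (hM.trans (hk w)) w.mult_pos.ne'
  have h5 : |M| + 2 ≤ (|M| + 2) ^ (Fintype.card (InfinitePlace K)) :=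
    le_self_pow₀ hM Fintype.card_ne_zero
  have := le_abs_self M
  linarith

/-- primes dividing the values of a polynomial -/
theorem exists_prime_value (h : (𝓞 K)[X]) (hd : 0 < h.degree) (A : ℕ) (hA : 0 < A) :
    ∃ (v : HeightOneSpectrum (𝓞 K)) (l : ℕ), (A : 𝓞 K) ∉ v.asIdeal ∧
      h.eval (l : 𝓞 K) ∈ v.asIdeal := by
  obtain ⟨l₀, hl₀⟩ := norm_big h hd 0 1 one_pos 0
  rw [zero_add, one_mul] at hl₀
  set c : 𝓞 K := h.eval (l₀ : 𝓞 K) with hc
  have hc0 : c ≠ 0 := by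
    intro h0
    rw [h0] at hl₀
    simp at hl₀
  set N : ℕ := Ideal.absNorm (Ideal.span {c}) with hN
  have hNc : N = (Algebra.norm ℤ c).natAbs := Ideal.absNorm_span_singleton c
  have hN0 : 0 < N := by
    rw [hNc]
    exact Int.natAbs_pos.2 (Algebra.norm_ne_zero_iff.2 hc0)
  obtain ⟨N', hN'⟩ : c ∣ (N : 𝓞 K) := Ideal.mem_span_singleton.1 (Ideal.absNorm_mem _)
  obtain ⟨k, hk⟩ := norm_big h hd l₀ (A * N) (Nat.mul_pos hA hN0) N
  obtain ⟨r, hr⟩ := sub_dvd_eval_sub ((l₀ + A * N * k : ℕ) : 𝓞 K) (l₀ : 𝓞 K) h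
  set y : 𝓞 K := 1 + A * (N' * k * r) with hy
  have hval : h.eval ((l₀ + A * N * k : ℕ) : 𝓞 K) = c * y := by
    have e1 : h.eval ((l₀ + A * N * k : ℕ) : 𝓞 K) =
        c + (((l₀ + A * N * k : ℕ) : 𝓞 K) - (l₀ : 𝓞 K)) * r := by
      rw [← hr, hc]
      ring
    rw [e1, hy]
    push_cast
    rw [hN']
    ring
  have hyu : ¬ IsUnit y := by
    intro hu
    rw [hval, map_mul] at hk
    have h1 : (Algebra.norm ℤ y).natAbs = 1 := by
      have := hu.map (Algebra.norm ℤ)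
      exact Int.isUnit_iff_natAbs_eq.1 this
    have h2 : |(((Algebra.norm ℤ c * Algebra.norm ℤ y : ℤ)) : ℝ)| = N := by
      rw [← Int.cast_abs, Int.abs_eq_natAbs, Int.natAbs_mul, h1, mul_one, ← hNc]
      simp
    rw [h2] at hk
    exact lt_irrefl _ hk
  have hy0 : y ≠ 0 := by
    intro h0
    rw [hval, h0, mul_zero] at hk
    simp at hk
    have : (0 : ℝ) ≤ N := Nat.cast_nonneg _
    linarith
  obtain ⟨v, hv, hyv⟩ := exists_max_ideal_of_mem_nonunits (mem_nonunits_iff.2 hyu)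
  have hvb : v ≠ ⊥ := by
    rintro rfl
    exact hy0 (Ideal.mem_bot.1 hyv)
  refine ⟨⟨v, hv.isPrime, hvb⟩, l₀ + A * N * k, ?_, ?_⟩
  · intro hAv
    apply hv.ne_top
    rw [Ideal.eq_top_iff_one]
    have e1 : (1 : 𝓞 K) = y - A * (N' * k * r) := by
      rw [hy]
      ring
    rw [e1]
    exact v.sub_mem hyv (v.mul_mem_right _ hAv)
  · rw [hval]
    exact v.mul_mem_left _ hyv

theorem mem_sq_of_pow (v : HeightOneSpectrum (𝓞 K)) {x : 𝓞 K} {μ : ℕ} (hμ : 1 ≤ μ)
    (h : x ^ μ ∈ v.asIdeal ^ (μ + 1)) : x ∈ v.asIdeal ^ 2 := by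
  by_cases hx0 : x = 0
  · rw [hx0]
    exact Ideal.zero_mem _
  have hxv : x ∈ v.asIdeal := v.isPrime.mem_of_pow_mem μ (Ideal.pow_le_self (by omega) h)
  by_contra hx2
  rw [← v.intValuation_le_pow_iff_mem] at h hx2
  rw [map_pow] at h
  rw [v.intValuation_if_neg hx0] at h hx2
  rw [← WithZero.exp_nsmul] at h
  rw [WithZero.exp_le_exp] at h hx2
  push_cast at h hx2
  simp only [nsmul_eq_mul] at h
  set t : ℤ := (((Associates.mk v.asIdeal).count (Associates.mk (Ideal.span {x})).factors : ℕ) : ℤ)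
    with ht
  have h1 : t ≤ 1 := by omega
  have h2 : (μ : ℤ) * t ≤ μ := by nlinarith
  nlinarith

end Pool.Agent.T6.H54.PM
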