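import Mathlib
import Pool.Agent.T6.H54.PM.Orb

set_option autoImplicit false
set_option linter.unusedSectionVars false

/-!
# Multiplicities of the zeros of a polynomial whose values at the natural numbers are zero or of
large valuation at almost all primes of a number field, part 2
-/

namespace Pool.Agent.T6.H54.PM

open NumberField Polynomial IsDedekindDomain

variable {K : Type} [Field K] [NumberField K]

theorem clear (f : K[X]) : ∃ (F : (𝓞 K)[X]) (b : 𝓞 K), b ≠ 0 ∧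
    F.map (algebraMap (𝓞 K) K) = C (b : K) * f := by
  obtain ⟨b, hb, h1⟩ := IsLocalization.integerNormalization_spec (nonZeroDivisors (𝓞 K)) f
  refine ⟨_, b, nonZeroDivisors.ne_zero hb, h1.trans ?_⟩
  ext n
  rw [coeff_smul, coeff_C_mul]
  exact Algebra.smul_def _ _

theorem prime_mem (v : Ideal (𝓞 K)) (hv : v.IsPrime) (m : ℕ) (hm : m ≠ 0)
    (h : (m : 𝓞 K) ∈ v) : ∃ p : ℕ, p.Prime ∧ (p : 𝓞 K) ∈ v := by
  induction m using Nat.strong_induction_on with
  | _ m ih =>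
    have hm1 : m ≠ 1 := by
      rintro rfl
      exact hv.ne_top ((Ideal.eq_top_iff_one v).2 (by simpa using h))
    obtain ⟨k, hk⟩ := Nat.minFac_dvd m
    have hp := Nat.minFac_prime hm1
    have hk0 : k ≠ 0 := by
      rintro rfl
      exact hm (by rw [hk, mul_zero])
    have h2 : ((m.minFac : ℕ) : 𝓞 K) * ((k : ℕ) : 𝓞 K) ∈ v := by
      rw [← Nat.cast_mul, ← hk]
      exact h
    rcases hv.mem_or_mem h2 with h3 | h3
    · exact ⟨_, hp, h3⟩
    · refine ih k ?_ hk0 h3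
      have h4 := hp.two_le
      have h5 : 2 * k ≤ m.minFac * k := Nat.mul_le_mul_right k h4
      rw [← hk] at h5
      omega

theorem map_inj {F G : (𝓞 K)[X]} (h : F.map (algebraMap (𝓞 K) K) = G.map (algebraMap (𝓞 K) K)) :
    F = G :=
  Polynomial.map_injective _ (RingOfIntegers.coe_injective) h

/-- a family of polynomials whose values at the natural numbers are, at almost all primes, not all
in the prime or all in its `n`-th power: the common irreducible factors have multiplicity at least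
`n` -/
theorem mult_ge {ι : Type} [Fintype ι] (G : ι → (𝓞 K)[X]) (S₀ : Set (HeightOneSpectrum (𝓞 K)))
    (hS₀ : S₀.Finite) (n : ℕ)
    (H : ∀ v ∉ S₀, ∀ l : ℕ, (∀ i, (G i).eval (l : 𝓞 K) ∈ v.asIdeal) →
      ∀ i, (G i).eval (l : 𝓞 K) ∈ v.asIdeal ^ n)
    (π : K[X]) (hπ : Irreducible π) (hdiv : ∀ i, π ∣ (G i).map (algebraMap (𝓞 K) K)) (i₁ : ι) :
    π ^ n ∣ (G i₁).map (algebraMap (𝓞 K) K) := by
  classical
  by_cases hG : (G i₁).map (algebraMap (𝓞 K) K) = 0
  · rw [hG]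
    exact dvd_zero _
  by_contra hn
  have hfin : FiniteMultiplicity π ((G i₁).map (algebraMap (𝓞 K) K)) :=
    FiniteMultiplicity.of_prime_left hπ.prime hG
  obtain ⟨G₁, hG₁, hG₂⟩ := hfin.exists_eq_pow_mul_and_not_dvd
  set μ : ℕ := multiplicity π ((G i₁).map (algebraMap (𝓞 K) K)) with hμ
  have hμ1 : 1 ≤ μ := by
    by_contra h0
    have h1 : μ = 0 := by omega
    rw [h1, pow_zero, one_mul] at hG₁
    exact hG₂ (hG₁ ▸ hdiv i₁)
  have hμn : μ < n := by
    by_contra h0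
    exact hn ((pow_dvd_pow π (not_lt.1 h0)).trans ⟨G₁, hG₁⟩)
  obtain ⟨a, b, hab⟩ : IsCoprime π (derivative π) := hπ.separable
  obtain ⟨c, d, hcd⟩ : IsCoprime π G₁ := (hπ.coprime_iff_not_dvd).2 hG₂
  obtain ⟨π₁, e₁, he₁, hπ₁⟩ := clear π
  obtain ⟨G₂', e₂, he₂, hG₂'⟩ := clear G₁
  obtain ⟨a₁, α, hα, ha₁⟩ := clear a
  obtain ⟨b₁, β, hβ, hb₁⟩ := clear b
  obtain ⟨c₁, γ, hγ, hc₁⟩ := clear c
  obtain ⟨d₁, δ, hδ, hd₁⟩ := clear d
  choose h hh using hdiv
  choose h₁ η hη hh₁ using fun i => clear (h i)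
  -- relations over the integers
  have R1 : C β * a₁ * π₁ + C α * b₁ * derivative π₁ = C (α * β * e₁) := by
    apply map_inj
    rw [Polynomial.map_add, Polynomial.map_mul, Polynomial.map_mul, Polynomial.map_mul,
      Polynomial.map_mul, ← derivative_map, map_C, map_C, map_C, hπ₁, ha₁, hb₁, derivative_C_mul]
    have e0 : algebraMap (𝓞 K) K (α * β * e₁) = (α : K) * (β : K) * (e₁ : K) := by
      rw [map_mul, map_mul]
    rw [e0, C_mul, C_mul]
    have e1 : algebraMap (𝓞 K) K α = (α : K) := rfl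
    have e2 : algebraMap (𝓞 K) K β = (β : K) := rfl
    rw [e1, e2]
    linear_combination (C (α : K) * C (β : K) * C (e₁ : K)) * hab
  have R2 : C (δ * e₂) * c₁ * π₁ + C (γ * e₁) * d₁ * G₂' = C (γ * δ * e₁ * e₂) := by
    apply map_inj
    rw [Polynomial.map_add, Polynomial.map_mul, Polynomial.map_mul, Polynomial.map_mul,
      Polynomial.map_mul, map_C, map_C, map_C, hπ₁, hc₁, hd₁, hG₂']
    have e0 : algebraMap (𝓞 K) K (γ * δ * e₁ * e₂) = (γ : K) * (δ : K) * (e₁ : K) * (e₂ : K) := by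
      rw [map_mul, map_mul, map_mul]
    have e3 : algebraMap (𝓞 K) K (δ * e₂) = (δ : K) * (e₂ : K) := by rw [map_mul]
    have e4 : algebraMap (𝓞 K) K (γ * e₁) = (γ : K) * (e₁ : K) := by rw [map_mul]
    rw [e0, e3, e4, C_mul, C_mul, C_mul, C_mul, C_mul]
    linear_combination (C (γ : K) * C (δ : K) * C (e₁ : K) * C (e₂ : K)) * hcd
  have R3 : C (e₁ ^ μ * e₂) * G i₁ = π₁ ^ μ * G₂' := by
    apply map_inj
    rw [Polynomial.map_mul, Polynomial.map_mul, Polynomial.map_pow, map_C, hπ₁, hG₂', hG₁]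
    have e0 : algebraMap (𝓞 K) K (e₁ ^ μ * e₂) = (e₁ : K) ^ μ * (e₂ : K) := by
      rw [map_mul, map_pow]
    rw [e0, C_mul, C_pow, mul_pow]
    ring
  have R4 : ∀ i, C (e₁ * η i) * G i = π₁ * h₁ i := by
    intro i
    apply map_inj
    rw [Polynomial.map_mul, Polynomial.map_mul, map_C, hπ₁, hh₁ i, hh i]
    have e0 : algebraMap (𝓞 K) K (e₁ * η i) = (e₁ : K) * (η i : K) := by rw [map_mul]
    rw [e0, C_mul]
    ring
  -- the exceptional integer
  set E : 𝓞 K := (α * β * e₁) * (γ * δ * e₁ * e₂) * (e₁ ^ μ * e₂) * ∏ i, (e₁ * η i) with hE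
  have hE0 : E ≠ 0 := by
    rw [hE]
    refine mul_ne_zero (mul_ne_zero (mul_ne_zero ?_ ?_) ?_) ?_
    · exact mul_ne_zero (mul_ne_zero hα hβ) he₁
    · exact mul_ne_zero (mul_ne_zero (mul_ne_zero hγ hδ) he₁) he₂
    · exact mul_ne_zero (pow_ne_zero _ he₁) he₂
    · exact Finset.prod_ne_zero_iff.2 fun i _ => mul_ne_zero he₁ (hη i)
  set A : ℕ := Ideal.absNorm (Ideal.span {E}) * (discr K).natAbs *
    ∏ v ∈ hS₀.toFinset, Ideal.absNorm v.asIdeal with hA
  have hA0 : 0 < A := by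
    rw [hA]
    refine Nat.mul_pos (Nat.mul_pos ?_ ?_) (Finset.prod_pos fun v _ => ?_)
    · refine Nat.pos_of_ne_zero ?_
      rw [Ne, Ideal.absNorm_eq_zero_iff, Ideal.span_singleton_eq_bot]
      exact hE0
    · exact Int.natAbs_pos.2 (discr_ne_zero K)
    · refine Nat.pos_of_ne_zero ?_
      rw [Ne, Ideal.absNorm_eq_zero_iff]
      exact v.ne_bot
  have hdeg : 0 < π₁.degree := by
    have h1 : (π₁.map (algebraMap (𝓞 K) K)).degree = π₁.degree :=
      degree_map_eq_of_injective (RingOfIntegers.coe_injective) _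
    rw [← h1, hπ₁, degree_C_mul (RingOfIntegers.coe_ne_zero_iff.2 he₁)]
    exact degree_pos_of_irreducible hπ
  obtain ⟨v, l, hAv, hlv⟩ := exists_prime_value π₁ hdeg A hA0
  have hvS : v ∉ S₀ := by
    intro hv
    apply hAv
    rw [hA, Nat.cast_mul]
    refine v.asIdeal.mul_mem_left _ ?_
    rw [← Finset.mul_prod_erase hS₀.toFinset (fun v => Ideal.absNorm v.asIdeal)
      (hS₀.mem_toFinset.2 hv), Nat.cast_mul]
    exact v.asIdeal.mul_mem_right _ (Ideal.absNorm_mem _)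
  have hEv : E ∉ v.asIdeal := by
    intro hv
    apply hAv
    rw [hA, Nat.cast_mul, Nat.cast_mul]
    refine v.asIdeal.mul_mem_right _ (v.asIdeal.mul_mem_right _ ?_)
    have h1 : Ideal.span {E} ≤ v.asIdeal := (Ideal.span_singleton_le_iff_mem _).2 hv
    exact h1 (Ideal.absNorm_mem _)
  have hdv : ((discr K : ℤ) : 𝓞 K) ∉ v.asIdeal := by
    intro hv
    apply hAv
    rw [hA, Nat.cast_mul, Nat.cast_mul]
    refine v.asIdeal.mul_mem_right _ (v.asIdeal.mul_mem_left _ ?_)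
    rcases Int.natAbs_eq (discr K) with h1 | h1
    · rw [h1] at hv
      simpa using hv
    · rw [h1] at hv
      simpa using hv
  have hE1 : α * β * e₁ ∉ v.asIdeal := fun h => hEv (by
    rw [hE]
    exact v.asIdeal.mul_mem_right _ (v.asIdeal.mul_mem_right _ (v.asIdeal.mul_mem_right _ h)))
  have hE2 : γ * δ * e₁ * e₂ ∉ v.asIdeal := fun h => hEv (by
    rw [hE]
    exact v.asIdeal.mul_mem_right _ (v.asIdeal.mul_mem_right _ (v.asIdeal.mul_mem_left _ h)))
  have hE3 : e₁ ^ μ * e₂ ∉ v.asIdeal := fun h => hEv (by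
    rw [hE]
    exact v.asIdeal.mul_mem_right _ (v.asIdeal.mul_mem_left _ h))
  have hE4 : ∀ i, e₁ * η i ∉ v.asIdeal := fun i h => hEv (by
    rw [hE, ← Finset.mul_prod_erase Finset.univ (fun i => e₁ * η i) (Finset.mem_univ i)]
    exact v.asIdeal.mul_mem_left _ (v.asIdeal.mul_mem_right _ h))
  obtain ⟨p, hp, hpv⟩ := prime_mem v.asIdeal v.isPrime (Ideal.absNorm v.asIdeal)
    (by rw [Ne, Ideal.absNorm_eq_zero_iff]; exact v.ne_bot) (Ideal.absNorm_mem _)
  have hp2 := not_mem_sq v.asIdeal v.isPrime hp hpv hdv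
  -- values in the square of `v`
  have key : ∀ l' : ℕ, π₁.eval (l' : 𝓞 K) ∈ v.asIdeal → π₁.eval (l' : 𝓞 K) ∈ v.asIdeal ^ 2 := by
    intro l' hl'
    have r3 := congrArg (eval (l' : 𝓞 K)) R3
    rw [eval_mul, eval_C, eval_mul, eval_pow] at r3
    have r2 := congrArg (eval (l' : 𝓞 K)) R2
    rw [eval_add, eval_mul, eval_mul, eval_mul, eval_mul, eval_C, eval_C, eval_C] at r2
    have hG2v : G₂'.eval (l' : 𝓞 K) ∉ v.asIdeal := by
      intro h
      apply hE2
      rw [← r2]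
      exact v.asIdeal.add_mem (v.asIdeal.mul_mem_left _ hl') (v.asIdeal.mul_mem_left _ h)
    have hGv : ∀ i, (G i).eval (l' : 𝓞 K) ∈ v.asIdeal := by
      intro i
      have r4 := congrArg (eval (l' : 𝓞 K)) (R4 i)
      rw [eval_mul, eval_C, eval_mul] at r4
      have h1 : (e₁ * η i) * (G i).eval (l' : 𝓞 K) ∈ v.asIdeal := by
        rw [r4]
        exact v.asIdeal.mul_mem_right _ hl'
      exact (v.isPrime.mem_or_mem h1).resolve_left (hE4 i)
    have hGn : (G i₁).eval (l' : 𝓞 K) ∈ v.asIdeal ^ (μ + 1) :=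
      Ideal.pow_le_pow_right (by omega) (H v hvS l' hGv i₁)
    have h2 : G₂'.eval (l' : 𝓞 K) * π₁.eval (l' : 𝓞 K) ^ μ ∈ v.asIdeal ^ (μ + 1) := by
      rw [mul_comm, ← r3]
      exact Ideal.mul_mem_left _ _ hGn
    have hvp : v.asIdeal.IsPrime := v.isPrime
    have h3 := (Ideal.IsPrime.mul_mem_pow v.asIdeal h2).resolve_left hG2v
    exact mem_sq_of_pow v hμ1 h3
  have hl2 := key l hlv
  obtain ⟨w, hw⟩ := binomExpansion π₁ (l : 𝓞 K) (p : 𝓞 K)
  have hlp : π₁.eval ((l + p : ℕ) : 𝓞 K) ∈ v.asIdeal := by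
    rw [Nat.cast_add, hw]
    refine v.asIdeal.add_mem (v.asIdeal.add_mem hlv (v.asIdeal.mul_mem_left _ hpv))
      (v.asIdeal.mul_mem_left _ ?_)
    exact v.asIdeal.pow_mem_of_mem hpv 2 (by norm_num)
  have hlp2 := key (l + p) hlp
  rw [Nat.cast_add, hw] at hlp2
  have h4 : (derivative π₁).eval (l : 𝓞 K) * (p : 𝓞 K) ∈ v.asIdeal ^ 2 := by
    have h5 : w * (p : 𝓞 K) ^ 2 ∈ v.asIdeal ^ 2 :=
      Ideal.mul_mem_left _ _ (Ideal.pow_mem_pow hpv 2)
    have e1 : (derivative π₁).eval (l : 𝓞 K) * (p : 𝓞 K) =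
        (π₁.eval (l : 𝓞 K) + (derivative π₁).eval (l : 𝓞 K) * (p : 𝓞 K) + w * (p : 𝓞 K) ^ 2) -
          π₁.eval (l : 𝓞 K) - w * (p : 𝓞 K) ^ 2 := by ring
    rw [e1]
    exact Ideal.sub_mem _ (Ideal.sub_mem _ hlp2 hl2) h5
  have hdv' : (derivative π₁).eval (l : 𝓞 K) ∉ v.asIdeal := by
    intro h
    apply hE1
    have r1 := congrArg (eval (l : 𝓞 K)) R1
    rw [eval_add, eval_mul, eval_mul, eval_mul, eval_mul, eval_C, eval_C, eval_C] at r1
    rw [← r1]
    exact v.asIdeal.add_mem (v.asIdeal.mul_mem_left _ hlv) (v.asIdeal.mul_mem_left _ h)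
  have hvp : v.asIdeal.IsPrime := v.isPrime
  exact hp2 ((Ideal.IsPrime.mul_mem_pow v.asIdeal h4).resolve_left hdv')

end Pool.Agent.T6.H54.PM
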