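import Mathlib

set_option autoImplicit false
set_option linter.unusedSectionVars false

/-!
# Polynomial orbifold curves in the projective line
-/

namespace Pool.Agent.T6.H54.PM

open Polynomial

variable {L : Type} [Field L]

theorem deriv_aeval (F : Fin 2 → L[X]) (B : MvPolynomial (Fin 2) L) :
    derivative (MvPolynomial.aeval F B) =
      ∑ j, MvPolynomial.aeval F (MvPolynomial.pderiv j B) * derivative (F j) := by
  classical
  induction B using MvPolynomial.induction_on with
  | C a => simp
  | add p q hp hq =>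
    simp only [map_add, hp, hq, add_mul, Finset.sum_add_distrib]
  | mul_X p i hp =>
    rw [map_mul, derivative_mul, hp, MvPolynomial.aeval_X]
    simp only [MvPolynomial.pderiv_mul, MvPolynomial.pderiv_X, map_add, map_mul,
      MvPolynomial.aeval_X]
    fin_cases i <;> simp [Fin.sum_univ_two, Pi.single_apply] <;> ring

theorem euler (F : Fin 2 → L[X]) {e : ℕ} {B : MvPolynomial (Fin 2) L} (hB : B.IsHomogeneous e) :
    (e : L[X]) * MvPolynomial.aeval F B =
      ∑ j, F j * MvPolynomial.aeval F (MvPolynomial.pderiv j B) := by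
  have h := congrArg (MvPolynomial.aeval F) hB.sum_X_mul_pderiv
  rw [map_sum, map_nsmul, nsmul_eq_mul] at h
  rw [← h]
  refine Finset.sum_congr rfl fun j _ => ?_
  rw [map_mul, MvPolynomial.aeval_X]

/-- the relations with the Wronskian -/
theorem wr0 (F : Fin 2 → L[X]) {e : ℕ} {B : MvPolynomial (Fin 2) L} (hB : B.IsHomogeneous e) :
    MvPolynomial.aeval F (MvPolynomial.pderiv 0 B) * wronskian (F 0) (F 1) =
      (e : L[X]) * MvPolynomial.aeval F B * derivative (F 1) -
        derivative (MvPolynomial.aeval F B) * F 1 := by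
  rw [euler F hB, deriv_aeval, Fin.sum_univ_two, Fin.sum_univ_two, wronskian]
  ring

theorem wr1 (F : Fin 2 → L[X]) {e : ℕ} {B : MvPolynomial (Fin 2) L} (hB : B.IsHomogeneous e) :
    MvPolynomial.aeval F (MvPolynomial.pderiv 1 B) * wronskian (F 0) (F 1) =
      derivative (MvPolynomial.aeval F B) * F 0 -
        (e : L[X]) * MvPolynomial.aeval F B * derivative (F 0) := by
  rw [euler F hB, deriv_aeval, Fin.sum_univ_two, Fin.sum_univ_two, wronskian]
  ring

theorem eval_aeval (F : Fin 2 → L[X]) (B : MvPolynomial (Fin 2) L) (τ : L) :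
    (MvPolynomial.aeval F B).eval τ = MvPolynomial.eval (fun j => (F j).eval τ) B := by
  have h := MvPolynomial.comp_aeval_apply F (Polynomial.aeval τ : L[X] →ₐ[L] L) B
  rw [Polynomial.coe_aeval_eq_eval] at h
  rw [h]
  rw [MvPolynomial.aeval_eq_eval]

/-- the multiplicity of a zero of `B (f, g)` and the Wronskian -/
theorem mult_wr (F : Fin 2 → L[X]) {e : ℕ} {B : MvPolynomial (Fin 2) L} (hB : B.IsHomogeneous e)
    (τ : L) (hs : ∃ j, MvPolynomial.eval (fun j => (F j).eval τ) (MvPolynomial.pderiv j B) ≠ 0)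
    (k : ℕ) (hk : (X - C τ) ^ k ∣ MvPolynomial.aeval F B) :
    (X - C τ) ^ (k - 1) ∣ wronskian (F 0) (F 1) := by
  have h1 : (X - C τ) ^ (k - 1) ∣ MvPolynomial.aeval F B :=
    (pow_dvd_pow _ (Nat.sub_le k 1)).trans hk
  have h2 : (X - C τ) ^ (k - 1) ∣ derivative (MvPolynomial.aeval F B) :=
    pow_sub_one_dvd_derivative_of_pow_dvd hk
  obtain ⟨j, hj⟩ := hs
  rw [← eval_aeval] at hj
  have hcop : IsCoprime ((X - C τ) ^ (k - 1)) (MvPolynomial.aeval F (MvPolynomial.pderiv j B)) := by
    refine IsCoprime.pow_left ?_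
    rw [(irreducible_X_sub_C τ).coprime_iff_not_dvd, dvd_iff_isRoot]
    exact hj
  refine hcop.dvd_of_dvd_mul_left ?_
  fin_cases j
  · simp only [Fin.zero_eta]
    rw [wr0 F hB]
    exact dvd_sub (Dvd.dvd.mul_right (Dvd.dvd.mul_left h1 _) _) (Dvd.dvd.mul_right h2 _)
  · simp only [Fin.mk_one]
    rw [wr1 F hB]
    exact dvd_sub (Dvd.dvd.mul_right h2 _) (Dvd.dvd.mul_right (Dvd.dvd.mul_left h1 _) _)

/-- degree and top coefficient of `B (f, g)` -/
theorem deg_aeval (F : Fin 2 → L[X]) {e : ℕ} {B : MvPolynomial (Fin 2) L} (hB : B.IsHomogeneous e)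
    (d : ℕ) (hF : ∀ j, (F j).natDegree ≤ d) :
    (MvPolynomial.aeval F B).natDegree ≤ e * d ∧
      (MvPolynomial.aeval F B).coeff (e * d) = MvPolynomial.eval (fun j => (F j).coeff d) B := by
  classical
  rw [MvPolynomial.aeval_def, MvPolynomial.eval₂_eq']
  have hterm : ∀ s ∈ B.support, (∏ j, F j ^ s j).natDegree ≤ e * d ∧
      (∏ j, F j ^ s j).coeff (e * d) = ∏ j, (F j).coeff d ^ s j := by
    intro s hs
    have hs' := hB (MvPolynomial.mem_support_iff.1 hs)
    rw [Finsupp.weight_apply, Finsupp.sum_fintype _ _ (by simp), Fin.sum_univ_two] at hs'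
    simp only [Pi.one_apply, smul_eq_mul, mul_one] at hs'
    rw [Fin.prod_univ_two, Fin.prod_univ_two]
    have h0 : (F 0 ^ s 0).natDegree ≤ s 0 * d := (natDegree_pow_le).trans
      (Nat.mul_le_mul_left _ (hF 0))
    have h1 : (F 1 ^ s 1).natDegree ≤ s 1 * d := (natDegree_pow_le).trans
      (Nat.mul_le_mul_left _ (hF 1))
    have e1 : e * d = s 0 * d + s 1 * d := by rw [← hs']; ring
    refine ⟨?_, ?_⟩
    · rw [e1]
      exact natDegree_mul_le.trans (Nat.add_le_add h0 h1)
    · rw [e1, coeff_mul_add_eq_of_natDegree_le h0 h1, coeff_pow_of_natDegree_le (hF 0),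
        coeff_pow_of_natDegree_le (hF 1)]
  constructor
  · refine natDegree_sum_le_of_forall_le _ _ fun s hs => ?_
    rw [← C_eq_algebraMap]
    exact (natDegree_C_mul_le _ _).trans (hterm s hs).1
  · rw [finsetSum_coeff, MvPolynomial.eval_eq']
    refine Finset.sum_congr rfl fun s hs => ?_
    rw [← C_eq_algebraMap, coeff_C_mul, (hterm s hs).2]

/-- `1 - 1 / m` -/
noncomputable def cf (m : ℕ∞) : ℝ := if m = ⊤ then 1 else 1 - 1 / (m.toNat : ℝ)

theorem cf_nonneg {m : ℕ∞} (hm : 1 ≤ m) : 0 ≤ cf m := by
  unfold cf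
  split_ifs with h
  · exact zero_le_one
  · obtain ⟨n, rfl⟩ := ENat.ne_top_iff_exists.1 h
    have h1 : 1 ≤ n := by exact_mod_cast hm
    have h2 : (1 : ℝ) ≤ n := by exact_mod_cast h1
    simp only [ENat.toNat_natCast]
    rw [sub_nonneg, div_le_one (by linarith)]
    exact h2

theorem cf_le_one (m : ℕ∞) : cf m ≤ 1 := by
  unfold cf
  split_ifs with h
  · exact le_rfl
  · have : (0 : ℝ) ≤ 1 / (m.toNat : ℝ) := by positivity
    linarith

/-- local inequality -/
theorem cf_mul_le {m : ℕ∞} (hm : 1 ≤ m) {k : ℕ} (hk : ∀ n : ℕ, (n : ℕ∞) ≤ m → n ≤ k) :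
    cf m * k ≤ (k : ℝ) - 1 := by
  unfold cf
  split_ifs with h
  · have := hk (k + 1) (by rw [h]; exact le_top)
    omega
  · obtain ⟨n, rfl⟩ := ENat.ne_top_iff_exists.1 h
    have h1 : 1 ≤ n := by exact_mod_cast hm
    have h2 : n ≤ k := hk n le_rfl
    have h3 : (n : ℝ) ≤ k := by exact_mod_cast h2
    have h4 : (0 : ℝ) < n := by exact_mod_cast h1
    simp only [ENat.toNat_natCast]
    have h5 : 1 ≤ 1 / (n : ℝ) * k := by
      rw [one_div, inv_mul_eq_div, le_div_iff₀ h4]
      linarith
    linarith

/-- **Riemann-Hurwitz / Mason-Stothers**: polynomial orbifold curves in the projective line exist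
only if the degree of the orbifold divisor is less than two. -/
theorem rh [IsAlgClosed L] [CharZero L] (F : Fin 2 → L[X]) (hF : IsCoprime (F 0) (F 1)) {q : ℕ}
    (B : Fin q → MvPolynomial (Fin 2) L) (e : Fin q → ℕ) (hB : ∀ i, (B i).IsHomogeneous (e i))
    (hsm : ∀ i (z : Fin 2 → L), z ≠ 0 → MvPolynomial.eval z (B i) = 0 →
      ∃ j, MvPolynomial.eval z (MvPolynomial.pderiv j (B i)) ≠ 0)
    (hdj : ∀ i i', i ≠ i' → ∀ z : Fin 2 → L, z ≠ 0 → MvPolynomial.eval z (B i) = 0 →
      MvPolynomial.eval z (B i') ≠ 0)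
    (m : Fin q → ℕ∞) (hm1 : ∀ i, 1 ≤ m i)
    (hm : ∀ i τ, (MvPolynomial.aeval F (B i)).IsRoot τ → ∀ n : ℕ, (n : ℕ∞) ≤ m i →
      (X - C τ) ^ n ∣ MvPolynomial.aeval F (B i))
    (hdeg : 2 ≤ ∑ i, cf (m i) * e i) : derivative (F 0) = 0 ∧ derivative (F 1) = 0 := by
  classical
  rw [← hF.wronskian_eq_zero_iff]
  by_contra hW
  set W := wronskian (F 0) (F 1) with hWdef
  set G : Fin q → L[X] := fun i => MvPolynomial.aeval F (B i) with hG
  have hne : ∀ τ, (fun j => (F j).eval τ) ≠ 0 := by
    intro τ h0
    obtain ⟨a, b, hab⟩ := hF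
    have h1 := congrArg (eval τ) hab
    have h2 : (F 0).eval τ = 0 := congrFun h0 0
    have h3 : (F 1).eval τ = 0 := congrFun h0 1
    rw [eval_add, eval_mul, eval_mul, h2, h3, eval_one] at h1
    simp at h1
  -- `G i ≠ 0`
  have hG0 : ∀ i, G i ≠ 0 := by
    intro i h0
    have h1 : MvPolynomial.eval (fun j => (F j).eval 0) (B i) = 0 := by
      rw [← eval_aeval]
      change (G i).eval 0 = 0
      rw [h0, eval_zero]
    obtain ⟨j, hj⟩ := hsm i _ (hne 0) h1
    have h2 : MvPolynomial.aeval F (B i) = 0 := h0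
    have hz : MvPolynomial.aeval F (MvPolynomial.pderiv j (B i)) = 0 := by
      fin_cases j
      · have := wr0 F (hB i)
        rw [h2] at this
        simp only [mul_zero, zero_mul, derivative_zero, sub_zero] at this
        exact (mul_eq_zero.1 this).resolve_right hW
      · have := wr1 F (hB i)
        rw [h2] at this
        simp only [mul_zero, zero_mul, derivative_zero, sub_zero] at this
        exact (mul_eq_zero.1 this).resolve_right hW
    rw [← eval_aeval, hz, eval_zero] at hj
    exact hj rfl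
  -- degrees
  set d : ℕ := max (F 0).natDegree (F 1).natDegree with hd
  have hFd : ∀ j, (F j).natDegree ≤ d := by
    intro j
    fin_cases j
    · exact le_max_left _ _
    · exact le_max_right _ _
  have hWd : W.natDegree + 1 ≤ 2 * d := by
    have h1 : W.natDegree < (F 0).natDegree + (F 1).natDegree := natDegree_wronskian_lt_add hW
    have h2 := hFd 0
    have h3 := hFd 1
    omega
  have hd0 : 1 ≤ d := by omega
  set zi : Fin 2 → L := fun j => (F j).coeff d with hzi
  have hzi0 : zi ≠ 0 := by
    intro h0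
    have h2 : (F 0).coeff d = 0 := congrFun h0 0
    have h3 : (F 1).coeff d = 0 := congrFun h0 1
    rcases le_total (F 0).natDegree (F 1).natDegree with h | h
    · have h4 : d = (F 1).natDegree := max_eq_right h
      rw [h4] at h3
      have h5 : F 1 = 0 := leadingCoeff_eq_zero.1 h3
      rw [h5, natDegree_zero] at h4
      omega
    · have h4 : d = (F 0).natDegree := max_eq_left h
      rw [h4] at h2
      have h5 : F 0 = 0 := leadingCoeff_eq_zero.1 h2
      rw [h5, natDegree_zero] at h4
      omega
  have hle : ∀ i, (G i).natDegree ≤ e i * d := fun i => (deg_aeval F (hB i) d hFd).1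
  have hco : ∀ i, (G i).coeff (e i * d) = MvPolynomial.eval zi (B i) :=
    fun i => (deg_aeval F (hB i) d hFd).2
  obtain ⟨k, hk⟩ : ∃ k : Fin q → ℕ, ∀ i, (G i).natDegree + k i = e i * d :=
    ⟨fun i => e i * d - (G i).natDegree, fun i => by have := hle i; simp only; omega⟩
  have hkpos : ∀ i, 0 < k i → MvPolynomial.eval zi (B i) = 0 := by
    intro i hi
    rw [← hco i]
    exact coeff_eq_zero_of_natDegree_lt (by have := hk i; omega)
  have huniq : ∀ i i', 0 < k i → 0 < k i' → i = i' := by
    intro i i' h1 h2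
    by_contra hne'
    exact hdj i i' hne' zi hzi0 (hkpos i h1) (hkpos i' h2)
  have hWk : ∀ i, W.natDegree + k i + 1 ≤ 2 * d := by
    intro i
    rcases Nat.eq_zero_or_pos (k i) with h0 | h0
    · omega
    · have hz := hkpos i h0
      obtain ⟨j, hj⟩ := hsm i zi hzi0 hz
      have he1 : 1 ≤ e i := by
        by_contra he
        have he' : e i = 0 := by omega
        have := hk i
        rw [he'] at this
        omega
      have hpd : ∀ j, (MvPolynomial.pderiv j (B i)).IsHomogeneous (e i - 1) := fun j =>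
        (hB i).pderiv
      have hdj' : (MvPolynomial.aeval F (MvPolynomial.pderiv j (B i))).natDegree =
          (e i - 1) * d := by
        refine le_antisymm (deg_aeval F (hpd j) d hFd).1 ?_
        refine le_natDegree_of_ne_zero ?_
        rw [(deg_aeval F (hpd j) d hFd).2]
        exact hj
      have hne0 : MvPolynomial.aeval F (MvPolynomial.pderiv j (B i)) ≠ 0 := by
        intro h1
        apply hj
        have h2 := (deg_aeval F (hpd j) d hFd).2
        rw [h1, coeff_zero] at h2
        exact h2.symm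
      have hmul : (MvPolynomial.aeval F (MvPolynomial.pderiv j (B i)) * W).natDegree ≤
          (G i).natDegree + d - 1 := by
        have b0 : ∀ j', ((e i : L[X]) * G i * derivative (F j')).natDegree ≤
            (G i).natDegree + d - 1 := by
          intro j'
          have h1 : ((e i : L[X]) * G i).natDegree ≤ (G i).natDegree := by
            have h2 : (e i : L[X]) = C (e i : L) := by simp
            rw [h2]
            exact natDegree_C_mul_le _ _
          have h2 : (derivative (F j')).natDegree ≤ d - 1 :=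
            (natDegree_derivative_le _).trans (Nat.sub_le_sub_right (hFd j') 1)
          have h3 := natDegree_mul_le (p := (e i : L[X]) * G i) (q := derivative (F j'))
          omega
        have b1 : ∀ j', (derivative (G i) * F j').natDegree ≤ (G i).natDegree + d - 1 := by
          intro j'
          by_cases hG' : derivative (G i) = 0
          · rw [hG', zero_mul, natDegree_zero]
            exact Nat.zero_le _
          · have h1 : (G i).natDegree ≠ 0 := by
              intro h2
              exact hG' (derivative_of_natDegree_zero h2)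
            have h2 : (derivative (G i)).natDegree ≤ (G i).natDegree - 1 :=
              natDegree_derivative_le _
            have h3 := natDegree_mul_le (p := derivative (G i)) (q := F j')
            have h4 := hFd j'
            omega
        fin_cases j
        · simp only [Fin.zero_eta]
          rw [hWdef, wr0 F (hB i)]
          exact (natDegree_sub_le _ _).trans (max_le (b0 1) (b1 1))
        · simp only [Fin.mk_one]
          rw [hWdef, wr1 F (hB i)]
          exact (natDegree_sub_le _ _).trans (max_le (b1 0) (b0 0))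
      rw [natDegree_mul hne0 hW, hdj'] at hmul
      have h1 := hk i
      obtain ⟨e', he'⟩ : ∃ e', e i = e' + 1 := ⟨e i - 1, by omega⟩
      rw [he'] at h1 hmul
      rw [Nat.add_sub_cancel] at hmul
      rw [add_mul, one_mul] at h1
      omega
  -- zeros
  have hroots : ∀ i, ((G i).natDegree : ℝ) =
      ∑ τ ∈ (G i).roots.toFinset, ((G i).roots.count τ : ℝ) := by
    intro i
    have h1 := (IsAlgClosed.splits (G i)).natDegree_eq_card_roots
    rw [h1, ← Multiset.toFinset_sum_count_eq (G i).roots]
    push_cast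
    rfl
  have hloc : ∀ i, cf (m i) * ((G i).natDegree : ℝ) ≤
      ∑ τ ∈ (G i).roots.toFinset, (((G i).roots.count τ : ℝ) - 1) := by
    intro i
    rw [hroots i, Finset.mul_sum]
    refine Finset.sum_le_sum fun τ hτ => ?_
    refine cf_mul_le (hm1 i) fun n hn => ?_
    rw [Multiset.mem_toFinset, mem_roots (hG0 i)] at hτ
    rw [count_roots]
    exact (le_rootMultiplicity_iff (hG0 i)).2 (hm i τ hτ n hn)
  have hdisj : ((Finset.univ : Finset (Fin q)) : Set (Fin q)).PairwiseDisjoint
      (fun i => (G i).roots.toFinset) := by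
    intro i _ i' _ hii'
    rw [Function.onFun, Finset.disjoint_left]
    intro τ h1 h2
    rw [Multiset.mem_toFinset, mem_roots (hG0 _), IsRoot.def] at h1 h2
    have h1' : MvPolynomial.eval (fun j => (F j).eval τ) (B i) = 0 := by
      rw [← eval_aeval]
      exact h1
    have h2' : MvPolynomial.eval (fun j => (F j).eval τ) (B i') = 0 := by
      rw [← eval_aeval]
      exact h2
    exact hdj i i' hii' _ (hne τ) h1' h2'
  have hsum : ∑ i, ∑ τ ∈ (G i).roots.toFinset, (((G i).roots.count τ : ℝ) - 1) ≤
      W.natDegree := by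
    have h1 : ∑ i, ∑ τ ∈ (G i).roots.toFinset, (((G i).roots.count τ : ℝ) - 1) ≤
        ∑ i, ∑ τ ∈ (G i).roots.toFinset, (W.roots.count τ : ℝ) := by
      refine Finset.sum_le_sum fun i _ => Finset.sum_le_sum fun τ hτ => ?_
      rw [Multiset.mem_toFinset, mem_roots (hG0 i), IsRoot.def] at hτ
      have h2 : MvPolynomial.eval (fun j => (F j).eval τ) (B i) = 0 := by
        rw [← eval_aeval]
        exact hτ
      have h3 := mult_wr F (hB i) τ (hsm i _ (hne τ) h2) ((G i).roots.count τ) (by
        rw [count_roots]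
        exact pow_rootMultiplicity_dvd _ _)
      rw [← le_rootMultiplicity_iff hW, ← count_roots] at h3
      have h4 : ((G i).roots.count τ : ℝ) ≤ (((G i).roots.count τ - 1 : ℕ) : ℝ) + 1 := by
        have : (G i).roots.count τ ≤ ((G i).roots.count τ - 1) + 1 := by omega
        exact_mod_cast this
      have h5 : (((G i).roots.count τ - 1 : ℕ) : ℝ) ≤ (W.roots.count τ : ℝ) := by exact_mod_cast h3
      linarith
    refine h1.trans ?_
    rw [← Finset.sum_biUnion hdisj]
    have h2' : ∑ τ ∈ Finset.univ.biUnion (fun i => (G i).roots.toFinset), W.roots.count τ ≤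
        ∑ τ ∈ W.roots.toFinset, W.roots.count τ := by
      refine Finset.sum_le_sum_of_ne_zero fun τ _ h0 => ?_
      rw [Multiset.mem_toFinset]
      exact Multiset.count_ne_zero.1 h0
    have h2 : ∑ τ ∈ Finset.univ.biUnion (fun i => (G i).roots.toFinset), (W.roots.count τ : ℝ) ≤
        ∑ τ ∈ W.roots.toFinset, (W.roots.count τ : ℝ) := by exact_mod_cast h2'
    refine h2.trans ?_
    have h3 : ∑ τ ∈ W.roots.toFinset, (W.roots.count τ : ℝ) = (Multiset.card W.roots : ℝ) := by
      rw [← Multiset.toFinset_sum_count_eq W.roots]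
      push_cast
      rfl
    rw [h3]
    exact_mod_cast W.card_roots'
  have hfin : ∑ i, cf (m i) * ((G i).natDegree : ℝ) ≤ W.natDegree :=
    (Finset.sum_le_sum fun i _ => hloc i).trans hsum
  -- the contribution at infinity
  have hinf : (W.natDegree : ℝ) + ∑ i, cf (m i) * (k i : ℝ) + 1 ≤ 2 * d := by
    by_cases hex : ∃ i₀, 0 < k i₀
    · obtain ⟨i₀, hi₀⟩ := hex
      have h1 : ∑ i, cf (m i) * (k i : ℝ) = cf (m i₀) * (k i₀ : ℝ) := by
        refine Finset.sum_eq_single i₀ (fun i _ hi => ?_) (fun h => absurd (Finset.mem_univ _) h)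
        have : k i = 0 := by
          by_contra hki
          exact hi (huniq i i₀ (Nat.pos_of_ne_zero hki) hi₀)
        rw [this]
        simp
      rw [h1]
      have h2 : cf (m i₀) * (k i₀ : ℝ) ≤ k i₀ := by
        have := cf_le_one (m i₀)
        have h3 : (0 : ℝ) ≤ k i₀ := Nat.cast_nonneg _
        nlinarith
      have h3 : ((W.natDegree + k i₀ + 1 : ℕ) : ℝ) ≤ ((2 * d : ℕ) : ℝ) := by
        exact_mod_cast hWk i₀
      push_cast at h3
      linarith
    · push Not at hex
      have h1 : ∑ i, cf (m i) * (k i : ℝ) = 0 := by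
        refine Finset.sum_eq_zero fun i _ => ?_
        have := hex i
        have : k i = 0 := by omega
        rw [this]
        simp
      rw [h1]
      have h3 : ((W.natDegree + 1 : ℕ) : ℝ) ≤ ((2 * d : ℕ) : ℝ) := by exact_mod_cast hWd
      push_cast at h3
      linarith
  have htot : ∑ i, cf (m i) * (e i : ℝ) * d =
      ∑ i, cf (m i) * ((G i).natDegree : ℝ) + ∑ i, cf (m i) * (k i : ℝ) := by
    rw [← Finset.sum_add_distrib]
    refine Finset.sum_congr rfl fun i _ => ?_
    have h1 : ((G i).natDegree : ℝ) + k i = e i * d := by exact_mod_cast hk i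
    rw [mul_assoc, ← h1]
    ring
  have hd' : (0 : ℝ) ≤ d := Nat.cast_nonneg _
  have h2d : 2 * (d : ℝ) ≤ ∑ i, cf (m i) * (e i : ℝ) * d := by
    rw [← Finset.sum_mul]
    exact mul_le_mul_of_nonneg_right hdeg hd'
  linarith

end Pool.Agent.T6.H54.PM
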