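import Mathlib
import Pool.Agent.H297R2.Core

set_option autoImplicit false
set_option linter.unusedSectionVars false

/-!
# Sequences of points periodic modulo primes: the auxiliary function

`x n` (`n : ℕ`) are vectors of integers of a number field `K` which are unimodular modulo the primes
`p ∈ S`, `p₀ ≤ p`, and such that `x (n + p)` and `x n` are proportional modulo `p`.
-/

namespace Pool.Agent.T6.H54.PM

open NumberField Finset

variable {K : Type} [Field K] [NumberField K]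

/-- unimodular modulo the primes of `S` (from `p₀` on) and periodic up to factors -/
structure Per (S : Set ℕ) (p₀ : ℕ) {N : ℕ} (x : ℕ → Fin (N + 1) → 𝓞 K) : Prop where
  uni : ∀ p ∈ S, p₀ ≤ p → ∀ n, ∃ u : Fin (N + 1) → 𝓞 K, (p : 𝓞 K) ∣ ∑ i, u i * x n i - 1
  per : ∀ p ∈ S, p₀ ≤ p → ∀ n, ∀ i j,
    (p : 𝓞 K) ∣ x (n + p) i * x n j - x (n + p) j * x n i

theorem Per.lam {S : Set ℕ} {p₀ N : ℕ} {x : ℕ → Fin (N + 1) → 𝓞 K} (h : Per S p₀ x) {p : ℕ}
    (hp : p ∈ S) (hp0 : p₀ ≤ p) (n : ℕ) : ∃ l : 𝓞 K, ∀ i, (p : 𝓞 K) ∣ x (n + p) i - l * x n i := by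
  obtain ⟨u, hu⟩ := h.uni p hp hp0 n
  refine ⟨∑ j, u j * x (n + p) j, fun i => ?_⟩
  have e : x (n + p) i - (∑ j, u j * x (n + p) j) * x n i =
      -(x (n + p) i * (∑ j, u j * x n j - 1)) +
        ∑ j, u j * (x (n + p) i * x n j - x (n + p) j * x n i) := by
    simp only [mul_sub, Finset.sum_sub_distrib, Finset.mul_sum, Finset.sum_mul]
    have e1 : ∑ j, x (n + p) i * (u j * x n j) = ∑ j, u j * (x (n + p) i * x n j) :=
      Finset.sum_congr rfl fun j _ => by ring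
    have e2 : ∑ j, u j * x (n + p) j * x n i = ∑ j, u j * (x (n + p) j * x n i) :=
      Finset.sum_congr rfl fun j _ => by ring
    rw [e1, e2]
    ring
  rw [e]
  refine dvd_add ?_ (Finset.dvd_sum fun j _ => Dvd.dvd.mul_left (h.per p hp hp0 n i j) _)
  exact (Dvd.dvd.mul_left hu _).neg_right

/-- binomial coefficients are periodic modulo large primes -/
theorem choose_per {p k : ℕ} (hp : p.Prime) (hk : k < p) (n : ℕ) :
    (p : 𝓞 K) ∣ (((n + p).choose k : ℕ) : 𝓞 K) - ((n.choose k : ℕ) : 𝓞 K) := by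
  have : Fact p.Prime := ⟨hp⟩
  have h1 := Choose.choose_modEq_choose_mod_mul_choose_div_nat (n := n + p) (k := k) (p := p)
  have h2 := Choose.choose_modEq_choose_mod_mul_choose_div_nat (n := n) (k := k) (p := p)
  rw [Nat.mod_eq_of_lt hk, Nat.div_eq_of_lt hk, Nat.choose_zero_right, mul_one] at h1 h2
  rw [Nat.add_mod_right] at h1
  have h3 : (n + p).choose k ≡ n.choose k [MOD p] := h1.trans h2.symm
  have h4 : (p : ℤ) ∣ (((n + p).choose k : ℕ) : ℤ) - ((n.choose k : ℕ) : ℤ) :=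
    (Nat.modEq_iff_dvd.1 h3.symm)
  have h5 := map_dvd (Int.castRingHom (𝓞 K)) h4
  simpa using h5

/-- the auxiliary function -/
noncomputable def aux {D s : ℕ} (a : Fin (D + 1) × Fin (s + 1) → 𝓞 K) (X Y : ℕ → 𝓞 K) (n : ℕ) :
    𝓞 K :=
  ∑ q, ((n.choose q.1 : ℕ) : 𝓞 K) * (X n ^ (s - (q.2 : ℕ)) * Y n ^ (q.2 : ℕ)) * a q

theorem aux_per {D s : ℕ} (a : Fin (D + 1) × Fin (s + 1) → 𝓞 K) (X Y : ℕ → 𝓞 K) {p : ℕ}
    (hp : p.Prime) (hD : D < p) (n : ℕ) (l : 𝓞 K) (hX : (p : 𝓞 K) ∣ X (n + p) - l * X n)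
    (hY : (p : 𝓞 K) ∣ Y (n + p) - l * Y n) :
    (p : 𝓞 K) ∣ aux a X Y (n + p) - l ^ s * aux a X Y n := by
  set I : Ideal (𝓞 K) := Ideal.span {(p : 𝓞 K)} with hI
  have hq : ∀ b c : 𝓞 K, (p : 𝓞 K) ∣ b - c ↔ Ideal.Quotient.mk I b = Ideal.Quotient.mk I c := by
    intro b c
    rw [Ideal.Quotient.eq, hI, Ideal.mem_span_singleton]
  rw [hq] at hX hY ⊢
  rw [map_mul] at hX hY
  have hc : ∀ k : Fin (D + 1), Ideal.Quotient.mk I (((n + p).choose k : ℕ) : 𝓞 K) =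
      Ideal.Quotient.mk I ((n.choose k : ℕ) : 𝓞 K) := fun k => by
    rw [← hq]
    exact choose_per hp (by omega) n
  unfold aux
  rw [map_mul, map_sum, map_sum, Finset.mul_sum]
  refine Finset.sum_congr rfl fun q _ => ?_
  simp only [map_mul, map_pow, hc, hX, hY]
  have hs : s - (q.2 : ℕ) + (q.2 : ℕ) = s := Nat.sub_add_cancel (by omega)
  have hl : Ideal.Quotient.mk I l ^ s =
      Ideal.Quotient.mk I l ^ (s - (q.2 : ℕ)) * Ideal.Quotient.mk I l ^ (q.2 : ℕ) := by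
    rw [← pow_add, hs]
  rw [hl, mul_pow, mul_pow]
  ring

/-- the primes which are used -/
noncomputable def Q (S : Set ℕ) (p₀ D n : ℕ) : Finset ℕ := by
  classical
  exact (Finset.range (n + 1)).filter (fun p => p ∈ S ∧ p₀ ≤ p ∧ D < p)

theorem mem_Q {S : Set ℕ} {p₀ D n p : ℕ} : p ∈ Q S p₀ D n ↔ p ≤ n ∧ p ∈ S ∧ p₀ ≤ p ∧ D < p := by
  classical
  unfold Q
  rw [Finset.mem_filter, Finset.mem_range, Nat.lt_succ_iff]

theorem prod_dvd {T : Finset ℕ} (hT : ∀ p ∈ T, p.Prime) {b : 𝓞 K}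
    (h : ∀ p ∈ T, (p : 𝓞 K) ∣ b) : ((∏ p ∈ T, p : ℕ) : 𝓞 K) ∣ b := by
  rw [Nat.cast_prod]
  refine Finset.prod_dvd_of_coprime ?_ h
  intro p hp q hq hpq
  have h1 : Nat.Coprime p q := (Nat.coprime_primes (hT p hp) (hT q hq)).2 hpq
  have h2 := (Nat.isCoprime_iff_coprime.2 h1).map (Int.castRingHom (𝓞 K))
  simpa using h2

theorem le_house {M : ℕ} {b : 𝓞 K} (hb : b ≠ 0) (h : (M : 𝓞 K) ∣ b) : (M : ℝ) ≤ house (b : K) := by
  obtain ⟨c, rfl⟩ := h
  have hc : c ≠ 0 := right_ne_zero_of_mul hb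
  have h1 : 1 ≤ house (c : K) :=
    one_le_house_of_isIntegral (RingOfIntegers.isIntegral_coe c) (RingOfIntegers.coe_ne_zero_iff.2 hc)
  have e : (((M : 𝓞 K) * c : 𝓞 K) : K) = (M : K) * (c : K) := by
    simp
  rw [e, house_nat_mul]
  have : (0 : ℝ) ≤ M := Nat.cast_nonneg _
  nlinarith

/-- vanishing propagates -/
theorem aux_zero {S : Set ℕ} (hS : ∀ p ∈ S, p.Prime) {p₀ N : ℕ} {x : ℕ → Fin (N + 1) → 𝓞 K}
    (h : Per S p₀ x) (i j : Fin (N + 1)) {D s : ℕ} (a : Fin (D + 1) × Fin (s + 1) → 𝓞 K) (T : ℕ)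
    (h0 : ∀ n < T, aux a (fun n => x n i) (fun n => x n j) n = 0)
    (hb : ∀ n, T ≤ n → house ((aux a (fun n => x n i) (fun n => x n j) n : 𝓞 K) : K) <
      ((∏ p ∈ Q S p₀ D n, p : ℕ) : ℝ)) (n : ℕ) :
    aux a (fun n => x n i) (fun n => x n j) n = 0 := by
  induction n using Nat.strong_induction_on with
  | _ n ih =>
    rcases lt_or_ge n T with hn | hn
    · exact h0 n hn
    · by_contra hne
      have h1 : ((∏ p ∈ Q S p₀ D n, p : ℕ) : 𝓞 K) ∣ aux a (fun n => x n i) (fun n => x n j) n := by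
        refine prod_dvd (fun p hp => hS p (mem_Q.1 hp).2.1) fun p hp => ?_
        obtain ⟨hp1, hp2, hp3, hp4⟩ := mem_Q.1 hp
        have hpp := hS p hp2
        obtain ⟨l, hl⟩ := h.lam hp2 hp3 (n - p)
        have e : n - p + p = n := Nat.sub_add_cancel hp1
        have h2 := aux_per a (fun n => x n i) (fun n => x n j) hpp hp4 (n - p) l (hl i) (hl j)
        rw [e, ih (n - p) (by have := hpp.pos; omega), mul_zero, sub_zero] at h2
        exact h2
      exact absurd (le_house hne h1) (not_le.2 (hb n hn))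

end Pool.Agent.T6.H54.PM
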