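import Mathlib
import Pool.Agent.T6.H54.PM.Step1

set_option autoImplicit false
set_option linter.unusedSectionVars false

/-!
# Sequences of points periodic modulo primes: sizes
-/

namespace Pool.Agent.T6.H54.PM

open NumberField Finset

/-- the weight of the primes of `S` up to `n` -/
noncomputable def wt (S : Set ℕ) (n : ℕ) : ℝ := by
  classical
  exact ∑ p ∈ (Finset.range (n + 1)).filter (fun p => p ∈ S), Real.log p

theorem wt_le {S : Set ℕ} (hS : ∀ p ∈ S, p.Prime) (n : ℕ) : wt S n ≤ Real.log 4 * n := by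
  classical
  refine le_trans ?_ (Chebyshev.theta_le_log4_mul_x (Nat.cast_nonneg n))
  rw [Chebyshev.theta_eq_sum_primesLE_log]
  unfold wt
  refine Finset.sum_le_sum_of_subset_of_nonneg ?_ ?_
  · intro p hp
    rw [Finset.mem_filter, Finset.mem_range] at hp
    rw [Nat.mem_primesLE]
    exact ⟨by omega, hS p hp.2⟩
  · intro p hp _
    rw [Nat.mem_primesLE] at hp
    exact Real.log_nonneg (by exact_mod_cast hp.2.one_lt.le)

/-- lower bound for the product of the primes used -/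
theorem log_Q {S : Set ℕ} (hS : ∀ p ∈ S, p.Prime) (p₀ D n : ℕ) :
    wt S n - Real.log 4 * (p₀ + D) ≤ Real.log ((∏ p ∈ Q S p₀ D n, p : ℕ) : ℝ) := by
  classical
  have h1 : Real.log ((∏ p ∈ Q S p₀ D n, p : ℕ) : ℝ) = ∑ p ∈ Q S p₀ D n, Real.log p := by
    rw [Nat.cast_prod, Real.log_prod]
    intro p hp
    have := (hS p (mem_Q.1 hp).2.1).ne_zero
    exact_mod_cast this
  rw [h1]
  have h2 : wt S n ≤ ∑ p ∈ Q S p₀ D n, Real.log p +
      ∑ p ∈ Nat.primesLE (p₀ + D), Real.log p := by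
    unfold wt
    have hsub : (Finset.range (n + 1)).filter (fun p => p ∈ S) ⊆
        Q S p₀ D n ∪ Nat.primesLE (p₀ + D) := by
      intro p hp
      rw [Finset.mem_filter, Finset.mem_range] at hp
      rw [Finset.mem_union, mem_Q, Nat.mem_primesLE]
      have hpp := hS p hp.2
      by_cases h : p₀ ≤ p ∧ D < p
      · left
        exact ⟨by omega, hp.2, h⟩
      · right
        exact ⟨by omega, hpp⟩
    have hnn : ∀ p : ℕ, 0 ≤ Real.log (p : ℝ) := fun p => Real.log_natCast_nonneg p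
    refine (Finset.sum_le_sum_of_subset_of_nonneg hsub fun p _ _ => hnn p).trans ?_
    have h3 := Finset.sum_union_inter (s₁ := Q S p₀ D n) (s₂ := Nat.primesLE (p₀ + D))
      (f := fun p : ℕ => Real.log (p : ℝ))
    have h4 : 0 ≤ ∑ p ∈ Q S p₀ D n ∩ Nat.primesLE (p₀ + D), Real.log (p : ℝ) :=
      Finset.sum_nonneg fun p _ => hnn p
    linarith
  have h3 : ∑ p ∈ Nat.primesLE (p₀ + D), Real.log (p : ℝ) ≤ Real.log 4 * (p₀ + D) := by
    have := Chebyshev.theta_le_log4_mul_x (x := ((p₀ + D : ℕ) : ℝ)) (Nat.cast_nonneg _)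
    rw [Chebyshev.theta_eq_sum_primesLE_log] at this
    push_cast at this
    exact this
  linarith

/-- `choose n k ≤ exp (L n)` for `k ≤ n / m` -/
theorem choose_le {m n k : ℕ} (hm : 1 ≤ m) (hk : m * k ≤ n) :
    ((n.choose k : ℕ) : ℝ) ≤ Real.exp ((1 + Real.log m) / m * n) := by
  have hm0 : (0 : ℝ) < m := by exact_mod_cast hm
  have hm1 : (1 : ℝ) ≤ m := by exact_mod_cast hm
  -- choose n k * y ^ k ≤ (1 + y) ^ n
  have hkn : k ≤ n := (Nat.le_mul_of_pos_left k hm).trans hk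
  have h1 : ((n.choose k : ℕ) : ℝ) * (1 / m) ^ k ≤ (1 + 1 / m) ^ n := by
    rw [add_comm, add_pow]
    have h2 := Finset.single_le_sum (f := fun i => (1 / (m : ℝ)) ^ i * 1 ^ (n - i) * (n.choose i : ℝ))
      (s := Finset.range (n + 1)) (fun i _ => by positivity)
      (Finset.mem_range.2 (Nat.lt_succ_of_le hkn))
    simp only [one_pow, mul_one] at h2 ⊢
    linarith
  have h2 : (1 + 1 / (m : ℝ)) ^ n ≤ Real.exp (n / m) := by
    have h3 : 1 + 1 / (m : ℝ) ≤ Real.exp (1 / m) := by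
      have := Real.add_one_le_exp (1 / (m : ℝ))
      linarith
    calc (1 + 1 / (m : ℝ)) ^ n ≤ Real.exp (1 / m) ^ n := by gcongr
      _ = Real.exp (n / m) := by
        rw [← Real.exp_nat_mul]
        congr 1
        ring
  have h3 : (m : ℝ) ^ k = Real.exp (k * Real.log m) := by
    rw [mul_comm, Real.exp_mul, Real.exp_log hm0, Real.rpow_natCast]
  have h4 : ((n.choose k : ℕ) : ℝ) ≤ Real.exp (n / m) * (m : ℝ) ^ k := by
    have h5 : ((n.choose k : ℕ) : ℝ) = ((n.choose k : ℕ) : ℝ) * (1 / m) ^ k * (m : ℝ) ^ k := by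
      rw [mul_assoc, ← mul_pow, one_div_mul_cancel hm0.ne', one_pow, mul_one]
    rw [h5]
    have := h1.trans h2
    gcongr
  refine h4.trans ?_
  rw [h3, ← Real.exp_add]
  refine Real.exp_le_exp.2 ?_
  have h6 : (k : ℝ) ≤ n / m := by
    rw [le_div_iff₀ hm0]
    calc (k : ℝ) * m = ((m * k : ℕ) : ℝ) := by push_cast; ring
      _ ≤ n := by exact_mod_cast hk
  have h7 : 0 ≤ Real.log m := Real.log_nonneg hm1
  calc (n : ℝ) / m + k * Real.log m ≤ n / m + n / m * Real.log m := by gcongr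
    _ = (1 + Real.log m) / m * n := by ring

/-- elementary: `(1 + log m) / m ≤ 2 / √m` -/
theorem log_div_le {m : ℝ} (hm : 1 ≤ m) : (1 + Real.log m) / m ≤ 2 / Real.sqrt m := by
  have hm0 : 0 < m := by linarith
  have hs : 0 < Real.sqrt m := Real.sqrt_pos.2 hm0
  have h1 : Real.log m = 2 * Real.log (Real.sqrt m) := by
    conv_lhs => rw [← Real.sq_sqrt hm0.le]
    rw [Real.log_pow]
    norm_num
  have h2 := Real.log_le_sub_one_of_pos hs
  rw [div_le_div_iff₀ hm0 hs]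
  have h3 : 1 + Real.log m ≤ 2 * Real.sqrt m := by rw [h1]; linarith
  calc (1 + Real.log m) * Real.sqrt m ≤ 2 * Real.sqrt m * Real.sqrt m := by gcongr
    _ = 2 * m := by rw [mul_assoc, Real.mul_self_sqrt hm0.le]

/-- the numerical inequality -/
theorem num {δ : ℝ} (hδ : 0 < δ) (hδ1 : δ ≤ Real.log 4) : ∃ m : ℕ, 1 ≤ m ∧
    2 * ((1 + Real.log m) / m) + 4 * m * (δ / 16) ^ 3 + Real.log 4 / m ≤ 3 / 4 * δ := by
  have hl4 : Real.log 4 < 1.3864 := by
    have : Real.log 4 = 2 * Real.log 2 := by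
      rw [show (4 : ℝ) = 2 ^ 2 by norm_num, Real.log_pow]
      norm_num
    have h2 := Real.log_two_lt_d9
    linarith
  have hδ2 : δ < 1.3864 := by linarith
  set m : ℕ := ⌈256 / δ ^ 2⌉₊ with hm
  have hδq : 0 < δ ^ 2 := by positivity
  have h1 : (256 : ℝ) / δ ^ 2 ≤ m := Nat.le_ceil _
  have h2 : (m : ℝ) < 256 / δ ^ 2 + 1 := Nat.ceil_lt_add_one (by positivity)
  have h0 : (0 : ℝ) < 256 / δ ^ 2 := by positivity
  have hm0 : (0 : ℝ) < m := by linarith
  have hm1 : 1 ≤ m := by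
    have : 0 < m := by exact_mod_cast hm0
    omega
  refine ⟨m, hm1, ?_⟩
  have hs : 16 / δ ≤ Real.sqrt m := by
    refine Real.le_sqrt_of_sq_le ?_
    rw [div_pow]
    norm_num
    exact h1
  have hs0 : 0 < 16 / δ := by positivity
  have h3 : (1 + Real.log m) / m ≤ δ / 8 := by
    refine (log_div_le (by exact_mod_cast hm1)).trans ?_
    calc 2 / Real.sqrt m ≤ 2 / (16 / δ) := by gcongr
      _ = δ / 8 := by field_simp; norm_num
  have h4 : 4 * m * (δ / 16) ^ 3 ≤ 0.27 * δ := by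
    calc 4 * (m : ℝ) * (δ / 16) ^ 3 ≤ 4 * (256 / δ ^ 2 + 1) * (δ / 16) ^ 3 := by gcongr
      _ = δ / 4 + δ * δ ^ 2 / 1024 := by field_simp; ring
      _ ≤ 0.27 * δ := by
        have h5 : δ ^ 2 ≤ 1.3864 ^ 2 := by gcongr
        nlinarith
  have h5 : Real.log 4 / m ≤ 0.01 * δ := by
    rw [div_le_iff₀ hm0]
    have h6 : 256 ≤ m * δ ^ 2 := by
      rw [div_le_iff₀ hδq] at h1
      exact h1
    have h7 : 0.01 * δ * m * 1.3864 ≥ 0.01 * (m * δ ^ 2) := by nlinarith
    nlinarith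
  linarith

end Pool.Agent.T6.H54.PM
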