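import Mathlib
import Pool.Agent.T6.H54.PM.Size

set_option autoImplicit false
set_option linter.unusedSectionVars false

/-!
# Sequences of points periodic modulo primes: every two coordinates are algebraically dependent
over `ℚ(n)`
-/

namespace Pool.Agent.T6.H54.PM

open NumberField Finset

variable {K : Type} [Field K] [NumberField K]

theorem house_term {X Y : 𝓞 K} {M : ℝ} (hX : house (X : K) ≤ M) (hY : house (Y : K) ≤ M)
    (c : ℕ) {s e : ℕ} (he : e ≤ s) :
    house (((c : 𝓞 K) * (X ^ (s - e) * Y ^ e) : 𝓞 K) : K) ≤ c * M ^ s := by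
  have e1 : (((c : 𝓞 K) * (X ^ (s - e) * Y ^ e) : 𝓞 K) : K) =
      (c : K) * ((X : K) ^ (s - e) * (Y : K) ^ e) := by
    simp
  have hM : 0 ≤ M := (house_nonneg _).trans hX
  rw [e1, house_nat_mul]
  refine mul_le_mul_of_nonneg_left ?_ (Nat.cast_nonneg _)
  refine (house_mul_le _ _).trans ?_
  have h1 : house ((X : K) ^ (s - e)) ≤ M ^ (s - e) :=
    (house_pow_le _ _).trans (pow_le_pow_left₀ (house_nonneg _) hX _)
  have h2 : house ((Y : K) ^ e) ≤ M ^ e :=
    (house_pow_le _ _).trans (pow_le_pow_left₀ (house_nonneg _) hY _)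
  calc house ((X : K) ^ (s - e)) * house ((Y : K) ^ e) ≤ M ^ (s - e) * M ^ e :=
        mul_le_mul h1 h2 (house_nonneg _) (pow_nonneg hM _)
    _ = M ^ s := by rw [← pow_add, Nat.sub_add_cancel he]

theorem alg {S : Set ℕ} (hS : ∀ p ∈ S, p.Prime) {δ : ℝ} (hδ : 0 < δ) {n₀ : ℕ}
    (hwt : ∀ n : ℕ, n₀ ≤ n → δ * n ≤ wt S n) {p₀ N : ℕ} {x : ℕ → Fin (N + 1) → 𝓞 K}
    (h : Per S p₀ x) {C₀ : ℝ} (hC₀ : 1 ≤ C₀)
    (hx : ∀ n i, house (x n i : K) ≤ C₀ * Real.exp ((δ / 16) ^ 3 * n)) (i j : Fin (N + 1)) :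
    ∃ (D s : ℕ) (a : Fin (D + 1) × Fin (s + 1) → 𝓞 K), a ≠ 0 ∧
      ∀ n, aux a (fun n => x n i) (fun n => x n j) n = 0 := by
  classical
  have hδ1 : δ ≤ Real.log 4 := by
    have h1 := hwt (n₀ + 1) (by omega)
    have h2 := wt_le hS (n₀ + 1)
    have h3 : (0 : ℝ) < ((n₀ + 1 : ℕ) : ℝ) := by exact_mod_cast Nat.succ_pos n₀
    exact le_of_mul_le_mul_right (h1.trans h2) h3
  obtain ⟨m, hm, hnum⟩ := num hδ hδ1
  obtain ⟨C₁, hC₁, hsieg⟩ := Pool.Agent.H297R2.siegel K
  have hm0 : (0 : ℝ) < m := by exact_mod_cast hm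
  obtain ⟨s, hs⟩ : ∃ s : ℕ, s + 1 = 2 * m := ⟨2 * m - 1, by omega⟩
  set c : ℝ := (δ / 16) ^ 3 with hc
  have hc0 : 0 ≤ c := by positivity
  set L : ℝ := (1 + Real.log m) / m with hL
  have hL0 : 0 ≤ L := by
    have : 0 ≤ Real.log m := Real.log_nonneg (by exact_mod_cast hm)
    positivity
  have hl4 : 0 ≤ Real.log 4 := Real.log_nonneg (by norm_num)
  set B : ℝ := Real.log 4 + 2 * Real.log C₁ + 2 * s * Real.log C₀ + Real.log 4 * p₀ +
    2 * Real.log (16 / δ) with hB
  obtain ⟨D, hD⟩ := exists_nat_gt (8 * B / δ)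
  set D' : ℕ := D + n₀ with hD'
  set T : ℕ := m * (D' + 1) with hT
  have hTD : D' + 1 ≤ T := Nat.le_mul_of_pos_left _ hm
  have hT0 : 0 < T := by omega
  set M : ℕ → ℝ := fun n => C₀ * Real.exp (c * n) with hM
  have hMpos : ∀ n, 0 < M n := fun n => by positivity
  have hM1 : ∀ n, 1 ≤ M n := fun n => by
    have : 1 ≤ Real.exp (c * n) := Real.one_le_exp (by positivity)
    simp only [hM]
    nlinarith
  have hMmono : ∀ k n : ℕ, k ≤ n → M k ≤ M n := fun k n hkn => by
    simp only [hM]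
    have : (k : ℝ) ≤ n := by exact_mod_cast hkn
    gcongr
  set A : ℝ := Real.exp (L * T) * M T ^ s with hA
  have hA1 : 1 ≤ A := by
    have h1 : 1 ≤ Real.exp (L * T) := Real.one_le_exp (by positivity)
    have h2 : 1 ≤ M T ^ s := one_le_pow₀ (hM1 T)
    calc (1 : ℝ) = 1 * 1 := by ring
      _ ≤ Real.exp (L * T) * M T ^ s := mul_le_mul h1 h2 zero_le_one (by positivity)
  -- the matrix
  set mat : Matrix (Fin T) (Fin (D' + 1) × Fin (s + 1)) (𝓞 K) := fun k q =>
    (((k : ℕ).choose q.1 : ℕ) : 𝓞 K) * (x k i ^ (s - (q.2 : ℕ)) * x k j ^ (q.2 : ℕ)) with hmat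
  have hentry : ∀ k q, house (mat k q : K) ≤ A := by
    intro k q
    have hkT : (k : ℕ) ≤ T := k.2.le
    refine (house_term ((hx k i).trans (hMmono k T hkT)) ((hx k j).trans (hMmono k T hkT)) _
      (by omega : (q.2 : ℕ) ≤ s)).trans ?_
    rw [hA]
    have h1 : ((((k : ℕ).choose q.1 : ℕ)) : ℝ) ≤ ((T.choose q.1 : ℕ) : ℝ) := by
      exact_mod_cast Nat.choose_le_choose _ hkT
    have h2 : ((T.choose q.1 : ℕ) : ℝ) ≤ Real.exp (L * T) :=
      choose_le hm (Nat.mul_le_mul_left m (by omega : (q.1 : ℕ) ≤ D' + 1))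
    exact mul_le_mul_of_nonneg_right (h1.trans h2) (pow_nonneg (hMpos T).le _)
  have hcard : Fintype.card (Fin (D' + 1) × Fin (s + 1)) = 2 * T := by
    rw [Fintype.card_prod, Fintype.card_fin, Fintype.card_fin, hs, hT]
    ring
  obtain ⟨a, ha0, hmul, hsize⟩ : ∃ a : Fin (D' + 1) × Fin (s + 1) → 𝓞 K, a ≠ 0 ∧
      mat.mulVec a = 0 ∧ ∀ q, house (a q : K) ≤ C₁ * (C₁ * (2 * T) * A) := by
    by_cases hz : mat = 0
    · refine ⟨fun _ => 1, ?_, by rw [hz, Matrix.zero_mulVec], fun q => ?_⟩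
      · intro h0
        exact one_ne_zero (congrFun h0 (0, 0))
      · have h1 : house (((1 : 𝓞 K)) : K) = 1 := by
          have := house_intCast (K := K) 1
          simpa using this
        rw [h1]
        have hT1 : (1 : ℝ) ≤ T := by exact_mod_cast hT0
        have h2 : 1 ≤ C₁ * (2 * T) := by nlinarith
        have h3 : 1 ≤ C₁ * (2 * T) * A := by nlinarith
        nlinarith
    · obtain ⟨ξ, h1, h2, h3⟩ := hsieg _ _ mat hz (by rw [Fintype.card_fin]; exact hT0)
        (by rw [Fintype.card_fin, hcard]) A hA1 hentry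
      refine ⟨ξ, h1, h2, fun q => ?_⟩
      have := h3 q
      rw [hcard] at this
      push_cast at this
      exact this
  refine ⟨D', s, a, ha0, ?_⟩
  refine aux_zero hS h i j a T ?_ ?_
  · intro n hn
    have := congrFun hmul ⟨n, hn⟩
    simpa [Matrix.mulVec, dotProduct, hmat, aux] using this
  · intro n hn
    have hn0 : 0 < n := by omega
    have hn0' : (0 : ℝ) < n := by exact_mod_cast hn0
    -- the upper bound
    have hup : house ((aux a (fun n => x n i) (fun n => x n j) n : 𝓞 K) : K) ≤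
        (2 * n) * ((Real.exp (L * n) * M n ^ s) *
          (C₁ * (C₁ * (2 * n) * (Real.exp (L * n) * M n ^ s)))) := by
      unfold aux
      have e1 : ((∑ q : Fin (D' + 1) × Fin (s + 1), (((n.choose q.1 : ℕ) : 𝓞 K) *
          (x n i ^ (s - (q.2 : ℕ)) * x n j ^ (q.2 : ℕ)) * a q : 𝓞 K) : 𝓞 K) : K) =
          ∑ q : Fin (D' + 1) × Fin (s + 1), (((((n.choose q.1 : ℕ) : 𝓞 K) *
          (x n i ^ (s - (q.2 : ℕ)) * x n j ^ (q.2 : ℕ)) : 𝓞 K) : K) * (a q : K)) := by
        refine (map_sum (algebraMap (𝓞 K) K) _ _).trans (Finset.sum_congr rfl fun q _ => ?_)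
        exact map_mul (algebraMap (𝓞 K) K) _ _
      rw [e1]
      refine (house_sum_le_sum_house _ _).trans ?_
      have hTn : (T : ℝ) ≤ n := by exact_mod_cast hn
      have hterm : ∀ q : Fin (D' + 1) × Fin (s + 1),
          house (((((n.choose q.1 : ℕ) : 𝓞 K) *
          (x n i ^ (s - (q.2 : ℕ)) * x n j ^ (q.2 : ℕ)) : 𝓞 K) : K) * (a q : K)) ≤
          (Real.exp (L * n) * M n ^ s) *
          (C₁ * (C₁ * (2 * n) * (Real.exp (L * n) * M n ^ s))) := by
        intro q
        refine (house_mul_le _ _).trans ?_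
        refine mul_le_mul ?_ ?_ (house_nonneg _) (by positivity)
        · refine (house_term (hx n i) (hx n j) _ (by omega : (q.2 : ℕ) ≤ s)).trans ?_
          refine mul_le_mul_of_nonneg_right ?_ (pow_nonneg (hMpos n).le _)
          exact choose_le hm ((Nat.mul_le_mul_left m (by omega : (q.1 : ℕ) ≤ D' + 1)).trans hn)
        · refine (hsize q).trans ?_
          rw [hA]
          have h1 : Real.exp (L * T) ≤ Real.exp (L * n) := by gcongr
          have h2 : M T ^ s ≤ M n ^ s := pow_le_pow_left₀ (hMpos T).le (hMmono T n hn) _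
          have h3 : Real.exp (L * T) * M T ^ s ≤ Real.exp (L * n) * M n ^ s :=
            mul_le_mul h1 h2 (pow_nonneg (hMpos T).le _) (Real.exp_pos _).le
          gcongr
      refine (Finset.sum_le_sum fun q _ => hterm q).trans ?_
      rw [Finset.sum_const, Finset.card_univ, hcard, nsmul_eq_mul]
      push_cast
      have : 0 ≤ (Real.exp (L * n) * M n ^ s) *
          (C₁ * (C₁ * (2 * n) * (Real.exp (L * n) * M n ^ s))) := by
        have := hMpos n
        positivity
      gcongr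
    refine lt_of_le_of_lt hup ?_
    -- the lower bound
    have hprod : (0 : ℝ) < ((∏ p ∈ Q S p₀ D' n, p : ℕ) : ℝ) := by
      have : 0 < ∏ p ∈ Q S p₀ D' n, p :=
        Finset.prod_pos fun p hp => (hS p (mem_Q.1 hp).2.1).pos
      exact_mod_cast this
    have hpos : 0 < (2 * n) * ((Real.exp (L * n) * M n ^ s) *
          (C₁ * (C₁ * (2 * n) * (Real.exp (L * n) * M n ^ s)))) := by
      have := hMpos n
      positivity
    rw [← Real.log_lt_log_iff hpos hprod]
    refine lt_of_lt_of_le ?_ (log_Q hS p₀ D' n)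
    have hw := hwt n (by omega)
    have hMn := hMpos n
    have hlogM : Real.log (M n) = Real.log C₀ + c * n := by
      simp only [hM]
      rw [Real.log_mul (by positivity) (Real.exp_pos _).ne', Real.log_exp]
    have hE : Real.log (Real.exp (L * n) * M n ^ s) = L * n + s * (Real.log C₀ + c * n) := by
      rw [Real.log_mul (Real.exp_pos _).ne' (pow_pos hMn _).ne', Real.log_exp, Real.log_pow, hlogM]
    have hEpos : 0 < Real.exp (L * n) * M n ^ s := by positivity
    have hlog : Real.log ((2 * n) * ((Real.exp (L * n) * M n ^ s) *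
          (C₁ * (C₁ * (2 * n) * (Real.exp (L * n) * M n ^ s))))) =
        Real.log 4 + 2 * Real.log n + 2 * Real.log C₁ +
          2 * (L * n + s * (Real.log C₀ + c * n)) := by
      rw [show (2 * (n : ℝ)) * ((Real.exp (L * n) * M n ^ s) *
          (C₁ * (C₁ * (2 * n) * (Real.exp (L * n) * M n ^ s)))) =
          4 * (n : ℝ) ^ 2 * C₁ ^ 2 * (Real.exp (L * n) * M n ^ s) ^ 2 by ring]
      rw [Real.log_mul (by positivity) (by positivity), Real.log_mul (by positivity) (by positivity),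
        Real.log_mul (by norm_num) (by positivity), Real.log_pow, Real.log_pow, Real.log_pow, hE]
      push_cast
      ring
    rw [hlog]
    -- log n
    have hlogn : Real.log n ≤ δ / 16 * n + Real.log (16 / δ) := by
      have h1 := Real.log_le_sub_one_of_pos (show (0 : ℝ) < δ / 16 * n by positivity)
      rw [Real.log_mul (by positivity) (by positivity)] at h1
      have h2 : Real.log (16 / δ) = - Real.log (δ / 16) := by
        rw [← Real.log_inv]
        congr 1
        field_simp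
      linarith
    have hnB : 8 * B / δ < n := by
      refine hD.trans_le ?_
      have : D ≤ n := by omega
      exact_mod_cast this
    have hnB' : B < δ / 8 * n := by
      rw [div_lt_iff₀ hδ] at hnB
      linarith
    -- D' ≤ n / m
    have hDn : (D' : ℝ) ≤ n / m := by
      rw [le_div_iff₀ hm0]
      have : m * D' ≤ n := (Nat.mul_le_mul_left m (by omega : D' ≤ D' + 1)).trans hn
      calc (D' : ℝ) * m = ((m * D' : ℕ) : ℝ) := by push_cast; ring
        _ ≤ n := by exact_mod_cast this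
    have hDn' : Real.log 4 * (D' : ℝ) ≤ Real.log 4 / m * n := by
      calc Real.log 4 * (D' : ℝ) ≤ Real.log 4 * (n / m) := by gcongr
        _ = Real.log 4 / m * n := by ring
    have hsm : (s : ℝ) ≤ 2 * m := by
      have : s ≤ 2 * m := by omega
      exact_mod_cast this
    have hsc : 2 * ((s : ℝ) * (c * n)) ≤ 4 * m * c * n := by
      have : (s : ℝ) * (c * n) ≤ 2 * m * (c * n) := by gcongr
      linarith
    have hnum' : (2 * L + 4 * m * c + Real.log 4 / m) * n ≤ 3 / 4 * δ * n := by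
      gcongr
    rw [hB] at hnB'
    have e1 : 2 * (L * n + s * (Real.log C₀ + c * n)) =
        2 * L * n + 2 * s * Real.log C₀ + 2 * ((s : ℝ) * (c * n)) := by ring
    have e2 : (2 * L + 4 * m * c + Real.log 4 / m) * n =
        2 * L * n + 4 * m * c * n + Real.log 4 / m * n := by ring
    rw [e2] at hnum'
    rw [e1, mul_add]
    generalize 2 * L * (n : ℝ) = y1 at *
    generalize 4 * (m : ℝ) * c * n = y2 at *
    generalize Real.log 4 / m * (n : ℝ) = y3 at *
    generalize 2 * ((s : ℝ) * (c * n)) = y4 at *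
    generalize 2 * (s : ℝ) * Real.log C₀ = y5 at *
    have e3 : 3 / 4 * δ * (n : ℝ) = 3 / 4 * (δ * n) := by ring
    have e4 : δ / 16 * (n : ℝ) = 1 / 16 * (δ * n) := by ring
    have e5 : δ / 8 * (n : ℝ) = 1 / 8 * (δ * n) := by ring
    rw [e3] at hnum'
    rw [e4] at hlogn
    rw [e5] at hnB'
    clear_value B c L M A mat
    clear hsieg hx hentry hup hpos hprod hMpos hM1 hMmono hE hlog hEpos hlogM e1 e2
    linarith

end Pool.Agent.T6.H54.PM
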