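import Mathlib
import Pool.Agent.T6.H54.PM.Alg
import Pool.Agent.TH716.RK.HpNf

set_option autoImplicit false
set_option linter.unusedSectionVars false

/-!
# Sequences of points periodic modulo primes: finitely many polynomial families
-/

namespace Pool.Agent.T6.H54.PM

open Polynomial Finset

/-- monic part without roots, and a finite set of roots -/
theorem split {K : Type} [Field K] (B : K[X][X]) (hB : B ≠ 0) :
    ∃ (q : K[X][X]) (G : Finset K[X]) (b : K[X]), q.Monic ∧ (∀ g : K[X], q.eval g ≠ 0) ∧ b ≠ 0 ∧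
      ∀ t y : K, b.eval t ≠ 0 → B.evalEval t y = 0 →
        q.evalEval t (b.eval t * y) = 0 ∨ ∃ g ∈ G, b.eval t * y = g.eval t := by
  classical
  obtain ⟨q, h1, h2, h3⟩ := exists_prod_multiset_X_sub_C_mul B.integralNormalization
  have hm : B.integralNormalization.Monic := monic_integralNormalization hB
  have hpm : ((B.integralNormalization.roots.map fun a => X - C a).prod).Monic :=
    monic_multiset_prod_of_monic _ _ fun a _ => monic_X_sub_C a
  have hq : q.Monic := by
    have h4 : (((B.integralNormalization.roots.map fun a => X - C a).prod) * q).Monic := by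
      rw [h1]
      exact hm
    exact hpm.of_mul_monic_left h4
  refine ⟨q, B.integralNormalization.roots.toFinset, B.leadingCoeff, hq, ?_,
    leadingCoeff_ne_zero.2 hB, ?_⟩
  · intro g hg
    have : g ∈ q.roots := (mem_roots hq.ne_zero).2 hg
    rw [h3] at this
    simp at this
  · intro t y hb hy
    have h5 := scaleRoots_eval₂_mul (p := B) (evalRingHom t) y B.leadingCoeff
    have h6 : eval₂ (evalRingHom t) y B = 0 := by
      rw [eval₂_evalRingHom]
      exact hy
    rw [h6, mul_zero, ← integralNormalization_mul_C_leadingCoeff, eval₂_mul, eval₂_C,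
      coe_evalRingHom] at h5
    have h7 := (mul_eq_zero.1 h5).resolve_right hb
    rw [← h1, eval₂_mul] at h7
    rcases mul_eq_zero.1 h7 with h8 | h8
    · right
      rw [eval₂_multiset_prod] at h8
      rw [Multiset.prod_eq_zero_iff, Multiset.mem_map] at h8
      obtain ⟨r, hr, hr0⟩ := h8
      rw [Multiset.mem_map] at hr
      obtain ⟨g, hg, rfl⟩ := hr
      refine ⟨g, Multiset.mem_toFinset.2 hg, ?_⟩
      rw [eval₂_sub, eval₂_X, eval₂_C, coe_evalRingHom] at hr0
      exact sub_eq_zero.1 hr0
    · left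
      rw [eval₂_evalRingHom] at h8
      exact h8

/-- Hilbert irreducibility along progressions -/
theorem hit_prog (K : Type) [Field K] [NumberField K] (R : K[X][X]) (hR : R.Monic)
    (hroot : ∀ g : K[X], R.eval g ≠ 0) (a b : ℕ) (hb : 0 < b) (M : ℕ) :
    ∃ n : ℕ, M ≤ n ∧ n ≡ a [MOD b] ∧ ∀ z : K, R.evalEval (n : K) z ≠ 0 := by
  have hbK : (b : K) ≠ 0 := by exact_mod_cast hb.ne'
  set e : K[X] →+* K[X] := compRingHom (C (a : K) + C (b : K) * X) with he
  set e' : K[X] →+* K[X] := compRingHom (C ((b : K)⁻¹) * (X - C (a : K))) with he'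
  have hee : ∀ g, e (e' g) = g := by
    intro g
    simp only [he, he', coe_compRingHom_apply, comp_assoc]
    have : (C ((b : K)⁻¹) * (X - C (a : K))).comp (C (a : K) + C (b : K) * X) = X := by
      simp only [mul_comp, sub_comp, C_comp, X_comp]
      rw [add_sub_cancel_left, ← mul_assoc, ← C_mul, inv_mul_cancel₀ hbK, C_1, one_mul]
    rw [this, comp_X]
  have hinj : Function.Injective e := by
    have : ∀ g, e' (e g) = g := by
      intro g
      simp only [he, he', coe_compRingHom_apply, comp_assoc]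
      have : (C (a : K) + C (b : K) * X).comp (C ((b : K)⁻¹) * (X - C (a : K))) = X := by
        simp only [mul_comp, add_comp, C_comp, X_comp]
        rw [← mul_assoc, ← C_mul, mul_inv_cancel₀ hbK, C_1, one_mul, add_sub_cancel]
      rw [this, comp_X]
    exact Function.LeftInverse.injective this
  have h1 : ∀ g : K[X], (R.map e).eval g ≠ 0 := by
    intro g hg
    have h2 : (R.map e).eval (e (e' g)) = 0 := by rw [hee]; exact hg
    rw [eval_map_apply] at h2
    exact hroot _ (hinj (h2.trans (map_zero e).symm))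
  obtain ⟨t, ht, hz⟩ := Pool.Agent.TH716.RK.hp_nf K (R.map e) (hR.map e) h1 (M : ℤ)
  have ht0 : 0 ≤ t := by omega
  obtain ⟨u, rfl⟩ := Int.eq_ofNat_of_zero_le ht0
  have hu : M < u := by exact_mod_cast ht
  refine ⟨a + b * u, ?_, ?_, ?_⟩
  · have : u ≤ b * u := Nat.le_mul_of_pos_left u hb
    omega
  · simp [Nat.ModEq]
  · intro z hzz
    refine hz z ?_
    rw [evalEval] at hzz ⊢
    have e1 : (C z : K[X]) = e (C z) := by simp [he]
    rw [e1, eval_map_apply, ← hzz]
    simp only [he, coe_compRingHom_apply, eval_comp]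
    congr 1
    simp

theorem eventually_ne {K : Type} [Field K] [CharZero K] (b : K[X]) (hb : b ≠ 0) :
    ∃ M : ℕ, ∀ n : ℕ, M ≤ n → b.eval (n : K) ≠ 0 := by
  classical
  have hfin : {n : ℕ | b.eval (n : K) = 0}.Finite := by
    have h1 : ((fun n : ℕ => (n : K)) ⁻¹' {z : K | b.eval z = 0}).Finite := by
      refine Set.Finite.preimage (Nat.cast_injective.injOn) ?_
      have : {z : K | b.eval z = 0} = ↑b.roots.toFinset := by
        ext z
        simp [hb]
      rw [this]
      exact Finset.finite_toSet _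
    exact h1
  obtain ⟨M, hM⟩ := hfin.bddAbove
  refine ⟨M + 1, fun n hn h0 => ?_⟩
  have := hM h0
  omega

/-- finitely many families of polynomials contain points of every progression -/
theorem fam {K : Type} [Field K] [NumberField K] {N : ℕ} (x : ℕ → Fin (N + 1) → K)
    (hx : ∀ n, x n ≠ 0) (B : Fin (N + 1) → Fin (N + 1) → K[X][X]) (hB : ∀ i j, B i j ≠ 0)
    (h : ∀ n i j, x n i ≠ 0 → (B i j).evalEval (n : K) (x n j / x n i) = 0) :
    ∃ 𝓕 : Set (Fin (N + 1) → K[X]), 𝓕.Finite ∧ ∀ a b : ℕ, 0 < b → ∀ M : ℕ,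
      ∃ n, M ≤ n ∧ n ≡ a [MOD b] ∧ ∃ f ∈ 𝓕, ∃ c : K, c ≠ 0 ∧ ∀ j, (f j).eval (n : K) = c * x n j := by
  classical
  choose q G b hq hroot hb hsplit using fun i j => split (B i j) (hB i j)
  set R : K[X][X] := ∏ i, ∏ j, q i j with hR
  have hRm : R.Monic := monic_prod_of_monic _ _ fun i _ => monic_prod_of_monic _ _ fun j _ => hq i j
  have hRr : ∀ g : K[X], R.eval g ≠ 0 := by
    intro g
    rw [hR, eval_prod, Finset.prod_ne_zero_iff]
    intro i _
    rw [eval_prod, Finset.prod_ne_zero_iff]
    exact fun j _ => hroot i j g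
  obtain ⟨M', hM'⟩ := eventually_ne (∏ i, ∏ j, b i j)
    (Finset.prod_ne_zero_iff.2 fun i _ => Finset.prod_ne_zero_iff.2 fun j _ => hb i j)
  have hbn : ∀ n : ℕ, M' ≤ n → ∀ i j, (b i j).eval (n : K) ≠ 0 := by
    intro n hn i j
    have h1 := hM' n hn
    rw [eval_prod, Finset.prod_ne_zero_iff] at h1
    have h2 := h1 i (Finset.mem_univ _)
    rw [eval_prod, Finset.prod_ne_zero_iff] at h2
    exact h2 j (Finset.mem_univ _)
  refine ⟨⋃ i, (fun g : Fin (N + 1) → K[X] => fun j => g j * ∏ k ∈ Finset.univ.erase j, b i k) ''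
    (Set.pi Set.univ fun j => (G i j : Set K[X])), ?_, ?_⟩
  · refine Set.finite_iUnion fun i => Set.Finite.image _ ?_
    exact Set.Finite.pi fun j => (G i j).finite_toSet
  · intro a b' hb' M
    obtain ⟨n, hn, hna, hz⟩ := hit_prog K R hRm hRr a b' hb' (M + M')
    refine ⟨n, by omega, hna, ?_⟩
    have hz' : ∀ i j (z : K), (q i j).evalEval (n : K) z ≠ 0 := by
      intro i j z h0
      refine hz z ?_
      rw [hR, evalEval_prod]
      refine Finset.prod_eq_zero (Finset.mem_univ i) ?_
      rw [evalEval_prod]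
      exact Finset.prod_eq_zero (Finset.mem_univ j) h0
    obtain ⟨i, hi⟩ := Function.ne_iff.1 (hx n)
    have hi' : x n i ≠ 0 := hi
    have hg : ∀ j, ∃ g ∈ G i j, (b i j).eval (n : K) * (x n j / x n i) = g.eval (n : K) := by
      intro j
      exact (hsplit i j n (x n j / x n i) (hbn n (by omega) i j) (h n i j hi')).resolve_left
        (hz' i j _)
    choose g hg1 hg2 using hg
    refine ⟨_, Set.mem_iUnion.2 ⟨i, g, ?_, rfl⟩, (∏ k, (b i k).eval (n : K)) / x n i, ?_, ?_⟩
    · intro j _
      exact hg1 j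
    · refine div_ne_zero (Finset.prod_ne_zero_iff.2 fun k _ => hbn n (by omega) i k) hi'
    · intro j
      simp only [eval_mul, eval_prod]
      rw [← hg2 j, ← Finset.mul_prod_erase Finset.univ (fun k => (b i k).eval (n : K))
        (Finset.mem_univ j)]
      field_simp

end Pool.Agent.T6.H54.PM
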