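import Mathlib
import Pool.Agent.T6.H54.PM.Fam

set_option autoImplicit false
set_option linter.unusedSectionVars false

/-!
# Sequences of points periodic modulo primes: one polynomial family
-/

namespace Pool.Agent.T6.H54.PM

open NumberField Polynomial Finset

variable {K : Type} [Field K] [NumberField K]

theorem Per.lam' {S : Set ℕ} {p₀ N : ℕ} {x : ℕ → Fin (N + 1) → 𝓞 K} (h : Per S p₀ x) {p : ℕ}
    (hp : p ∈ S) (hp0 : p₀ ≤ p) (n : ℕ) : ∃ l : 𝓞 K, ∀ i, (p : 𝓞 K) ∣ x n i - l * x (n + p) i := by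
  obtain ⟨u, hu⟩ := h.uni p hp hp0 (n + p)
  refine ⟨∑ j, u j * x n j, fun i => ?_⟩
  have e : x n i - (∑ j, u j * x n j) * x (n + p) i =
      -(x n i * (∑ j, u j * x (n + p) j - 1)) +
        ∑ j, u j * (x n i * x (n + p) j - x n j * x (n + p) i) := by
    simp only [mul_sub, Finset.sum_sub_distrib, Finset.mul_sum, Finset.sum_mul]
    have e1 : ∑ j, x n i * (u j * x (n + p) j) = ∑ j, u j * (x n i * x (n + p) j) :=
      Finset.sum_congr rfl fun j _ => by ring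
    have e2 : ∑ j, u j * x n j * x (n + p) i = ∑ j, u j * (x n j * x (n + p) i) :=
      Finset.sum_congr rfl fun j _ => by ring
    rw [e1, e2]
    ring
  rw [e]
  refine dvd_add ?_ (Finset.dvd_sum fun j _ => Dvd.dvd.mul_left ?_ _)
  · exact (Dvd.dvd.mul_left hu _).neg_right
  · have := h.per p hp hp0 n j i
    have e3 : x n i * x (n + p) j - x n j * x (n + p) i =
        x (n + p) j * x n i - x (n + p) i * x n j := by ring
    rw [e3]
    exact this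

theorem Per.chain {S : Set ℕ} {p₀ N : ℕ} {x : ℕ → Fin (N + 1) → 𝓞 K} (h : Per S p₀ x) {p : ℕ}
    (hp : p ∈ S) (hp0 : p₀ ≤ p) (n k : ℕ) :
    ∃ l : 𝓞 K, ∀ i, (p : 𝓞 K) ∣ x n i - l * x (n + k * p) i := by
  induction k with
  | zero => exact ⟨1, fun i => by simp⟩
  | succ k ih =>
    obtain ⟨l, hl⟩ := ih
    obtain ⟨l', hl'⟩ := h.lam' hp hp0 (n + k * p)
    refine ⟨l * l', fun i => ?_⟩
    have e : n + (k + 1) * p = n + k * p + p := by ring
    rw [e]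
    have e2 : x n i - l * l' * x (n + k * p + p) i = (x n i - l * x (n + k * p) i) +
        l * (x (n + k * p) i - l' * x (n + k * p + p) i) := by ring
    rw [e2]
    exact dvd_add (hl i) (Dvd.dvd.mul_left (hl' i) _)

/-- a prime not dividing a non vanishing minor separates -/
theorem sep {S : Set ℕ} {p₀ N : ℕ} {x : ℕ → Fin (N + 1) → 𝓞 K} (h : Per S p₀ x) {p : ℕ}
    (hp : p ∈ S) (hp0 : p₀ ≤ p) (f : Fin (N + 1) → (𝓞 K)[X]) {m n : ℕ} (hmn : m ≤ n)
    (hcong : n ≡ m [MOD p]) {i j : Fin (N + 1)}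
    (hμ : ¬ (p : 𝓞 K) ∣ x m i * (f j).eval (m : 𝓞 K) - x m j * (f i).eval (m : 𝓞 K)) :
    ∃ i j, x n i * (f j).eval (n : 𝓞 K) ≠ x n j * (f i).eval (n : 𝓞 K) := by
  by_contra hcon
  push Not at hcon
  apply hμ
  obtain ⟨k, hk⟩ := (Nat.modEq_iff_dvd' hmn).1 hcong.symm
  have hn : n = m + k * p := by
    have : n = m + (n - m) := by omega
    rw [this, hk]
    ring
  obtain ⟨l, hl⟩ := h.chain hp hp0 m k
  rw [← hn] at hl
  have hf : ∀ i, (p : 𝓞 K) ∣ (f i).eval (m : 𝓞 K) - (f i).eval (n : 𝓞 K) := by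
    intro i
    have h1 := sub_dvd_eval_sub (m : 𝓞 K) (n : 𝓞 K) (f i)
    refine dvd_trans ?_ h1
    refine ⟨-(k : 𝓞 K), ?_⟩
    rw [hn]
    push_cast
    ring
  have e : x m i * (f j).eval (m : 𝓞 K) - x m j * (f i).eval (m : 𝓞 K) =
      (x m i - l * x n i) * (f j).eval (m : 𝓞 K) - (x m j - l * x n j) * (f i).eval (m : 𝓞 K) +
      (l * x n i * ((f j).eval (m : 𝓞 K) - (f j).eval (n : 𝓞 K)) -
        l * x n j * ((f i).eval (m : 𝓞 K) - (f i).eval (n : 𝓞 K))) +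
      l * (x n i * (f j).eval (n : 𝓞 K) - x n j * (f i).eval (n : 𝓞 K)) := by ring
  rw [e, hcon i j, sub_self, mul_zero, add_zero]
  refine dvd_add (dvd_sub ?_ ?_) (dvd_sub ?_ ?_)
  · exact Dvd.dvd.mul_right (hl i) _
  · exact Dvd.dvd.mul_right (hl j) _
  · exact Dvd.dvd.mul_left (hf j) _
  · exact Dvd.dvd.mul_left (hf i) _

/-- large integers do not divide a nonzero element -/
theorem not_dvd_large {μ : 𝓞 K} (hμ : μ ≠ 0) : ∃ M : ℕ, ∀ p : ℕ, M ≤ p → ¬ (p : 𝓞 K) ∣ μ := by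
  obtain ⟨M, hM⟩ := exists_nat_gt (house (μ : K))
  refine ⟨M, fun p hp h => ?_⟩
  have h1 := le_house hμ h
  have h2 : (M : ℝ) ≤ p := by exact_mod_cast hp
  linarith

/-- from finitely many families to one family -/
theorem one_of_fam {S : Set ℕ} (hS : ∀ p ∈ S, p.Prime) (hinf : ∀ M : ℕ, ∃ p ∈ S, M ≤ p)
    {p₀ N : ℕ} {x : ℕ → Fin (N + 1) → 𝓞 K} (h : Per S p₀ x)
    (𝓕 : Set (Fin (N + 1) → (𝓞 K)[X])) (hfin : 𝓕.Finite)
    (hit : ∀ a b : ℕ, 0 < b → ∀ M : ℕ, ∃ n, M ≤ n ∧ n ≡ a [MOD b] ∧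
      ∃ f ∈ 𝓕, ∀ i j, x n i * (f j).eval (n : 𝓞 K) = x n j * (f i).eval (n : 𝓞 K)) :
    ∃ f ∈ 𝓕, ∀ (m : ℕ) i j, x m i * (f j).eval (m : 𝓞 K) = x m j * (f i).eval (m : 𝓞 K) := by
  classical
  by_contra hcon
  push Not at hcon
  have key : ∀ 𝓖 : Set (Fin (N + 1) → (𝓞 K)[X]), 𝓖.Finite → 𝓖 ⊆ 𝓕 →
      ∃ a b M : ℕ, 0 < b ∧ ∀ n, M ≤ n → n ≡ a [MOD b] → ∀ f ∈ 𝓖,
        ∃ i j, x n i * (f j).eval (n : 𝓞 K) ≠ x n j * (f i).eval (n : 𝓞 K) := by
    intro 𝓖 hG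
    induction 𝓖, hG using Set.Finite.induction_on with
    | empty => exact fun _ => ⟨0, 1, 0, one_pos, fun n _ _ f hf => absurd hf (Set.notMem_empty f)⟩
    | @insert f 𝓖 _ _ ih =>
      intro hsub
      obtain ⟨a, b, M, hb, hab⟩ := ih ((Set.subset_insert _ _).trans hsub)
      obtain ⟨m, i, j, hμ⟩ := hcon f (hsub (Set.mem_insert _ _))
      obtain ⟨M₁, hM₁⟩ := not_dvd_large (sub_ne_zero.2 hμ)
      obtain ⟨p, hpS, hp⟩ := hinf (M₁ + p₀ + b + 1)
      have hpp := hS p hpS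
      have hcop : Nat.Coprime b p :=
        ((Nat.Prime.coprime_iff_not_dvd hpp).2 fun hd => by
          have := Nat.le_of_dvd hb hd
          omega).symm
      obtain ⟨c, hc1, hc2⟩ := Nat.chineseRemainder hcop a m
      refine ⟨c, b * p, M + m, Nat.mul_pos hb hpp.pos, fun n hn hnc f' hf' => ?_⟩
      rcases Set.mem_insert_iff.1 hf' with rfl | hf'
      · refine sep h hpS (by omega) f' (m := m) (by omega) ?_ (hM₁ p (by omega))
        exact (Nat.ModEq.of_mul_left b hnc).trans hc2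
      · exact hab n (by omega) ((Nat.ModEq.of_mul_right p hnc).trans hc1) f' hf'
  obtain ⟨a, b, M, hb, hab⟩ := key 𝓕 hfin le_rfl
  obtain ⟨n, hn, hna, f, hf, hz⟩ := hit a b hb M
  obtain ⟨i, j, hij⟩ := hab n hn hna f hf
  exact hij (hz i j)

/-- primitive integral multiples -/
theorem prim {N : ℕ} (f : Fin (N + 1) → K[X]) (hf : f ≠ 0) :
    ∃ (F : Fin (N + 1) → (𝓞 K)[X]) (e : K) (g : K[X]), e ≠ 0 ∧
      (∃ u : Fin (N + 1) → K[X], ∑ j, u j * (F j).map (algebraMap (𝓞 K) K) = 1) ∧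
      ∀ j, C e * f j = g * (F j).map (algebraMap (𝓞 K) K) := by
  classical
  obtain ⟨g, hg⟩ := (IsPrincipalIdealRing.principal (Ideal.span (Set.range f))).principal
  have hfg : ∀ j, g ∣ f j := by
    intro j
    have h1 : f j ∈ Ideal.span (Set.range f) := Ideal.subset_span ⟨j, rfl⟩
    rw [hg] at h1
    exact Ideal.mem_span_singleton.1 h1
  choose f' hf' using hfg
  have hg0 : g ≠ 0 := by
    rintro rfl
    exact hf (funext fun j => by rw [hf' j, zero_mul]; rfl)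
  obtain ⟨u, hu⟩ : ∃ u : Fin (N + 1) → K[X], ∑ j, u j * f' j = 1 := by
    have h1 : g ∈ Ideal.span (Set.range f) := by
      rw [hg]
      exact Ideal.mem_span_singleton_self g
    obtain ⟨u, hu⟩ := Ideal.mem_span_range_iff_exists_fun.1 h1
    refine ⟨u, ?_⟩
    have h2 : g * ∑ j, u j * f' j = g * 1 := by
      rw [mul_one, Finset.mul_sum]
      conv_rhs => rw [← hu]
      refine Finset.sum_congr rfl fun j _ => ?_
      rw [hf' j]
      ring
    exact mul_left_cancel₀ hg0 h2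
  have hcl : ∀ j, ∃ (F : (𝓞 K)[X]) (b : 𝓞 K), b ≠ 0 ∧
      F.map (algebraMap (𝓞 K) K) = C (b : K) * f' j := by
    intro j
    obtain ⟨b, hb, h1⟩ := IsLocalization.integerNormalization_spec (nonZeroDivisors (𝓞 K)) (f' j)
    refine ⟨_, b, nonZeroDivisors.ne_zero hb, h1.trans ?_⟩
    ext n
    rw [coeff_smul, coeff_C_mul]
    exact Algebra.smul_def _ _
  choose F b hb hF using hcl
  have hB : (((∏ k, b k : 𝓞 K)) : K) ≠ 0 :=
    RingOfIntegers.coe_ne_zero_iff.2 (Finset.prod_ne_zero_iff.2 fun k _ => hb k)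
  have hmap : ∀ j, (C (∏ k ∈ Finset.univ.erase j, b k) * F j).map (algebraMap (𝓞 K) K) =
      C (((∏ k, b k : 𝓞 K)) : K) * f' j := by
    intro j
    rw [Polynomial.map_mul, hF j, map_C, ← mul_assoc, ← C_mul]
    congr 2
    rw [← Finset.mul_prod_erase Finset.univ b (Finset.mem_univ j)]
    rw [mul_comm (b j)]
    exact (map_mul (algebraMap (𝓞 K) K) _ _).symm
  refine ⟨fun j => C (∏ k ∈ Finset.univ.erase j, b k) * F j, ((∏ k, b k : 𝓞 K) : K), g, hB,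
    ⟨fun j => C ((((∏ k, b k : 𝓞 K)) : K)⁻¹) * u j, ?_⟩, ?_⟩
  · rw [← hu]
    refine Finset.sum_congr rfl fun j _ => ?_
    rw [hmap j]
    have : (C ((((∏ k, b k : 𝓞 K)) : K)⁻¹) : K[X]) * C (((∏ k, b k : 𝓞 K)) : K) = 1 := by
      rw [← C_mul, inv_mul_cancel₀ hB, C_1]
    linear_combination (u j * f' j) * this
  · intro j
    rw [hmap j, hf' j]
    ring

end Pool.Agent.T6.H54.PM
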