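import Mathlib
import Pool.Agent.T6.H54.PM.One

set_option autoImplicit false
set_option linter.unusedSectionVars false

/-!
# Sequences of points periodic modulo primes: main theorem, integral form
-/

namespace Pool.Agent.T6.H54.PM

open NumberField Polynomial Finset

variable {K : Type} [Field K] [NumberField K]

/-- the binomial polynomial -/
noncomputable def bin (K : Type) [Field K] (k : ℕ) : K[X] :=
  C ((k.factorial : K)⁻¹) * descPochhammer K k

theorem bin_eval (n k : ℕ) : (bin K k).eval (n : K) = ((n.choose k : ℕ) : K) := by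
  unfold bin
  rw [eval_mul, eval_C, descPochhammer_eval_eq_descFactorial, Nat.descFactorial_eq_factorial_mul_choose]
  push_cast
  have : ((k.factorial : ℕ) : K) ≠ 0 := by exact_mod_cast k.factorial_ne_zero
  rw [← mul_assoc, inv_mul_cancel₀ this, one_mul]

/-- independence of the binomial coefficients -/
theorem choose_indep {D : ℕ} (a : Fin (D + 1) → K)
    (h : ∀ n : ℕ, ∑ k : Fin (D + 1), ((n.choose k : ℕ) : K) * a k = 0) : a = 0 := by
  have key : ∀ n : ℕ, ∀ hn : n < D + 1, a ⟨n, hn⟩ = 0 := by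
    intro n
    induction n using Nat.strong_induction_on with
    | _ n ih =>
      intro hn
      have h1 := h n
      rw [Finset.sum_eq_single (⟨n, hn⟩ : Fin (D + 1))] at h1
      · simpa using h1
      · intro k _ hk
        rcases lt_trichotomy (k : ℕ) n with hlt | heq | hgt
        · rw [ih k hlt k.2, mul_zero]
        · exact absurd (Fin.ext heq) hk
        · rw [Nat.choose_eq_zero_of_lt hgt]
          simp
      · intro h2
        exact absurd (Finset.mem_univ _) h2
  funext k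
  exact key k k.2

theorem dep {x : ℕ → 𝓞 K} {y : ℕ → 𝓞 K} {D s : ℕ} (a : Fin (D + 1) × Fin (s + 1) → 𝓞 K)
    (ha : a ≠ 0) (h : ∀ n, aux a x y n = 0) :
    ∃ B : K[X][X], B ≠ 0 ∧ ∀ n : ℕ, (x n : K) ≠ 0 →
      B.evalEval (n : K) ((y n : K) / (x n : K)) = 0 := by
  refine ⟨∑ e : Fin (s + 1), C (∑ k : Fin (D + 1), C ((a (k, e) : 𝓞 K) : K) * bin K k) *
    X ^ (e : ℕ), ?_, ?_⟩
  · intro hB
    apply ha
    funext ⟨k, e⟩
    have hco : (∑ k : Fin (D + 1), C ((a (k, e) : 𝓞 K) : K) * bin K k) = 0 := by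
      have h1 := congrArg (fun B : K[X][X] => B.coeff (e : ℕ)) hB
      simp only [finset_sum_coeff, coeff_C_mul, coeff_X_pow, coeff_zero] at h1
      rw [Finset.sum_eq_single e] at h1
      · simpa using h1
      · intro e' _ he'
        rw [if_neg (fun h => he' (Fin.ext h.symm)), mul_zero]
      · intro h2
        exact absurd (Finset.mem_univ _) h2
    have h2 : (fun k : Fin (D + 1) => ((a (k, e) : 𝓞 K) : K)) = 0 := by
      refine choose_indep _ fun n => ?_
      have h3 := congrArg (fun p : K[X] => p.eval (n : K)) hco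
      simp only [eval_finset_sum, eval_mul, eval_C, eval_zero, bin_eval] at h3
      rw [← h3]
      exact Finset.sum_congr rfl fun k _ => mul_comm _ _
    exact RingOfIntegers.coe_eq_zero_iff.1 (congrFun h2 k)
  · intro n hn
    have h1 := congrArg (algebraMap (𝓞 K) K) (h n)
    rw [map_zero] at h1
    unfold aux at h1
    rw [map_sum] at h1
    have h2 : (∑ e : Fin (s + 1), C (∑ k : Fin (D + 1), C ((a (k, e) : 𝓞 K) : K) * bin K k) *
        X ^ (e : ℕ) : K[X][X]).evalEval (n : K) ((y n : K) / (x n : K)) * (x n : K) ^ s = 0 := by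
      rw [evalEval_finsetSum, Finset.sum_mul, ← h1, Fintype.sum_prod_type_right]
      refine Finset.sum_congr rfl fun e _ => ?_
      rw [evalEval_mul, evalEval_C, evalEval_pow, evalEval_X, eval_finset_sum, Finset.sum_mul,
        Finset.sum_mul]
      refine Finset.sum_congr rfl fun k _ => ?_
      rw [eval_mul, eval_C, bin_eval]
      simp only [map_mul, map_pow, map_natCast]
      have hs : (s : ℕ) = (s - (e : ℕ)) + (e : ℕ) := by omega
      have hx : (x n : K) ^ s = (x n : K) ^ (s - (e : ℕ)) * (x n : K) ^ (e : ℕ) := by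
        rw [← pow_add, ← hs]
      rw [hx, div_pow]
      field_simp
    exact (mul_eq_zero.1 h2).resolve_right (pow_ne_zero _ hn)

theorem inf_of_wt {S : Set ℕ} {δ : ℝ} (hδ : 0 < δ) {n₀ : ℕ}
    (hwt : ∀ n : ℕ, n₀ ≤ n → δ * n ≤ wt S n) (M : ℕ) : ∃ p ∈ S, M ≤ p := by
  classical
  by_contra hcon
  push Not at hcon
  obtain ⟨n, hn⟩ := exists_nat_gt (wt S M / δ)
  have h1 := hwt (n + n₀ + M) (by omega)
  have h2 : wt S (n + n₀ + M) ≤ wt S M := by
    unfold wt
    refine Finset.sum_le_sum_of_subset_of_nonneg ?_ fun p _ _ => Real.log_natCast_nonneg p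
    intro p hp
    rw [Finset.mem_filter, Finset.mem_range] at hp ⊢
    exact ⟨by have := hcon p hp.2; omega, hp.2⟩
  rw [div_lt_iff₀ hδ] at hn
  have h3 : (n : ℝ) ≤ ((n + n₀ + M : ℕ) : ℝ) := by exact_mod_cast (by omega : n ≤ n + n₀ + M)
  have h4 : (n : ℝ) * δ ≤ ((n + n₀ + M : ℕ) : ℝ) * δ := by gcongr
  linarith

/-- the main theorem in integral form -/
theorem main_int {S : Set ℕ} (hS : ∀ p ∈ S, p.Prime) {δ : ℝ} (hδ : 0 < δ) {n₀ : ℕ}
    (hwt : ∀ n : ℕ, n₀ ≤ n → δ * n ≤ wt S n) {p₀ N : ℕ} {x : ℕ → Fin (N + 1) → 𝓞 K}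
    (h : Per S p₀ x) (hx0 : ∀ n, x n ≠ 0) {C₀ : ℝ} (hC₀ : 1 ≤ C₀)
    (hx : ∀ n i, house (x n i : K) ≤ C₀ * Real.exp ((δ / 16) ^ 3 * n)) :
    ∃ F : Fin (N + 1) → (𝓞 K)[X],
      (∃ u : Fin (N + 1) → K[X], ∑ j, u j * (F j).map (algebraMap (𝓞 K) K) = 1) ∧
      ∀ (m : ℕ) i j, x m i * (F j).eval (m : 𝓞 K) = x m j * (F i).eval (m : 𝓞 K) := by
  classical
  have hB : ∀ i j, ∃ B : K[X][X], B ≠ 0 ∧ ∀ n : ℕ, (x n i : K) ≠ 0 →
      B.evalEval (n : K) ((x n j : K) / (x n i : K)) = 0 := by
    intro i j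
    obtain ⟨D, s, a, ha, h1⟩ := alg hS hδ hwt h hC₀ hx i j
    exact dep a ha h1
  choose B hB0 hB using hB
  have hx0' : ∀ n, (fun i => (x n i : K)) ≠ 0 := by
    intro n h0
    exact hx0 n (funext fun i => RingOfIntegers.coe_eq_zero_iff.1 (congrFun h0 i))
  obtain ⟨𝓕, hfin, hhit⟩ := fam (fun n i => (x n i : K)) hx0' B hB0 fun n i j h => hB i j n h
  choose! F e g he hu hF using fun (f : Fin (N + 1) → K[X]) (hf : f ≠ 0) => prim f hf
  obtain ⟨f, hf, hall⟩ := one_of_fam hS (inf_of_wt hδ hwt) h (F '' (𝓕 ∩ {f | f ≠ 0}))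
    ((hfin.subset Set.inter_subset_left).image _) (by
      intro a b hb M
      obtain ⟨n, hn, hna, f, hf, c, hc, hfc⟩ := hhit a b hb M
      have hf0 : f ≠ 0 := by
        rintro rfl
        obtain ⟨i, hi⟩ := Function.ne_iff.1 (hx0' n)
        have := hfc i
        simp only [Pi.zero_apply, eval_zero] at this
        exact mul_ne_zero hc hi this.symm
      refine ⟨n, hn, hna, F f, ⟨f, ⟨hf, hf0⟩, rfl⟩, ?_⟩
      intro i j
      have hev : ∀ j, e f * (c * (x n j : K)) = (g f).eval (n : K) *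
          (((F f j).eval (n : 𝓞 K) : 𝓞 K) : K) := by
        intro j
        have h1 := congrArg (fun p : K[X] => p.eval (n : K)) (hF f hf0 j)
        simp only [eval_mul, eval_C] at h1
        rw [hfc j] at h1
        rw [h1]
        congr 1
        have h2 := Polynomial.eval_natCast_map (algebraMap (𝓞 K) K) (F f j) n
        rw [h2]
      have hg : (g f).eval (n : K) ≠ 0 := by
        intro hg0
        obtain ⟨i, hi⟩ := Function.ne_iff.1 (hx0' n)
        have := hev i
        rw [hg0, zero_mul] at this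
        exact mul_ne_zero (he f hf0) (mul_ne_zero hc hi) this
      have hcast : ((x n i * (F f j).eval (n : 𝓞 K) : 𝓞 K) : K) =
          ((x n j * (F f i).eval (n : 𝓞 K) : 𝓞 K) : K) := by
        have e1 : ((x n i * (F f j).eval (n : 𝓞 K) : 𝓞 K) : K) =
          (x n i : K) * (((F f j).eval (n : 𝓞 K) : 𝓞 K) : K) := map_mul (algebraMap (𝓞 K) K) _ _
        have e2 : ((x n j * (F f i).eval (n : 𝓞 K) : 𝓞 K) : K) =
          (x n j : K) * (((F f i).eval (n : 𝓞 K) : 𝓞 K) : K) := map_mul (algebraMap (𝓞 K) K) _ _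
        rw [e1, e2]
        have h3 := hev i
        have h4 := hev j
        have h5 : (g f).eval (n : K) * ((x n i : K) * (((F f j).eval (n : 𝓞 K) : 𝓞 K) : K)) =
            (g f).eval (n : K) * ((x n j : K) * (((F f i).eval (n : 𝓞 K) : 𝓞 K) : K)) := by
          linear_combination (x n j : K) * h3 - (x n i : K) * h4
        exact mul_left_cancel₀ hg h5
      exact RingOfIntegers.coe_injective hcast)
  obtain ⟨f', ⟨_, hf'⟩, rfl⟩ := hf
  exact ⟨F f', hu f' hf', hall⟩

end Pool.Agent.T6.H54.PM
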