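import Mathlib
import Pool.Agent.T6.H54.PM.Main
import Pool.Agent.R366.NF.Rep
import Pool.Agent.TH409.SH.Fin2

set_option autoImplicit false
set_option linter.unusedSectionVars false

/-!
# Sequences of points periodic modulo primes: projective form
-/

namespace Pool.Agent.T6.H54.PM

open NumberField Polynomial Finset Height Pool.Agent.TH409.SH

variable {K : Type} [Field K] [NumberField K]

/-- The points of projective space with the homogeneous coordinates `x`, `y` in the number field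
`K` are congruent modulo the integer `p`, that is they have the same image in
`ℙ^N (𝓞 K / p 𝓞 K)`: they have representatives `x'`, `y'` with coordinates in the ring of
integers, the coordinates of `x'` generate the unit ideal modulo `p`, and `x'` and `y'` are
congruent modulo `p`. -/
def CongrMod (p : ℕ) {N : ℕ} (x y : Fin (N + 1) → K) : Prop :=
  ∃ (a b : K) (x' y' : Fin (N + 1) → 𝓞 K), a ≠ 0 ∧ b ≠ 0 ∧
    (∀ i, ((x' i : 𝓞 K) : K) = a * x i) ∧ (∀ i, ((y' i : 𝓞 K) : K) = b * y i) ∧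
    (∃ u : Fin (N + 1) → 𝓞 K, (p : 𝓞 K) ∣ ∑ i, u i * x' i - 1) ∧
    ∀ i, (p : 𝓞 K) ∣ x' i - y' i

theorem par_int {N : ℕ} {P : Fin (N + 1) → K} {a t : K} {x y : Fin (N + 1) → 𝓞 K}
    (hx : ∀ i, ((x i : 𝓞 K) : K) = a * P i) (hy : ∀ i, ((y i : 𝓞 K) : K) = t * P i) (i j) :
    x i * y j = x j * y i := by
  apply RingOfIntegers.coe_injective
  have e1 : ((x i * y j : 𝓞 K) : K) = (x i : K) * (y j : K) := map_mul (algebraMap (𝓞 K) K) _ _
  have e2 : ((x j * y i : 𝓞 K) : K) = (x j : K) * (y i : K) := map_mul (algebraMap (𝓞 K) K) _ _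
  change ((x i * y j : 𝓞 K) : K) = ((x j * y i : 𝓞 K) : K)
  rw [e1, e2, hx, hx, hy, hy]
  ring

/-- minors from a congruence -/
theorem minors {p N : ℕ} {P Q : Fin (N + 1) → K} (h : CongrMod p P Q) {s t : K}
    {X Y : Fin (N + 1) → 𝓞 K} (hX : ∀ i, ((X i : 𝓞 K) : K) = s * P i)
    (hY : ∀ i, ((Y i : 𝓞 K) : K) = t * Q i) (i j : Fin (N + 1)) :
    (p : 𝓞 K) ∣ X i * Y j - X j * Y i := by
  obtain ⟨a, b, x', y', ha, hb, hx', hy', ⟨u, hu⟩, hxy⟩ := h
  have h1 : ∀ i j, X i * x' j = X j * x' i := fun i j => par_int hX hx' i j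
  have h2 : ∀ i j, Y i * y' j = Y j * y' i := fun i j => par_int hY hy' i j
  set e : 𝓞 K := ∑ k, u k * x' k with he
  set e' : 𝓞 K := ∑ k, u k * y' k with he'
  set α : 𝓞 K := ∑ k, u k * X k with hα
  set β : 𝓞 K := ∑ k, u k * Y k with hβ
  have h3 : ∀ i, e * X i = α * x' i := by
    intro i
    rw [he, hα, Finset.sum_mul, Finset.sum_mul]
    refine Finset.sum_congr rfl fun k _ => ?_
    linear_combination (u k) * h1 i k
  have h4 : ∀ i, e' * Y i = β * y' i := by
    intro i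
    rw [he', hβ, Finset.sum_mul, Finset.sum_mul]
    refine Finset.sum_congr rfl fun k _ => ?_
    linear_combination (u k) * h2 i k
  have h5 : (p : 𝓞 K) ∣ e - e' := by
    rw [he, he', ← Finset.sum_sub_distrib]
    refine Finset.dvd_sum fun k _ => ?_
    rw [← mul_sub]
    exact Dvd.dvd.mul_left (hxy k) _
  have h6 : (p : 𝓞 K) ∣ 1 - e * e' := by
    have e1 : 1 - e * e' = -(e - 1) * (1 + e) + e * (e - e') := by ring
    rw [e1]
    exact dvd_add (Dvd.dvd.mul_right hu.neg_right _) (Dvd.dvd.mul_left h5 _)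
  have h7 : (p : 𝓞 K) ∣ e * e' * (X i * Y j - X j * Y i) := by
    have e1 : e * e' * (X i * Y j - X j * Y i) =
        α * β * (-(x' i) * (x' j - y' j) + x' j * (x' i - y' i)) := by
      linear_combination (e' * Y j) * h3 i + (α * x' i) * h4 j - (e' * Y i) * h3 j -
        (α * x' j) * h4 i
    rw [e1]
    exact Dvd.dvd.mul_left (dvd_add (Dvd.dvd.mul_left (hxy j) _) (Dvd.dvd.mul_left (hxy i) _)) _
  have e2 : X i * Y j - X j * Y i = (1 - e * e') * (X i * Y j - X j * Y i) +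
      e * e' * (X i * Y j - X j * Y i) := by ring
  rw [e2]
  exact dvd_add (Dvd.dvd.mul_right h6 _) h7

theorem house_le_of_places {a : K} {X : ℝ} (hX : 0 ≤ X) (ha : ∀ w : InfinitePlace K, w a ≤ X) :
    house a ≤ X := by
  refine (pi_norm_le_iff_of_nonneg hX).2 fun φ => ?_
  have := ha (InfinitePlace.mk φ)
  rw [InfinitePlace.apply] at this
  exact this

theorem mulHeight_root {N : ℕ} (x : Fin (N + 1) → K) :
    mulHeight x ^ (1 / (Module.finrank ℚ K : ℝ)) = Real.exp (ah K x) := by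
  have h1 : 0 < mulHeight x := mulHeight_pos x
  rw [Real.rpow_def_of_pos h1]
  congr 1
  unfold ah
  rw [logHeight_eq_log_mulHeight]
  ring

/-- balanced integral coordinates for the whole sequence -/
theorem per_of_congr {S : Set ℕ} (hS : ∀ p ∈ S, p.Prime) {p₀ N : ℕ} (P : ℕ → Fin (N + 1) → K)
    (hP : ∀ n, P n ≠ 0)
    (hper : ∀ p ∈ S, p₀ ≤ p → ∀ n, CongrMod p (P (n + p)) (P n)) :
    ∃ (p₁ : ℕ) (x : ℕ → Fin (N + 1) → 𝓞 K) (t : ℕ → K) (C : ℝ), Per S p₁ x ∧ 1 ≤ C ∧
      (∀ n, t n ≠ 0) ∧ (∀ n i, ((x n i : 𝓞 K) : K) = t n * P n i) ∧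
      ∀ n i, house ((x n i : 𝓞 K) : K) ≤ C * Real.exp (ah K (P n)) := by
  obtain ⟨C, M, hC, hrep⟩ := Pool.Agent.R366.NF.rep' (n := N) K
  choose t ht x hx hsize D hD0 hDM hmem using fun n => hrep (P n) (hP n)
  refine ⟨max p₀ (M + 1), x, t, max 1 C, ⟨?_, ?_⟩, le_max_left _ _, ht, hx, ?_⟩
  · intro p hp hp1 n
    have hpp := hS p hp
    have hlt : D n < p := by
      have := le_max_right p₀ (M + 1)
      have := hDM n
      omega
    have hcop : IsCoprime ((D n : ℕ) : ℤ) ((p : ℕ) : ℤ) := by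
      rw [Nat.isCoprime_iff_coprime]
      refine ((Nat.Prime.coprime_iff_not_dvd hpp).2 fun hd => ?_).symm
      have := Nat.le_of_dvd (hD0 n) hd
      omega
    obtain ⟨a, b, hab⟩ := hcop
    obtain ⟨r, hr⟩ := Ideal.mem_span_range_iff_exists_fun.1 (hmem n)
    refine ⟨fun i => (a : 𝓞 K) * r i, -(b : 𝓞 K), ?_⟩
    have h1 := congrArg (Int.cast : ℤ → 𝓞 K) hab
    push_cast at h1
    have h2 : ∑ i, (a : 𝓞 K) * r i * x n i = (a : 𝓞 K) * (D n : 𝓞 K) := by
      rw [← hr, Finset.mul_sum]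
      exact Finset.sum_congr rfl fun i _ => by ring
    rw [h2]
    linear_combination h1
  · intro p hp hp1 n i j
    exact minors (hper p hp ((le_max_left _ _).trans hp1) n) (hx (n + p)) (hx n) i j
  · intro n i
    refine house_le_of_places (by positivity) fun w => ?_
    refine (hsize n w i).trans ?_
    rw [mulHeight_root]
    exact mul_le_mul_of_nonneg_right (le_max_right _ _) (Real.exp_pos _).le

/-- **Sequences of points of projective space which are periodic modulo primes and of small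
growth are polynomial.** -/
theorem poly {S : Set ℕ} (hS : ∀ p ∈ S, p.Prime) {δ : ℝ} (hδ : 0 < δ) {n₀ : ℕ}
    (hwt : ∀ n : ℕ, n₀ ≤ n → δ * n ≤ wt S n) {p₀ N : ℕ} (P : ℕ → Fin (N + 1) → K)
    (hP : ∀ n, P n ≠ 0)
    (hper : ∀ p ∈ S, p₀ ≤ p → ∀ n, CongrMod p (P (n + p)) (P n)) (C : ℝ)
    (hh : ∀ n : ℕ, ah K (P n) ≤ (δ / 16) ^ 3 * n + C) :
    ∃ F : Fin (N + 1) → (𝓞 K)[X],
      (∃ u : Fin (N + 1) → K[X], ∑ j, u j * (F j).map (algebraMap (𝓞 K) K) = 1) ∧
      ∀ n : ℕ, ∃ c : K, c ≠ 0 ∧ ∀ i, P n i = c * (((F i).eval (n : 𝓞 K) : 𝓞 K) : K) := by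
  obtain ⟨p₁, x, t, C₁, hx, hC₁, ht, hxt, hsize⟩ := per_of_congr hS P hP hper
  have hC₀ : 1 ≤ C₁ * Real.exp |C| := by
    have : 1 ≤ Real.exp |C| := Real.one_le_exp (abs_nonneg _)
    nlinarith
  have hx0 : ∀ n, x n ≠ 0 := by
    intro n h0
    apply hP n
    funext i
    have h1 := hxt n i
    rw [h0] at h1
    have h2 : t n * P n i = 0 := by
      rw [← h1]
      simp
    exact (mul_eq_zero.1 h2).resolve_left (ht n)
  obtain ⟨F, hu, hF⟩ := main_int hS hδ hwt hx hx0 hC₀ (by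
    intro n i
    refine (hsize n i).trans ?_
    have h1 : Real.exp (ah K (P n)) ≤ Real.exp |C| * Real.exp ((δ / 16) ^ 3 * n) := by
      rw [← Real.exp_add]
      refine Real.exp_le_exp.2 ?_
      have := hh n
      have := le_abs_self C
      linarith
    calc C₁ * Real.exp (ah K (P n)) ≤ C₁ * (Real.exp |C| * Real.exp ((δ / 16) ^ 3 * n)) := by
          gcongr
      _ = C₁ * Real.exp |C| * Real.exp ((δ / 16) ^ 3 * n) := by ring)
  refine ⟨F, hu, fun n => ?_⟩
  -- some coordinate of `F (n)` is nonzero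
  obtain ⟨u, hu⟩ := hu
  have hex : ∃ j, (F j).eval (n : 𝓞 K) ≠ 0 := by
    by_contra hcon
    push Not at hcon
    have h1 := congrArg (fun p : K[X] => p.eval (n : K)) hu
    simp only [eval_finsetSum, eval_mul, eval_one] at h1
    rw [Finset.sum_eq_zero] at h1
    · exact zero_ne_one h1
    · intro j _
      rw [Polynomial.eval_natCast_map (algebraMap (𝓞 K) K) (F j) n, hcon j, map_zero, mul_zero]
  obtain ⟨j, hj⟩ := hex
  have hj' : (((F j).eval (n : 𝓞 K) : 𝓞 K) : K) ≠ 0 := RingOfIntegers.coe_ne_zero_iff.2 hj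
  have hpar : ∀ i, P n i * (((F j).eval (n : 𝓞 K) : 𝓞 K) : K) =
      P n j * (((F i).eval (n : 𝓞 K) : 𝓞 K) : K) := by
    intro i
    have h1 := congrArg (algebraMap (𝓞 K) K) (hF n i j)
    rw [map_mul, map_mul] at h1
    have h2 : t n * (P n i * (((F j).eval (n : 𝓞 K) : 𝓞 K) : K)) =
        t n * (P n j * (((F i).eval (n : 𝓞 K) : 𝓞 K) : K)) := by
      rw [← mul_assoc, ← mul_assoc, ← hxt, ← hxt]
      exact h1
    exact mul_left_cancel₀ (ht n) h2
  have hPj : P n j ≠ 0 := by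
    intro h0
    apply hP n
    funext i
    have := hpar i
    rw [h0, zero_mul] at this
    exact (mul_eq_zero.1 this).resolve_right hj'
  refine ⟨P n j / (((F j).eval (n : 𝓞 K) : 𝓞 K) : K), div_ne_zero hPj hj', fun i => ?_⟩
  rw [div_mul_eq_mul_div, ← hpar i]
  field_simp

end Pool.Agent.T6.H54.PM
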