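import Mathlib
import Pool.Agent.T6.H54.PM.Rep
import Pool.Agent.T6.H54.PM.Orb2
import Pool.Agent.T6.H54.PM.RH

set_option autoImplicit false
set_option linter.unusedSectionVars false

/-!
# Integral points of C-pairs, periodic modulo primes
-/

namespace Pool.Agent.T6.H54.PM

open NumberField Polynomial IsDedekindDomain Pool.Agent.TH409.SH

variable {K : Type} [Field K] [NumberField K]

/-- The point `P` of projective space (given by homogeneous coordinates in the number field `K`) is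
an integral point, outside the set `S₀` of primes, of the C-pair with the divisors `D i`, given by
the equations `B i l = 0`, with the multiplicities `m i`: for every prime `v` outside `S₀` and every
representative `x` of `P` which is primitive at `v` the intersection number of `P` and `D i` at `v`,
that is the largest `n` such that `v ^ n` divides all `B i l (x)`, is zero or at least `m i`. -/
def IsIntegralPoint (S₀ : Set (HeightOneSpectrum (𝓞 K))) {N q w : ℕ}
    (B : Fin q → Fin w → MvPolynomial (Fin (N + 1)) (𝓞 K)) (m : Fin q → ℕ∞)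
    (P : Fin (N + 1) → K) : Prop :=
  ∀ v ∉ S₀, ∀ (a : K) (x : Fin (N + 1) → 𝓞 K), a ≠ 0 → (∀ j, ((x j : 𝓞 K) : K) = a * P j) →
    (∃ j, x j ∉ v.asIdeal) → ∀ i, (∀ l, MvPolynomial.eval x (B i l) ∈ v.asIdeal) →
      ∀ n : ℕ, (n : ℕ∞) ≤ m i → ∀ l, MvPolynomial.eval x (B i l) ∈ v.asIdeal ^ n

theorem eval_aeval' {R : Type} [CommRing R] {N : ℕ} (F : Fin (N + 1) → R[X])
    (B : MvPolynomial (Fin (N + 1)) R) (τ : R) :
    (MvPolynomial.aeval F B).eval τ = MvPolynomial.eval (fun j => (F j).eval τ) B := by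
  have h := MvPolynomial.comp_aeval_apply F (Polynomial.aeval τ : R[X] →ₐ[R] R) B
  rw [Polynomial.coe_aeval_eq_eval] at h
  rw [h, MvPolynomial.aeval_eq_eval]

theorem map_aeval' {R S : Type} [CommRing R] [CommRing S] (g : R →+* S) {N : ℕ}
    (F : Fin (N + 1) → R[X]) (B : MvPolynomial (Fin (N + 1)) R) :
    (MvPolynomial.aeval F B).map g =
      MvPolynomial.aeval (fun j => (F j).map g) (MvPolynomial.map g B) := by
  induction B using MvPolynomial.induction_on with
  | C a => simp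
  | add p q hp hq => simp only [map_add, Polynomial.map_add, hp, hq]
  | mul_X p i hp => simp only [map_mul, Polynomial.map_mul, hp, MvPolynomial.aeval_X,
      MvPolynomial.map_X]

/-- a polynomial with infinitely many natural zeros vanishes -/
theorem zero_of_nat {R : Type} [CommRing R] [IsDomain R] [CharZero R] (p : R[X])
    (h : ∀ n : ℕ, p.eval (n : R) = 0) : p = 0 := by
  refine Polynomial.eq_zero_of_infinite_isRoot p ?_
  refine Set.infinite_of_injective_forall_mem (f := fun n : ℕ => (n : R)) Nat.cast_injective ?_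
  exact h

/-- primitivity of the values at almost all primes -/
theorem prim_at {N : ℕ} (F : Fin (N + 1) → (𝓞 K)[X])
    (hu : ∃ u : Fin (N + 1) → K[X], ∑ j, u j * (F j).map (algebraMap (𝓞 K) K) = 1) :
    ∃ E : 𝓞 K, E ≠ 0 ∧ ∃ u : Fin (N + 1) → (𝓞 K)[X], ∑ j, u j * F j = C E := by
  classical
  obtain ⟨u, hu⟩ := hu
  choose u₁ b hb hu₁ using fun j => clear (u j)
  refine ⟨∏ j, b j, Finset.prod_ne_zero_iff.2 fun j _ => hb j,
    fun j => C (∏ k ∈ Finset.univ.erase j, b k) * u₁ j, ?_⟩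
  apply map_inj
  rw [Polynomial.map_sum, map_C]
  have e0 : algebraMap (𝓞 K) K (∏ j, b j) = ∏ j, (b j : K) := map_prod _ _ _
  rw [e0]
  have h1 : ∀ j, (C (∏ k ∈ Finset.univ.erase j, b k) * u₁ j * F j).map (algebraMap (𝓞 K) K) =
      C (∏ j, (b j : K)) * (u j * (F j).map (algebraMap (𝓞 K) K)) := by
    intro j
    rw [Polynomial.map_mul, Polynomial.map_mul, hu₁ j, map_C]
    have e1 : algebraMap (𝓞 K) K (∏ k ∈ Finset.univ.erase j, b k) =
        ∏ k ∈ Finset.univ.erase j, (b k : K) := map_prod _ _ _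
    rw [e1, ← Finset.mul_prod_erase Finset.univ (fun j => (b j : K)) (Finset.mem_univ j), C_mul]
    ring
  rw [Finset.sum_congr rfl fun j _ => h1 j, ← Finset.mul_sum, hu, mul_one]

/-- **Main theorem for C-pairs.** -/
theorem camp {S : Set ℕ} (hS : ∀ p ∈ S, p.Prime) {δ : ℝ} (hδ : 0 < δ) {n₀ : ℕ}
    (hwt : ∀ n : ℕ, n₀ ≤ n → δ * n ≤ wt S n) {p₀ N : ℕ}
    (FF : Set (MvPolynomial (Fin (N + 1)) (𝓞 K))) (hFF : ∀ G ∈ FF, ∃ e, G.IsHomogeneous e)
    {q w : ℕ} (B : Fin q → Fin w → MvPolynomial (Fin (N + 1)) (𝓞 K)) (m : Fin q → ℕ∞)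
    (S₀ : Set (HeightOneSpectrum (𝓞 K))) (hS₀ : S₀.Finite)
    (P : ℕ → Fin (N + 1) → K) (hP : ∀ n, P n ≠ 0)
    (hX : ∀ n, ∀ G ∈ FF, MvPolynomial.aeval (P n) G = 0)
    (hint : ∀ n, IsIntegralPoint S₀ B m (P n))
    (hper : ∀ p ∈ S, p₀ ≤ p → ∀ n, CongrMod p (P (n + p)) (P n)) (C₀ : ℝ)
    (hh : ∀ n : ℕ, ah K (P n) ≤ (δ / 16) ^ 3 * n + C₀) :
    ∃ f : Fin (N + 1) → K[X], (∃ u : Fin (N + 1) → K[X], ∑ j, u j * f j = 1) ∧
      (∀ n : ℕ, ∃ c : K, c ≠ 0 ∧ ∀ j, P n j = c * (f j).eval (n : K)) ∧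
      (∀ G ∈ FF, MvPolynomial.aeval f (MvPolynomial.map (algebraMap (𝓞 K) K) G) = 0) ∧
      ∀ i (π : K[X]), Irreducible π →
        (∀ l, π ∣ MvPolynomial.aeval f (MvPolynomial.map (algebraMap (𝓞 K) K) (B i l))) →
        ∀ n : ℕ, (n : ℕ∞) ≤ m i →
          ∀ l, π ^ n ∣ MvPolynomial.aeval f (MvPolynomial.map (algebraMap (𝓞 K) K) (B i l)) := by
  classical
  obtain ⟨F, hu, hF⟩ := poly hS hδ hwt P hP hper C₀ hh
  obtain ⟨E, hE, u', hu'⟩ := prim_at F hu
  refine ⟨fun j => (F j).map (algebraMap (𝓞 K) K), hu, ?_, ?_, ?_⟩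
  · intro n
    obtain ⟨c, hc, h⟩ := hF n
    refine ⟨c, hc, fun j => ?_⟩
    rw [h j, Polynomial.eval_natCast_map (algebraMap (𝓞 K) K) (F j) n]
  · intro G hG
    rw [← map_aeval']
    have h0 : MvPolynomial.aeval F G = 0 := by
      refine zero_of_nat _ fun n => ?_
      rw [eval_aeval']
      obtain ⟨c, hc, h⟩ := hF n
      obtain ⟨e, he⟩ := hFF G hG
      have h1 := hX n G hG
      have h2 : P n = fun j => c * (((F j).eval (n : 𝓞 K) : 𝓞 K) : K) := funext h
      rw [h2, Pool.Agent.H458.Sp.aeval_smul_homog G he c] at h1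
      have h3 := (mul_eq_zero.1 h1).resolve_left (pow_ne_zero _ hc)
      have h4 : algebraMap (𝓞 K) K (MvPolynomial.eval (fun j => (F j).eval (n : 𝓞 K)) G) = 0 := by
        rw [← h3]
        have h5 := MvPolynomial.aeval_algebraMap_apply K (fun j => (F j).eval (n : 𝓞 K)) G
        rw [MvPolynomial.aeval_eq_eval (fun j => (F j).eval (n : 𝓞 K))] at h5
        exact h5.symm
      exact RingOfIntegers.coe_injective (h4.trans (map_zero _).symm)
    rw [h0, Polynomial.map_zero]
  · intro i π hπ hdiv n hn l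
    rw [← map_aeval']
    have hfin : (S₀ ∪ {v : HeightOneSpectrum (𝓞 K) | v.asIdeal ∣ Ideal.span {E}}).Finite := by
      refine hS₀.union (Ideal.finite_factors ?_)
      rw [Ne, Ideal.zero_eq_bot, Ideal.span_singleton_eq_bot]
      exact hE
    refine mult_ge (fun l => MvPolynomial.aeval F (B i l)) _ hfin n ?_ π hπ ?_ l
    · intro v hv k hk l'
      rw [Set.mem_union, not_or] at hv
      obtain ⟨hv1, hv2⟩ := hv
      rw [eval_aeval']
      obtain ⟨c, hc, h⟩ := hF k
      refine hint k v hv1 c⁻¹ (fun j => (F j).eval (k : 𝓞 K)) (inv_ne_zero hc) ?_ ?_ i ?_ n hn l'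
      · intro j
        rw [h j, ← mul_assoc, inv_mul_cancel₀ hc, one_mul]
      · by_contra hcon
        push Not at hcon
        apply hv2
        rw [Set.mem_ofPred_eq, Ideal.dvd_span_singleton]
        have h1 := congrArg (eval (k : 𝓞 K)) hu'
        rw [eval_C, eval_finsetSum] at h1
        rw [← h1]
        refine v.asIdeal.sum_mem fun j _ => ?_
        rw [eval_mul]
        exact v.asIdeal.mul_mem_left _ (hcon j)
      · intro l''
        rw [← eval_aeval']
        exact hk l''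
    · intro l'
      rw [map_aeval']
      exact hdiv l'

/-- **C-pairs on the projective line.** -/
theorem camp_line {S : Set ℕ} (hS : ∀ p ∈ S, p.Prime) {δ : ℝ} (hδ : 0 < δ) {n₀ : ℕ}
    (hwt : ∀ n : ℕ, n₀ ≤ n → δ * n ≤ wt S n) {p₀ : ℕ}
    {q : ℕ} (B : Fin q → MvPolynomial (Fin 2) (𝓞 K)) (e : Fin q → ℕ)
    (hB : ∀ i, (B i).IsHomogeneous (e i))
    (hsm : ∀ i (z : Fin 2 → AlgebraicClosure K), z ≠ 0 → MvPolynomial.aeval z (B i) = 0 →
      ∃ j, MvPolynomial.aeval z (MvPolynomial.pderiv j (B i)) ≠ 0)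
    (hdj : ∀ i i', i ≠ i' → ∀ z : Fin 2 → AlgebraicClosure K, z ≠ 0 →
      MvPolynomial.aeval z (B i) = 0 → MvPolynomial.aeval z (B i') ≠ 0)
    (m : Fin q → ℕ∞) (hm1 : ∀ i, 1 ≤ m i) (hdeg : 2 ≤ ∑ i, cf (m i) * e i)
    (S₀ : Set (HeightOneSpectrum (𝓞 K))) (hS₀ : S₀.Finite)
    (P : ℕ → Fin 2 → K) (hP : ∀ n, P n ≠ 0)
    (hint : ∀ n, IsIntegralPoint (N := 1) S₀ (fun i (_ : Fin 1) => B i) m (P n))
    (hper : ∀ p ∈ S, p₀ ≤ p → ∀ n, CongrMod (N := 1) p (P (n + p)) (P n)) (C₀ : ℝ)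
    (hh : ∀ n : ℕ, ah K (P n) ≤ (δ / 16) ^ 3 * n + C₀) :
    ∀ n n' j j', P n j * P n' j' = P n j' * P n' j := by
  classical
  obtain ⟨f, ⟨u, hu⟩, hf, -, horb⟩ := camp (N := 1) hS hδ hwt ∅ (fun G hG => absurd hG (by simp))
    (fun i (_ : Fin 1) => B i) m S₀ hS₀ P hP (fun n G hG => absurd hG (by simp)) hint hper C₀ hh
  set L := AlgebraicClosure K with hL
  set g : K →+* L := algebraMap K L with hg
  set F : Fin 2 → L[X] := fun j => (f j).map g with hF
  have hmapmap : ∀ i, MvPolynomial.aeval F (MvPolynomial.map (algebraMap (𝓞 K) L) (B i)) =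
      (MvPolynomial.aeval f (MvPolynomial.map (algebraMap (𝓞 K) K) (B i))).map g := by
    intro i
    rw [map_aeval' (N := 1) g f, MvPolynomial.map_map]
    rfl
  have hcop : IsCoprime (F 0) (F 1) := by
    refine ⟨(u 0).map g, (u 1).map g, ?_⟩
    have h1 := congrArg (Polynomial.map g) hu
    rw [Polynomial.map_sum, Polynomial.map_one] at h1
    have h2 : ∑ j : Fin 2, (u j * f j).map g = (u 0 * f 0).map g + (u 1 * f 1).map g :=
      Fin.sum_univ_two _
    have h3 := h2.symm.trans h1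
    rw [Polynomial.map_mul, Polynomial.map_mul] at h3
    exact h3
  have hev : ∀ (z : Fin 2 → L) (A : MvPolynomial (Fin 2) (𝓞 K)),
      MvPolynomial.eval z (MvPolynomial.map (algebraMap (𝓞 K) L) A) = MvPolynomial.aeval z A := by
    intro z A
    rw [MvPolynomial.eval_map]
    rfl
  have hcf : 2 ≤ ∑ i, cf (m i) * (e i : ℝ) := hdeg
  obtain ⟨hd0, hd1⟩ := rh F hcop (fun i => MvPolynomial.map (algebraMap (𝓞 K) L) (B i)) e
    (fun i => (hB i).map _)
    (by
      intro i z hz h0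
      rw [hev] at h0
      obtain ⟨j, hj⟩ := hsm i z hz h0
      refine ⟨j, ?_⟩
      rw [MvPolynomial.pderiv_map, hev]
      exact hj)
    (by
      intro i i' hii z hz h0
      rw [hev] at h0 ⊢
      exact hdj i i' hii z hz h0)
    m hm1
    (by
      intro i τ hτ n hn
      rw [hmapmap] at hτ ⊢
      have hτi : IsIntegral K τ := Algebra.IsIntegral.isIntegral τ
      have hdvd : minpoly K τ ∣
          MvPolynomial.aeval f (MvPolynomial.map (algebraMap (𝓞 K) K) (B i)) := by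
        refine minpoly.dvd K τ ?_
        rw [IsRoot.def, eval_map] at hτ
        exact hτ
      have h1 := horb i (minpoly K τ) (minpoly.irreducible hτi) (fun _ => hdvd) n hn 0
      have h2 : (minpoly K τ ^ n).map g ∣
          (MvPolynomial.aeval f (MvPolynomial.map (algebraMap (𝓞 K) K) (B i))).map g :=
        Polynomial.map_dvd g h1
      refine dvd_trans ?_ h2
      rw [Polynomial.map_pow]
      refine pow_dvd_pow_of_dvd ?_ n
      rw [dvd_iff_isRoot, IsRoot.def, eval_map]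
      exact minpoly.aeval K τ)
    hcf
  have hinj : Function.Injective g := g.injective
  have hconst : ∀ j : Fin 2, ∃ c : K, f j = C c := by
    intro j
    have hd : derivative ((f j).map g) = 0 := by
      fin_cases j
      · exact hd0
      · exact hd1
    rw [derivative_map] at hd
    have hd' : derivative (f j) = 0 :=
      Polynomial.map_injective g hinj (hd.trans (Polynomial.map_zero g).symm)
    exact ⟨_, eq_C_of_derivative_eq_zero hd'⟩
  choose c hc using hconst
  intro n n' j j'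
  obtain ⟨a, _, ha⟩ := hf n
  obtain ⟨b, _, hb⟩ := hf n'
  rw [ha, ha, hb, hb]
  have e1 : ∀ (j : Fin 2) (n : ℕ), (f j).eval (n : K) = c j := by
    intro j n
    rw [hc j, eval_C]
  have e2 : ∀ (j : Fin (1 + 1)) (n : ℕ), (f j).eval (n : K) = c j := e1
  rw [e2, e2, e2, e2]
  ring

end Pool.Agent.T6.H54.PM
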