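import Mathlib
import Pool.Agent.T6.H54.PM.Rep

set_option autoImplicit false
set_option linter.unusedSectionVars false

/-!
# Finite chains of points which are periodic modulo primes
-/

namespace Pool.Agent.T6.H54.PM

open NumberField Polynomial Finset Height Pool.Agent.TH409.SH

variable {K : Type} [Field K] [NumberField K] {N : ℕ}

/-- `x` and `y` are homogeneous coordinates of the same point -/
def Same (x y : Fin (N + 1) → K) : Prop := ∃ c : K, c ≠ 0 ∧ ∀ i, x i = c * y i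

theorem Same.symm {x y : Fin (N + 1) → K} (h : Same x y) : Same y x := by
  obtain ⟨c, hc, h⟩ := h
  exact ⟨c⁻¹, inv_ne_zero hc, fun i => by rw [h i, ← mul_assoc, inv_mul_cancel₀ hc, one_mul]⟩

theorem Same.trans {x y z : Fin (N + 1) → K} (h : Same x y) (h' : Same y z) : Same x z := by
  obtain ⟨c, hc, h⟩ := h
  obtain ⟨d, hd, h'⟩ := h'
  exact ⟨c * d, mul_ne_zero hc hd, fun i => by rw [h i, h' i, mul_assoc]⟩

theorem Same.rfl' (x : Fin (N + 1) → K) : Same x x := ⟨1, one_ne_zero, fun i => by rw [one_mul]⟩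

theorem same_of_par {x y : Fin (N + 1) → K} (hx : x ≠ 0) (hy : y ≠ 0)
    (h : ∀ i j, x i * y j = x j * y i) : Same x y := by
  obtain ⟨j, hj⟩ := Function.ne_iff.1 hy
  have hj' : y j ≠ 0 := hj
  have hxj : x j ≠ 0 := by
    intro h0
    apply hx
    funext i
    have := h i j
    rw [h0, zero_mul] at this
    exact (mul_eq_zero.1 this).resolve_right hj'
  refine ⟨x j / y j, div_ne_zero hxj hj', fun i => ?_⟩
  rw [div_mul_eq_mul_div, ← h i j]
  field_simp

theorem CongrMod.same {p : ℕ} {x y x₁ y₁ : Fin (N + 1) → K} (h : CongrMod p x y) (hx : Same x₁ x)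
    (hy : Same y₁ y) : CongrMod p x₁ y₁ := by
  obtain ⟨a, b, x', y', ha, hb, hx', hy', hu, hxy⟩ := h
  obtain ⟨c, hc, hx⟩ := hx.symm
  obtain ⟨d, hd, hy⟩ := hy.symm
  exact ⟨a * c, b * d, x', y', mul_ne_zero ha hc, mul_ne_zero hb hd,
    fun i => by rw [hx' i, hx i, mul_assoc], fun i => by rw [hy' i, hy i, mul_assoc], hu, hxy⟩

theorem ah_same {x y : Fin (N + 1) → K} (h : Same x y) : ah K x = ah K y := by
  obtain ⟨c, hc, h⟩ := h
  have e : x = c • y := funext fun i => h i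
  unfold ah
  rw [e, logHeight_smul_eq_logHeight y hc]

/-- A chain `P 0, …, P T` of points of projective space (given by homogeneous coordinates in `K`) of
growth `c`, which is periodic modulo the primes `p ∈ S`, `p₀ ≤ p`: the absolute logarithmic height of
`P n` is at most `c n + C₀`, and `P (n + p)` and `P n` are congruent modulo `p`, for all indices up to
`T`. -/
structure Chain (S : Set ℕ) (p₀ : ℕ) (c C₀ : ℝ) (T : ℕ) (P : ℕ → Fin (N + 1) → K) : Prop where
  ne : ∀ n ≤ T, P n ≠ 0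
  per : ∀ p ∈ S, p₀ ≤ p → ∀ n, n + p ≤ T → CongrMod p (P (n + p)) (P n)
  ht : ∀ n : ℕ, n ≤ T → ah K (P n) ≤ c * n + C₀

theorem Chain.mono {S : Set ℕ} {p₀ : ℕ} {c C₀ : ℝ} {T T' : ℕ} {P : ℕ → Fin (N + 1) → K}
    (h : Chain S p₀ c C₀ T P) (hT : T' ≤ T) : Chain S p₀ c C₀ T' P :=
  ⟨fun n hn => h.ne n (hn.trans hT), fun p hp hp0 n hn => h.per p hp hp0 n (hn.trans hT),
    fun n hn => h.ht n (hn.trans hT)⟩

/-- a limit of chains -/
theorem limit {S : Set ℕ} {p₀ : ℕ} {c C₀ : ℝ} (P : ℕ → ℕ → Fin (N + 1) → K)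
    (hP : ∀ T, Chain S p₀ c C₀ T (P T)) :
    ∃ Q : ℕ → Fin (N + 1) → K, (∀ T, Chain S p₀ c C₀ T Q) ∧
      ∀ k : ℕ, ∃ T, k ≤ T ∧ ∀ n ≤ k, Same (P T n) (Q n) := by
  classical
  set U : Ultrafilter ℕ := Filter.hyperfilter ℕ with hU
  have hge : ∀ k : ℕ, ∀ᶠ T in (U : Filter ℕ), k ≤ T := fun k =>
    (Filter.hyperfilter_le_cofinite.trans Nat.cofinite_eq_atTop.le) (Filter.eventually_ge_atTop k)
  have hex : ∀ n : ℕ, ∃ y : Fin (N + 1) → K, y ≠ 0 ∧ ∀ᶠ T in (U : Filter ℕ), Same (P T n) y := by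
    intro n
    set A : Set (Projectivization K (Fin (N + 1) → K)) :=
      {Q | ∃ (x : Fin (N + 1) → K) (h : x ≠ 0), Q = Projectivization.mk K x h ∧
        ah K x ≤ c * n + C₀} with hA
    have hfin : A.Finite := finite_of_bound K (c * n + C₀) A fun Q hQ => hQ
    have h1 : ∀ᶠ T in (U : Filter ℕ), ∃ Q ∈ A, ∃ h : P T n ≠ 0, Q = Projectivization.mk K (P T n) h := by
      filter_upwards [hge n] with T hT
      exact ⟨_, ⟨P T n, (hP T).ne n hT, rfl, (hP T).ht n hT⟩, (hP T).ne n hT, rfl⟩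
    obtain ⟨Q, hQA, hQ⟩ := (Ultrafilter.eventually_exists_mem_iff hfin).1 h1
    obtain ⟨y, hy, hQy, _⟩ := hQA
    refine ⟨y, hy, ?_⟩
    filter_upwards [hQ] with T hT
    obtain ⟨h, hT⟩ := hT
    rw [hQy] at hT
    obtain ⟨a, ha⟩ := (Projectivization.mk_eq_mk_iff K _ _ h hy).1 hT.symm
    exact ⟨a, a.ne_zero, fun i => (congrFun ha i).symm⟩
  choose Q hQ0 hQ using hex
  refine ⟨Q, fun T => ⟨fun n _ => hQ0 n, ?_, ?_⟩, ?_⟩
  · intro p hp hp0 n _
    obtain ⟨T', h1, h2, h3⟩ := ((hQ (n + p)).and ((hQ n).and (hge (n + p)))).exists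
    exact ((hP T').per p hp hp0 n h3).same h1.symm h2.symm
  · intro n _
    obtain ⟨T', h1, h2⟩ := ((hQ n).and (hge n)).exists
    rw [← ah_same h1]
    exact (hP T').ht n h2
  · intro k
    have h1 : ∀ᶠ T in (U : Filter ℕ), ∀ n ∈ Finset.range (k + 1), Same (P T n) (Q n) :=
      (Filter.eventually_all_finset _).2 fun n _ => hQ n
    obtain ⟨T, h2, h3⟩ := (h1.and (hge k)).exists
    exact ⟨T, h3, fun n hn => h2 n (Finset.mem_range.2 (Nat.lt_succ_of_le hn))⟩

/-- two chains which agree up to a large index agree at the next one -/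
theorem rigid {S : Set ℕ} (hS : ∀ p ∈ S, p.Prime) {δ : ℝ} (hδ : 0 < δ) {n₀ : ℕ}
    (hwt : ∀ n : ℕ, n₀ ≤ n → δ * n ≤ wt S n) (p₀ : ℕ) (C₀ : ℝ) (N : ℕ) :
    ∃ J : ℕ, ∀ j ≥ J, ∀ P P' : ℕ → Fin (N + 1) → K, Chain S p₀ ((δ / 16) ^ 3) C₀ j P →
      Chain S p₀ ((δ / 16) ^ 3) C₀ j P' → (∀ n < j, Same (P n) (P' n)) → Same (P j) (P' j) := by
  classical
  have hδ1 : δ ≤ Real.log 4 := by
    have h1 := hwt (n₀ + 1) (by omega)
    have h2 := wt_le hS (n₀ + 1)
    have h3 : (0 : ℝ) < ((n₀ + 1 : ℕ) : ℝ) := by exact_mod_cast Nat.succ_pos n₀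
    exact le_of_mul_le_mul_right (h1.trans h2) h3
  have hl4 : Real.log 4 < 1.4 := by
    have : Real.log 4 = 2 * Real.log 2 := by
      rw [show (4 : ℝ) = 2 ^ 2 by norm_num, Real.log_pow]
      norm_num
    have h2 := Real.log_two_lt_d9
    linarith
  set c : ℝ := (δ / 16) ^ 3 with hc
  have hc2 : 2 * c ≤ δ / 2 := by
    have hδ2 : δ < 1.4 := by linarith
    have h1 : δ ^ 2 ≤ 1.4 ^ 2 := by gcongr
    have e : 2 * c = δ * δ ^ 2 / 2048 := by rw [hc]; ring
    rw [e]
    nlinarith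
  obtain ⟨C, M, hC, hrep⟩ := Pool.Agent.R366.NF.rep' (n := N) K
  set p₁ : ℕ := max p₀ (M + 1) with hp₁
  obtain ⟨J₀, hJ₀⟩ := exists_nat_gt ((Real.log 4 * p₁ + Real.log 2 + 2 * Real.log C + 2 * C₀) * (2 / δ))
  refine ⟨J₀ + n₀ + 1, fun j hj P P' hP hP' hag => ?_⟩
  have hPj := hP.ne j le_rfl
  have hPj' := hP'.ne j le_rfl
  obtain ⟨t, ht, X, hX, hXs, -⟩ := hrep (P j) hPj
  obtain ⟨t', ht', Y, hY, hYs, -⟩ := hrep (P' j) hPj'
  have hpar : ∀ i k, X i * Y k = X k * Y i := by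
    intro i k
    by_contra hne
    have hμ : X i * Y k - X k * Y i ≠ 0 := sub_ne_zero.2 hne
    have hdvd : ((∏ p ∈ Q S p₁ 0 j, p : ℕ) : 𝓞 K) ∣ X i * Y k - X k * Y i := by
      refine prod_dvd (fun p hp => hS p (mem_Q.1 hp).2.1) fun p hp => ?_
      obtain ⟨hp1, hp2, hp3, hp4⟩ := mem_Q.1 hp
      have hpp := hS p hp2
      have hp0 : p₀ ≤ p := (le_max_left _ _).trans hp3
      have hpM : M < p := lt_of_lt_of_le (Nat.lt_succ_self M) ((le_max_right _ _).trans hp3)
      have hjp : j - p + p = j := Nat.sub_add_cancel hp1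
      have hlt : j - p < j := by have := hpp.pos; omega
      obtain ⟨s, hs, Z, hZ, -, D, hD0, hDM, hmem⟩ := hrep (P (j - p)) (hP.ne _ hlt.le)
      have h1 : ∀ a b, (p : 𝓞 K) ∣ X a * Z b - X b * Z a := by
        intro a b
        have := hP.per p hp2 hp0 (j - p) (by rw [hjp])
        rw [hjp] at this
        exact minors this hX hZ a b
      have h2 : ∀ a b, (p : 𝓞 K) ∣ Y a * Z b - Y b * Z a := by
        intro a b
        have := hP'.per p hp2 hp0 (j - p) (by rw [hjp])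
        rw [hjp] at this
        exact minors (this.same (Same.rfl' _) (hag _ hlt)) hY hZ a b
      -- `Z` is unimodular modulo `p`
      have hcop : IsCoprime ((D : ℕ) : ℤ) ((p : ℕ) : ℤ) := by
        rw [Nat.isCoprime_iff_coprime]
        refine ((Nat.Prime.coprime_iff_not_dvd hpp).2 fun hd => ?_).symm
        have := Nat.le_of_dvd hD0 hd
        omega
      obtain ⟨a, b, hab⟩ := hcop
      obtain ⟨r, hr⟩ := Ideal.mem_span_range_iff_exists_fun.1 hmem
      have h3 := congrArg (Int.cast : ℤ → 𝓞 K) hab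
      push_cast at h3
      have hl : ∀ V : Fin (N + 1) → 𝓞 K, (∀ a b, (p : 𝓞 K) ∣ V a * Z b - V b * Z a) →
          ∀ i, (p : 𝓞 K) ∣ (D : 𝓞 K) * V i - (∑ k, r k * V k) * Z i := by
        intro V hV i
        have e : (D : 𝓞 K) * V i - (∑ k, r k * V k) * Z i =
            ∑ k, r k * (V i * Z k - V k * Z i) := by
          rw [← hr, Finset.sum_mul, Finset.sum_mul, ← Finset.sum_sub_distrib]
          exact Finset.sum_congr rfl fun k _ => by ring
        rw [e]
        exact Finset.dvd_sum fun k _ => Dvd.dvd.mul_left (hV i k) _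
      have hX1 := hl X h1
      have hY1 := hl Y h2
      have h4 : (p : 𝓞 K) ∣ (D : 𝓞 K) * (D : 𝓞 K) * (X i * Y k - X k * Y i) := by
        have e : (D : 𝓞 K) * (D : 𝓞 K) * (X i * Y k - X k * Y i) =
            ((D : 𝓞 K) * X i - (∑ l, r l * X l) * Z i) * ((D : 𝓞 K) * Y k) +
            ((∑ l, r l * X l) * Z i) * ((D : 𝓞 K) * Y k - (∑ l, r l * Y l) * Z k) -
            ((D : 𝓞 K) * X k - (∑ l, r l * X l) * Z k) * ((D : 𝓞 K) * Y i) -
            ((∑ l, r l * X l) * Z k) * ((D : 𝓞 K) * Y i - (∑ l, r l * Y l) * Z i) := by ring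
        rw [e]
        refine dvd_sub (dvd_sub (dvd_add ?_ ?_) ?_) ?_
        · exact Dvd.dvd.mul_right (hX1 i) _
        · exact Dvd.dvd.mul_left (hY1 k) _
        · exact Dvd.dvd.mul_right (hX1 k) _
        · exact Dvd.dvd.mul_left (hY1 i) _
      have e : X i * Y k - X k * Y i = (a : 𝓞 K) * (a : 𝓞 K) *
          ((D : 𝓞 K) * (D : 𝓞 K) * (X i * Y k - X k * Y i)) +
          (p : 𝓞 K) * ((b : 𝓞 K) * (1 + (a : 𝓞 K) * (D : 𝓞 K)) * (X i * Y k - X k * Y i)) := by
        linear_combination (-(1 + (a : 𝓞 K) * (D : 𝓞 K)) * (X i * Y k - X k * Y i)) * h3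
      rw [e]
      exact dvd_add (Dvd.dvd.mul_left h4 _) (Dvd.intro _ rfl)
    have hle := le_house hμ hdvd
    -- upper bound
    have hsize : ∀ (x : Fin (N + 1) → K) (Z : Fin (N + 1) → 𝓞 K), ah K x ≤ c * j + C₀ →
        (∀ (w : InfinitePlace K) (l : Fin (N + 1)), w ((Z l : 𝓞 K) : K) ≤
          C * mulHeight x ^ (1 / (Module.finrank ℚ K : ℝ))) → ∀ l,
          house ((Z l : 𝓞 K) : K) ≤ C * Real.exp (c * j + C₀) := by
      intro x Z hx hZ l
      refine house_le_of_places (by positivity) fun w => ?_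
      refine (hZ w l).trans ?_
      rw [mulHeight_root]
      gcongr
    have hXh := hsize (P j) X (hP.ht j le_rfl) hXs
    have hYh := hsize (P' j) Y (hP'.ht j le_rfl) hYs
    have hup : house ((X i * Y k - X k * Y i : 𝓞 K) : K) ≤ 2 * (C * Real.exp (c * j + C₀)) ^ 2 := by
      have e1 : ((X i * Y k - X k * Y i : 𝓞 K) : K) =
          (X i : K) * (Y k : K) + (-1 : ℤ) * ((X k : K) * (Y i : K)) := by
        have : ((X i * Y k - X k * Y i : 𝓞 K) : K) = (X i : K) * (Y k : K) - (X k : K) * (Y i : K) := by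
          refine (map_sub (algebraMap (𝓞 K) K) _ _).trans ?_
          rw [map_mul, map_mul]
        rw [this]
        push_cast
        ring
      rw [e1]
      refine (house_add_le _ _).trans ?_
      have hb : 0 ≤ C * Real.exp (c * j + C₀) := by positivity
      have h1 : house ((X i : K) * (Y k : K)) ≤ (C * Real.exp (c * j + C₀)) ^ 2 := by
        rw [pow_two]
        exact (house_mul_le _ _).trans (mul_le_mul (hXh i) (hYh k) (house_nonneg _) hb)
      have h2 : house (((-1 : ℤ) : K) * ((X k : K) * (Y i : K))) ≤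
          (C * Real.exp (c * j + C₀)) ^ 2 := by
        refine (house_mul_le _ _).trans ?_
        rw [house_intCast]
        have h3 : house ((X k : K) * (Y i : K)) ≤ (C * Real.exp (c * j + C₀)) ^ 2 := by
          rw [pow_two]
          exact (house_mul_le _ _).trans (mul_le_mul (hXh k) (hYh i) (house_nonneg _) hb)
        push_cast
        rw [abs_neg, abs_one, one_mul]
        exact h3
      linarith
    have hprod : (0 : ℝ) < ((∏ p ∈ Q S p₁ 0 j, p : ℕ) : ℝ) := by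
      have : 0 < ∏ p ∈ Q S p₁ 0 j, p :=
        Finset.prod_pos fun p hp => (hS p (mem_Q.1 hp).2.1).pos
      exact_mod_cast this
    have hlog := Real.log_le_log hprod (hle.trans hup)
    have hlow := log_Q hS p₁ 0 j
    have hw := hwt j (by omega)
    have e2 : Real.log (2 * (C * Real.exp (c * j + C₀)) ^ 2) =
        Real.log 2 + 2 * (Real.log C + (c * j + C₀)) := by
      rw [Real.log_mul (by norm_num) (by positivity), Real.log_pow,
        Real.log_mul hC.ne' (Real.exp_pos _).ne', Real.log_exp]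
      push_cast
      ring
    rw [e2] at hlog
    have hj' : (J₀ : ℝ) ≤ j := by exact_mod_cast (by omega : J₀ ≤ j)
    have hbig : (Real.log 4 * p₁ + Real.log 2 + 2 * Real.log C + 2 * C₀) * (2 / δ) < j :=
      hJ₀.trans_le hj'
    have hbig' : Real.log 4 * p₁ + Real.log 2 + 2 * Real.log C + 2 * C₀ < δ / 2 * j := by
      rw [mul_div_assoc', div_lt_iff₀ hδ] at hbig
      linarith
    have hcj : 2 * (c * (j : ℝ)) ≤ δ / 2 * j := by
      have : (2 * c) * (j : ℝ) ≤ δ / 2 * j := by gcongr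
      linarith
    simp only [Nat.cast_zero, add_zero] at hlow
    linarith
  refine same_of_par hPj hPj' fun i k => ?_
  have h1 := congrArg (algebraMap (𝓞 K) K) (hpar i k)
  rw [map_mul, map_mul] at h1
  have h2 : (t * P j i) * (t' * P' j k) = (t * P j k) * (t' * P' j i) := by
    rw [← hX, ← hX, ← hY, ← hY]
    exact h1
  have h3 : (t * t') * (P j i * P' j k) = (t * t') * (P j k * P' j i) := by
    linear_combination h2
  exact mul_left_cancel₀ (mul_ne_zero ht ht') h3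

/-- **Finite chains.** -/
theorem finite_chains {S : Set ℕ} (hS : ∀ p ∈ S, p.Prime) {δ : ℝ} (hδ : 0 < δ) {n₀ : ℕ}
    (hwt : ∀ n : ℕ, n₀ ≤ n → δ * n ≤ wt S n) (p₀ : ℕ) (C₀ : ℝ) (K : Type) [Field K]
    [NumberField K] (N : ℕ) :
    ∃ 𝓕 : Set (Fin (N + 1) → (𝓞 K)[X]), 𝓕.Finite ∧
      (∀ F ∈ 𝓕, ∃ u : Fin (N + 1) → K[X], ∑ j, u j * (F j).map (algebraMap (𝓞 K) K) = 1) ∧
      ∃ T₀ : ℕ, ∀ T ≥ T₀, ∀ P : ℕ → Fin (N + 1) → K, Chain S p₀ ((δ / 16) ^ 3) C₀ T P →
        ∃ F ∈ 𝓕, ∀ n ≤ T, Same (P n) (fun j => (((F j).eval (n : 𝓞 K) : 𝓞 K) : K)) := by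
  classical
  set c : ℝ := (δ / 16) ^ 3 with hc
  obtain ⟨J, hJ⟩ := rigid (K := K) hS hδ hwt p₀ C₀ N
  -- agreement up to `J` implies agreement
  have hagree : ∀ T, ∀ P P' : ℕ → Fin (N + 1) → K, Chain S p₀ c C₀ T P →
      Chain S p₀ c C₀ T P' → (∀ n ≤ J, n ≤ T → Same (P n) (P' n)) →
      ∀ n ≤ T, Same (P n) (P' n) := by
    intro T P P' hP hP' h n
    induction n using Nat.strong_induction_on with
    | _ n ih =>
      intro hn
      rcases le_or_gt n J with h1 | h1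
      · exact h n h1 hn
      · exact hJ n h1.le P P' (hP.mono hn) (hP'.mono hn) fun k hk => ih k hk (by omega)
  -- infinite chains are polynomial
  have hinf : ∀ Q : ℕ → Fin (N + 1) → K, (∀ T, Chain S p₀ c C₀ T Q) →
      ∃ F : Fin (N + 1) → (𝓞 K)[X],
        (∃ u : Fin (N + 1) → K[X], ∑ j, u j * (F j).map (algebraMap (𝓞 K) K) = 1) ∧
        ∀ n : ℕ, Same (Q n) (fun j => (((F j).eval (n : 𝓞 K) : 𝓞 K) : K)) := by
    intro Q hQ
    exact poly hS hδ hwt (p₀ := p₀) Q (fun n => (hQ n).ne n le_rfl)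
      (fun p hp hp0 n => (hQ (n + p)).per p hp hp0 n le_rfl) C₀ (fun n => (hQ n).ht n le_rfl)
  -- the finitely many initial segments
  set A : ℕ → Set (Projectivization K (Fin (N + 1) → K)) := fun n =>
    {Q | ∃ (x : Fin (N + 1) → K) (h : x ≠ 0), Q = Projectivization.mk K x h ∧
        ah K x ≤ c * n + C₀} with hA
  have hAfin : ∀ n, (A n).Finite := fun n => finite_of_bound K (c * n + C₀) (A n) fun Q hQ => hQ
  set R : Set (Fin (J + 1) → Projectivization K (Fin (N + 1) → K)) :=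
    {t | ∃ (Q : ℕ → Fin (N + 1) → K) (hQ : ∀ T, Chain S p₀ c C₀ T Q),
      t = fun n : Fin (J + 1) => Projectivization.mk K (Q n) ((hQ n).ne n le_rfl)} with hR
  have hRfin : R.Finite := by
    refine (Set.Finite.pi' (fun n : Fin (J + 1) => hAfin n)).subset ?_
    rintro t ⟨Q, hQ, rfl⟩ n
    exact ⟨Q n, (hQ n).ne n le_rfl, rfl, (hQ n).ht n le_rfl⟩
  choose! Q hQ hQt using fun (t : Fin (J + 1) → Projectivization K (Fin (N + 1) → K))
    (ht : t ∈ R) => ht
  choose! F hFu hF using fun (t : Fin (J + 1) → Projectivization K (Fin (N + 1) → K))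
    (ht : t ∈ R) => hinf (Q t) (hQ t ht)
  refine ⟨F '' R, hRfin.image _, ?_, ?_⟩
  · rintro _ ⟨t, ht, rfl⟩
    exact hFu t ht
  · by_contra hcon
    push Not at hcon
    choose T hT P hP hbad using hcon
    obtain ⟨Q', hQ', hlim⟩ := limit P fun T' => (hP T').mono (hT T')
    obtain ⟨T', hT', hsame⟩ := hlim J
    set t : Fin (J + 1) → Projectivization K (Fin (N + 1) → K) :=
      fun n : Fin (J + 1) => Projectivization.mk K (Q' n) ((hQ' n).ne n le_rfl) with ht
    have htR : t ∈ R := ⟨Q', hQ', rfl⟩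
    obtain ⟨n, hn, hne⟩ := hbad T' (F t) ⟨t, htR, rfl⟩
    apply hne
    have h1 : ∀ n ≤ T T', Same (P T' n) (Q t n) := by
      refine hagree (T T') _ _ (hP T') (hQ t htR (T T')) fun n hn _ => ?_
      refine (hsame n hn).trans ?_
      have h2 := congrFun (hQt t htR) (⟨n, by omega⟩ : Fin (J + 1))
      simp only [ht] at h2
      obtain ⟨a, ha⟩ := (Projectivization.mk_eq_mk_iff K _ _ _ _).1 h2
      exact ⟨a, a.ne_zero, fun i => (congrFun ha i).symm⟩
    exact (h1 n hn).trans (hF t htR n)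

end Pool.Agent.T6.H54.PM
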