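import Mathlib
import Pool.Agent.T6.H54.PM.Camp
import Pool.Agent.T6.H54.PM.Fin

set_option autoImplicit false
set_option linter.unusedSectionVars false

/-!
# Finite chains of integral points of C-pairs, periodic modulo primes
-/

namespace Pool.Agent.T6.H54.PM

open NumberField Polynomial IsDedekindDomain Pool.Agent.TH409.SH

variable {K : Type} [Field K] [NumberField K]

/-- The C-pair `(X, Δ)` over the number field `K`: `X` is the set of zeros of the forms of `FF`, `D i`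
the set of zeros of the forms `B i l`, `Δ` has the multiplicities `m i`. The polynomial curve
`t ↦ f (t)` in projective space (a vector of polynomials without common zeros) is an orbifold curve in
the pair: it lies in `X`, and every irreducible polynomial which divides the pull-backs of all
equations of `D i` divides them at least `m i` times (that is, the pull-back of `D i` to the affine
line has multiplicity at least `m i` at each of its points). -/
def OrbifoldCurve {N q w : ℕ} (FF : Set (MvPolynomial (Fin (N + 1)) (𝓞 K)))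
    (B : Fin q → Fin w → MvPolynomial (Fin (N + 1)) (𝓞 K)) (m : Fin q → ℕ∞)
    (f : Fin (N + 1) → K[X]) : Prop :=
  (∃ u : Fin (N + 1) → K[X], ∑ j, u j * f j = 1) ∧
  (∀ G ∈ FF, MvPolynomial.aeval f (MvPolynomial.map (algebraMap (𝓞 K) K) G) = 0) ∧
  ∀ i (π : K[X]), Irreducible π →
    (∀ l, π ∣ MvPolynomial.aeval f (MvPolynomial.map (algebraMap (𝓞 K) K) (B i l))) →
    ∀ n : ℕ, (n : ℕ∞) ≤ m i →
      ∀ l, π ^ n ∣ MvPolynomial.aeval f (MvPolynomial.map (algebraMap (𝓞 K) K) (B i l))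

theorem IsIntegralPoint.same {S₀ : Set (HeightOneSpectrum (𝓞 K))} {N q w : ℕ}
    {B : Fin q → Fin w → MvPolynomial (Fin (N + 1)) (𝓞 K)} {m : Fin q → ℕ∞}
    {P Q : Fin (N + 1) → K} (h : IsIntegralPoint S₀ B m P) (hQ : Same Q P) :
    IsIntegralPoint S₀ B m Q := by
  obtain ⟨c, hc, hQ⟩ := hQ
  intro v hv a x ha hx hprim
  exact h v hv (a * c) x (mul_ne_zero ha hc) (fun j => by rw [hx j, hQ j, mul_assoc]) hprim

theorem zero_same {N : ℕ} {G : MvPolynomial (Fin (N + 1)) (𝓞 K)} {e : ℕ} (he : G.IsHomogeneous e)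
    {P Q : Fin (N + 1) → K} (h : MvPolynomial.aeval P G = 0) (hQ : Same Q P) :
    MvPolynomial.aeval Q G = 0 := by
  obtain ⟨c, hc, hQ⟩ := hQ
  have e1 : Q = fun i => c * P i := funext hQ
  rw [e1, Pool.Agent.H458.Sp.aeval_smul_homog G he c, h, mul_zero]

/-- a polynomial curve whose values at the natural numbers are integral points of the pair is an
orbifold curve -/
theorem orb_of_values {N q w : ℕ} (FF : Set (MvPolynomial (Fin (N + 1)) (𝓞 K)))
    (B : Fin q → Fin w → MvPolynomial (Fin (N + 1)) (𝓞 K)) (m : Fin q → ℕ∞)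
    (S₀ : Set (HeightOneSpectrum (𝓞 K))) (hS₀ : S₀.Finite) (F : Fin (N + 1) → (𝓞 K)[X])
    (hu : ∃ u : Fin (N + 1) → K[X], ∑ j, u j * (F j).map (algebraMap (𝓞 K) K) = 1)
    (hX : ∀ n : ℕ, ∀ G ∈ FF,
      MvPolynomial.aeval (fun j => (((F j).eval (n : 𝓞 K) : 𝓞 K) : K)) G = 0)
    (hint : ∀ n : ℕ, IsIntegralPoint S₀ B m (fun j => (((F j).eval (n : 𝓞 K) : 𝓞 K) : K))) :
    OrbifoldCurve FF B m (fun j => (F j).map (algebraMap (𝓞 K) K)) := by
  classical
  obtain ⟨E, hE, u', hu'⟩ := prim_at F hu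
  refine ⟨hu, ?_, ?_⟩
  · intro G hG
    rw [← map_aeval']
    have h0 : MvPolynomial.aeval F G = 0 := by
      refine zero_of_nat _ fun n => ?_
      rw [eval_aeval']
      have h1 := hX n G hG
      have h4 : algebraMap (𝓞 K) K (MvPolynomial.eval (fun j => (F j).eval (n : 𝓞 K)) G) = 0 := by
        rw [← h1]
        have h5 := MvPolynomial.aeval_algebraMap_apply K (fun j => (F j).eval (n : 𝓞 K)) G
        rw [MvPolynomial.aeval_eq_eval (fun j => (F j).eval (n : 𝓞 K))] at h5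
        exact h5.symm
      exact RingOfIntegers.coe_injective (h4.trans (map_zero _).symm)
    rw [h0, Polynomial.map_zero]
  · intro i π hπ hdiv n hn l
    rw [← map_aeval']
    have hfin : (S₀ ∪ {v : HeightOneSpectrum (𝓞 K) | v.asIdeal ∣ Ideal.span {E}}).Finite := by
      refine hS₀.union (Ideal.finite_factors ?_)
      rw [Ne, Ideal.zero_eq_bot, Ideal.span_singleton_eq_bot]
      exact hE
    refine mult_ge (fun l => MvPolynomial.aeval F (B i l)) _ hfin n ?_ π hπ ?_ l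
    · intro v hv k hk l'
      rw [Set.mem_union, not_or] at hv
      obtain ⟨hv1, hv2⟩ := hv
      rw [eval_aeval']
      refine hint k v hv1 1 (fun j => (F j).eval (k : 𝓞 K)) one_ne_zero ?_ ?_ i ?_ n hn l'
      · intro j
        rw [one_mul]
      · by_contra hcon
        push Not at hcon
        apply hv2
        rw [Set.mem_ofPred_eq, Ideal.dvd_span_singleton]
        have h1 := congrArg (eval (k : 𝓞 K)) hu'
        rw [eval_C, eval_finsetSum] at h1
        rw [← h1]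
        refine v.asIdeal.sum_mem fun j _ => ?_
        rw [eval_mul]
        exact v.asIdeal.mul_mem_left _ (hcon j)
      · intro l''
        rw [← eval_aeval']
        exact hk l''
    · intro l'
      rw [map_aeval']
      exact hdiv l'

/-- **Finite chains of integral points of a C-pair.** -/
theorem camp_fin {S : Set ℕ} (hS : ∀ p ∈ S, p.Prime) {δ : ℝ} (hδ : 0 < δ) {n₀ : ℕ}
    (hwt : ∀ n : ℕ, n₀ ≤ n → δ * n ≤ wt S n) (p₀ : ℕ) (C₀ : ℝ) {N : ℕ}
    (FF : Set (MvPolynomial (Fin (N + 1)) (𝓞 K))) (hFF : ∀ G ∈ FF, ∃ e, G.IsHomogeneous e)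
    {q w : ℕ} (B : Fin q → Fin w → MvPolynomial (Fin (N + 1)) (𝓞 K)) (m : Fin q → ℕ∞)
    (S₀ : Set (HeightOneSpectrum (𝓞 K))) (hS₀ : S₀.Finite) :
    ∃ 𝓕 : Set (Fin (N + 1) → K[X]), 𝓕.Finite ∧ (∀ f ∈ 𝓕, OrbifoldCurve FF B m f) ∧
      ∃ T₀ : ℕ, ∀ T ≥ T₀, ∀ P : ℕ → Fin (N + 1) → K, Chain S p₀ ((δ / 16) ^ 3) C₀ T P →
        (∀ n ≤ T, (∀ G ∈ FF, MvPolynomial.aeval (P n) G = 0) ∧ IsIntegralPoint S₀ B m (P n)) →
        ∃ f ∈ 𝓕, ∀ n ≤ T, Same (P n) (fun j => (f j).eval (n : K)) := by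
  classical
  obtain ⟨𝓕, hfin, hu, T₀, hT₀⟩ := finite_chains hS hδ hwt p₀ C₀ K N
  -- good values
  set good : (Fin (N + 1) → (𝓞 K)[X]) → ℕ → Prop := fun F n =>
    (∀ G ∈ FF, MvPolynomial.aeval (fun j => (((F j).eval (n : 𝓞 K) : 𝓞 K) : K)) G = 0) ∧
    IsIntegralPoint S₀ B m (fun j => (((F j).eval (n : 𝓞 K) : 𝓞 K) : K)) with hgood
  have hbad : ∀ F : Fin (N + 1) → (𝓞 K)[X], ∃ n : ℕ, good F n → ∀ n, good F n := by
    intro F
    by_cases h : ∀ n, good F n
    · exact ⟨0, fun _ => h⟩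
    · push Not at h
      obtain ⟨n, hn⟩ := h
      exact ⟨n, fun h' => absurd h' hn⟩
  choose nF hnF using hbad
  obtain ⟨M, hM⟩ := (hfin.image nF).bddAbove
  refine ⟨(fun F j => (F j).map (algebraMap (𝓞 K) K)) '' {F | F ∈ 𝓕 ∧ ∀ n, good F n},
    (hfin.subset fun F hF => hF.1).image _, ?_, max T₀ M, ?_⟩
  · rintro _ ⟨F, ⟨hF, hg⟩, rfl⟩
    exact orb_of_values FF B m S₀ hS₀ F (hu F hF) (fun n => (hg n).1) (fun n => (hg n).2)
  · intro T hT P hP hPX
    obtain ⟨F, hF, hsame⟩ := hT₀ T ((le_max_left _ _).trans hT) P hP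
    have hn : nF F ≤ T := (hM ⟨F, hF, rfl⟩).trans ((le_max_right _ _).trans hT)
    refine ⟨_, ⟨F, ⟨hF, hnF F ⟨?_, ?_⟩⟩, rfl⟩, ?_⟩
    · intro G hG
      obtain ⟨e, he⟩ := hFF G hG
      exact zero_same he ((hPX _ hn).1 G hG) (hsame _ hn).symm
    · exact (hPX _ hn).2.same (hsame _ hn).symm
    · intro n hn
      have h1 := hsame n hn
      have e1 : (fun j => ((F j).map (algebraMap (𝓞 K) K)).eval (n : K)) =
          fun j => (((F j).eval (n : 𝓞 K) : 𝓞 K) : K) := by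
        funext j
        rw [Polynomial.eval_natCast_map (algebraMap (𝓞 K) K) (F j) n]
      rw [e1]
      exact h1

/-- polynomial orbifold curves in pairs on the line -/
theorem orb_line {q : ℕ} (B : Fin q → MvPolynomial (Fin 2) (𝓞 K)) (e : Fin q → ℕ)
    (hB : ∀ i, (B i).IsHomogeneous (e i))
    (hsm : ∀ i (z : Fin 2 → AlgebraicClosure K), z ≠ 0 → MvPolynomial.aeval z (B i) = 0 →
      ∃ j, MvPolynomial.aeval z (MvPolynomial.pderiv j (B i)) ≠ 0)
    (hdj : ∀ i i', i ≠ i' → ∀ z : Fin 2 → AlgebraicClosure K, z ≠ 0 →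
      MvPolynomial.aeval z (B i) = 0 → MvPolynomial.aeval z (B i') ≠ 0)
    (m : Fin q → ℕ∞) (hm1 : ∀ i, 1 ≤ m i) (hdeg : 2 ≤ ∑ i, cf (m i) * e i)
    (f : Fin 2 → K[X]) (hf : OrbifoldCurve (N := 1) ∅ (fun i (_ : Fin 1) => B i) m f) (j : Fin 2) :
    ∃ c : K, f j = C c := by
  classical
  obtain ⟨⟨u, hu⟩, -, horb⟩ := hf
  set L := AlgebraicClosure K with hL
  set g : K →+* L := algebraMap K L with hg
  set F : Fin 2 → L[X] := fun j => (f j).map g with hF
  have hmapmap : ∀ i, MvPolynomial.aeval F (MvPolynomial.map (algebraMap (𝓞 K) L) (B i)) =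
      (MvPolynomial.aeval f (MvPolynomial.map (algebraMap (𝓞 K) K) (B i))).map g := by
    intro i
    rw [map_aeval' (N := 1) g f, MvPolynomial.map_map]
    rfl
  have hcop : IsCoprime (F 0) (F 1) := by
    refine ⟨(u 0).map g, (u 1).map g, ?_⟩
    have h1 := congrArg (Polynomial.map g) hu
    rw [Polynomial.map_sum, Polynomial.map_one] at h1
    have h2 : ∑ j : Fin 2, (u j * f j).map g = (u 0 * f 0).map g + (u 1 * f 1).map g :=
      Fin.sum_univ_two _
    have h3 := h2.symm.trans h1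
    rw [Polynomial.map_mul, Polynomial.map_mul] at h3
    exact h3
  have hev : ∀ (z : Fin 2 → L) (A : MvPolynomial (Fin 2) (𝓞 K)),
      MvPolynomial.eval z (MvPolynomial.map (algebraMap (𝓞 K) L) A) = MvPolynomial.aeval z A := by
    intro z A
    rw [MvPolynomial.eval_map]
    rfl
  have hcf : 2 ≤ ∑ i, cf (m i) * (e i : ℝ) := hdeg
  obtain ⟨hd0, hd1⟩ := rh F hcop (fun i => MvPolynomial.map (algebraMap (𝓞 K) L) (B i)) e
    (fun i => (hB i).map _)
    (by
      intro i z hz h0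
      rw [hev] at h0
      obtain ⟨j, hj⟩ := hsm i z hz h0
      refine ⟨j, ?_⟩
      rw [MvPolynomial.pderiv_map, hev]
      exact hj)
    (by
      intro i i' hii z hz h0
      rw [hev] at h0 ⊢
      exact hdj i i' hii z hz h0)
    m hm1
    (by
      intro i τ hτ n hn
      rw [hmapmap] at hτ ⊢
      have hτi : IsIntegral K τ := Algebra.IsIntegral.isIntegral τ
      have hdvd : minpoly K τ ∣
          MvPolynomial.aeval f (MvPolynomial.map (algebraMap (𝓞 K) K) (B i)) := by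
        refine minpoly.dvd K τ ?_
        rw [IsRoot.def, eval_map] at hτ
        exact hτ
      have h1 := horb i (minpoly K τ) (minpoly.irreducible hτi) (fun _ => hdvd) n hn 0
      have h2 : (minpoly K τ ^ n).map g ∣
          (MvPolynomial.aeval f (MvPolynomial.map (algebraMap (𝓞 K) K) (B i))).map g :=
        Polynomial.map_dvd g h1
      refine dvd_trans ?_ h2
      rw [Polynomial.map_pow]
      refine pow_dvd_pow_of_dvd ?_ n
      rw [dvd_iff_isRoot, IsRoot.def, eval_map]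
      exact minpoly.aeval K τ)
    hcf
  have hd : derivative ((f j).map g) = 0 := by
    fin_cases j
    · exact hd0
    · exact hd1
  rw [derivative_map] at hd
  have hd' : derivative (f j) = 0 :=
    Polynomial.map_injective g g.injective (hd.trans (Polynomial.map_zero g).symm)
  exact ⟨_, eq_C_of_derivative_eq_zero hd'⟩

/-- **Finite chains of integral points of a C-pair on the line.** -/
theorem line_fin {S : Set ℕ} (hS : ∀ p ∈ S, p.Prime) {δ : ℝ} (hδ : 0 < δ) {n₀ : ℕ}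
    (hwt : ∀ n : ℕ, n₀ ≤ n → δ * n ≤ wt S n) (p₀ : ℕ) (C₀ : ℝ)
    {q : ℕ} (B : Fin q → MvPolynomial (Fin 2) (𝓞 K)) (e : Fin q → ℕ)
    (hB : ∀ i, (B i).IsHomogeneous (e i))
    (hsm : ∀ i (z : Fin 2 → AlgebraicClosure K), z ≠ 0 → MvPolynomial.aeval z (B i) = 0 →
      ∃ j, MvPolynomial.aeval z (MvPolynomial.pderiv j (B i)) ≠ 0)
    (hdj : ∀ i i', i ≠ i' → ∀ z : Fin 2 → AlgebraicClosure K, z ≠ 0 →
      MvPolynomial.aeval z (B i) = 0 → MvPolynomial.aeval z (B i') ≠ 0)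
    (m : Fin q → ℕ∞) (hm1 : ∀ i, 1 ≤ m i) (hdeg : 2 ≤ ∑ i, cf (m i) * e i)
    (S₀ : Set (HeightOneSpectrum (𝓞 K))) (hS₀ : S₀.Finite) :
    ∃ T₀ : ℕ, ∀ T ≥ T₀, ∀ P : ℕ → Fin 2 → K, Chain (N := 1) S p₀ ((δ / 16) ^ 3) C₀ T P →
      (∀ n ≤ T, IsIntegralPoint (N := 1) S₀ (fun i (_ : Fin 1) => B i) m (P n)) →
      ∀ n ≤ T, Same (N := 1) (P n) (P 0) := by
  obtain ⟨𝓕, hfin, horb, T₀, hT₀⟩ := camp_fin (N := 1) hS hδ hwt p₀ C₀ ∅
    (fun G hG => absurd hG (by simp)) (fun i (_ : Fin 1) => B i) m S₀ hS₀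
  refine ⟨T₀, fun T hT P hP hint n hn => ?_⟩
  obtain ⟨f, hf, hsame⟩ := hT₀ T hT P hP fun n hn => ⟨fun G hG => absurd hG (by simp), hint n hn⟩
  choose c hc using orb_line B e hB hsm hdj m hm1 hdeg f (horb f hf)
  refine (hsame n hn).trans (Same.trans ?_ (hsame 0 (Nat.zero_le _)).symm)
  refine ⟨1, one_ne_zero, fun j => ?_⟩
  have e1 : ∀ (j : Fin 2) (n : ℕ), (f j).eval (n : K) = c j := by
    intro j n
    rw [hc j, eval_C]
  have e2 : ∀ (j : Fin (1 + 1)) (n : ℕ), (f j).eval (n : K) = c j := e1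
  have e3 : (f j).eval (n : K) = 1 * (f j).eval ((0 : ℕ) : K) := by rw [e2, e2, one_mul]
  exact e3

end Pool.Agent.T6.H54.PM
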