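import Mathlib
import Pool.Agent.T6.H54.PM.CampFin

set_option autoImplicit false
set_option linter.unusedSectionVars false

/-!
# Chains of points, periodic modulo primes, on varieties without rational curves
-/

namespace Pool.Agent.T6.H54.PM

open NumberField Polynomial IsDedekindDomain Pool.Agent.TH409.SH Height

/-- **Chains on varieties without rational curves are constant, uniformly in the variety.** -/
theorem hyp_uniform {S : Set ℕ} (hS : ∀ p ∈ S, p.Prime) {δ : ℝ} (hδ : 0 < δ) {n₀ : ℕ}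
    (hwt : ∀ n : ℕ, n₀ ≤ n → δ * n ≤ wt S n) (p₀ : ℕ) (C₀ : ℝ) (K : Type) [Field K]
    [NumberField K] (N d : ℕ) :
    ∃ T₀ : ℕ, ∀ (k : Type) [Field k] [NumberField k] [Algebra k K]
      (FF : Set (MvPolynomial (Fin (N + 1)) (𝓞 k))), (∀ G ∈ FF, ∃ e ≤ d, G.IsHomogeneous e) →
      NoRatCurve FF → ∀ T ≥ T₀, ∀ P : ℕ → Fin (N + 1) → K, Chain S p₀ ((δ / 16) ^ 3) C₀ T P →
        (∀ n ≤ T, IsZero FF (P n)) → ∀ n ≤ T, Same (P n) (P 0) := by
  classical
  obtain ⟨𝓕, hfin, hu, T₀, hT₀⟩ := finite_chains hS hδ hwt p₀ C₀ K N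
  -- a bound for the degrees
  obtain ⟨D, hD⟩ : ∃ D : ℕ, ∀ F ∈ 𝓕, ∀ j, (F j).natDegree ≤ D := by
    obtain ⟨M, hM⟩ := (hfin.image fun F => ∑ j, (F j).natDegree).bddAbove
    refine ⟨M, fun F hF j => ?_⟩
    have h1 := hM ⟨F, hF, rfl⟩
    exact (Finset.single_le_sum (f := fun j => (F j).natDegree) (fun _ _ => Nat.zero_le _)
      (Finset.mem_univ j)).trans h1
  refine ⟨max T₀ (d * D), ?_⟩
  intro k _ _ _ FF hFF hno T hT P hP hX n hn
  obtain ⟨F, hF, hsame⟩ := hT₀ T ((le_max_left _ _).trans hT) P hP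
  have hTD : d * D ≤ T := (le_max_right _ _).trans hT
  set f : Fin (N + 1) → K[X] := fun j => (F j).map (algebraMap (𝓞 K) K) with hf
  have hfev : ∀ (n : ℕ) j, (f j).eval (n : K) = (((F j).eval (n : 𝓞 K) : 𝓞 K) : K) := by
    intro n j
    rw [hf]
    simp only
    rw [Polynomial.eval_natCast_map (algebraMap (𝓞 K) K) (F j) n]
  have hzero : ∀ G ∈ FF, MvPolynomial.aeval f (MvPolynomial.map (algebraMap (𝓞 k) k) G) = 0 := by
    intro G hG
    obtain ⟨e, hed, he⟩ := hFF G hG
    set G' : MvPolynomial (Fin (N + 1)) k := MvPolynomial.map (algebraMap (𝓞 k) k) G with hG'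
    have he' : G'.IsHomogeneous e := he.map _
    set Φ : K[X] := MvPolynomial.aeval f G' with hΦ
    have hΦd : Φ.natDegree ≤ e * D := by
      rw [hΦ, MvPolynomial.aeval_def, MvPolynomial.eval₂_eq']
      refine natDegree_sum_le_of_forall_le _ _ fun s hs => ?_
      have hs' := he' (MvPolynomial.mem_support_iff.1 hs)
      rw [Finsupp.weight_apply, Finsupp.sum_fintype _ _ (by simp)] at hs'
      simp only [Pi.one_apply, smul_eq_mul, mul_one] at hs'
      have h1 : (algebraMap k K[X] (MvPolynomial.coeff s G')) =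
          C (algebraMap k K (MvPolynomial.coeff s G')) := rfl
      rw [h1]
      refine (natDegree_C_mul_le _ _).trans ?_
      refine (natDegree_prod_le _ _).trans ?_
      rw [← hs', Finset.sum_mul]
      refine Finset.sum_le_sum fun j _ => ?_
      refine natDegree_pow_le.trans (Nat.mul_le_mul_left _ ?_)
      exact natDegree_map_le.trans (hD F hF j)
    by_contra hne
    have hval : ∀ n ≤ T, Φ.eval (n : K) = 0 := by
      intro n hn
      have h1 := MvPolynomial.comp_aeval_apply (R := k) f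
        ((Polynomial.aeval (n : K) : K[X] →ₐ[K] K).restrictScalars k) G'
      have h2 : ((Polynomial.aeval (n : K) : K[X] →ₐ[K] K).restrictScalars k)
          (MvPolynomial.aeval f G') = Φ.eval (n : K) := by
        rw [hΦ, AlgHom.restrictScalars_apply, coe_aeval_eq_eval]
      rw [h2] at h1
      rw [h1]
      have h3 := hX n hn G hG
      obtain ⟨c, hc, h4⟩ := (hsame n hn).symm
      have h5 : (fun i => ((Polynomial.aeval (n : K) : K[X] →ₐ[K] K).restrictScalars k) (f i)) =
          fun i => c * P n i := by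
        funext i
        rw [AlgHom.restrictScalars_apply, coe_aeval_eq_eval, hfev]
        exact h4 i
      rw [h5, Pool.Agent.H458.Sp.aeval_smul_homog G' he' c, h3, mul_zero]
    have hcard : T + 1 ≤ Φ.natDegree := by
      have h1 : ((Finset.range (T + 1)).image (fun n : ℕ => (n : K))).card = T + 1 := by
        rw [Finset.card_image_of_injective _ Nat.cast_injective, Finset.card_range]
      have h2 : (Finset.range (T + 1)).image (fun n : ℕ => (n : K)) ⊆ Φ.roots.toFinset := by
        intro z hz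
        obtain ⟨n, hn, rfl⟩ := Finset.mem_image.1 hz
        rw [Multiset.mem_toFinset, mem_roots hne]
        exact hval n (by have := Finset.mem_range.1 hn; omega)
      have h3 := Finset.card_le_card h2
      rw [h1] at h3
      exact h3.trans ((Multiset.toFinset_card_le _).trans (card_roots' _))
    have : e * D ≤ d * D := Nat.mul_le_mul_right _ hed
    omega
  have hcon := hno K f hzero
  refine (hsame n hn).trans (Same.trans ?_ (hsame 0 (Nat.zero_le _)).symm)
  have hne : ∀ n ≤ T, (fun j => (((F j).eval (n : 𝓞 K) : 𝓞 K) : K)) ≠ 0 := by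
    intro n hn h0
    obtain ⟨c, hc, h4⟩ := hsame n hn
    apply hP.ne n hn
    funext i
    have h5 : (((F i).eval (n : 𝓞 K) : 𝓞 K) : K) = 0 := congrFun h0 i
    rw [h4 i]
    simp only [h5, mul_zero, Pi.zero_apply]
  refine same_of_par (hne n hn) (hne 0 (Nat.zero_le _)) fun i j => ?_
  have h1 := hcon i j (n : K) ((0 : ℕ) : K)
  rw [hfev, hfev, hfev, hfev] at h1
  exact h1

variable {K : Type} [Field K] [NumberField K]

open Pool.Agent.H57R3.VJ Pool.Agent.W232.VA Pool.Agent.H691R3 in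
/-- height of a point with integral coordinates -/
theorem ah_le_of_int {N : ℕ} (y : Fin (N + 1) → 𝓞 K) (hy : (fun j => ((y j : 𝓞 K) : K)) ≠ 0)
    {M : ℝ} (hM : 0 < M) (h : ∀ (w : InfinitePlace K) j, w ((y j : 𝓞 K) : K) ≤ M) :
    ah K (fun j => ((y j : 𝓞 K) : K)) ≤ Real.log M := by
  have hd := finrank_pos' K
  unfold ah
  rw [div_le_iff₀ hd, logHeight_eq_log_mulHeight, mul_comm, ← Real.log_rpow hM,
    Real.rpow_natCast]
  refine Real.log_le_log (mulHeight_pos _) ?_
  rw [NumberField.mulHeight_eq hy]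
  have h1 : ∏ v : InfinitePlace K, (⨆ i, v ((y i : 𝓞 K) : K)) ^ v.mult ≤
      M ^ Module.finrank ℚ K := by
    rw [← InfinitePlace.sum_mult_eq (K := K), ← Finset.prod_pow_eq_pow_sum]
    refine Finset.prod_le_prod (fun v _ => ?_) fun v _ => ?_
    · exact pow_nonneg (Real.iSup_nonneg fun i => apply_nonneg v _) _
    · exact pow_le_pow_left₀ (Real.iSup_nonneg fun i => apply_nonneg v _)
        (ciSup_le fun i => h v i) _
  have h2 : ∏ᶠ v : FinitePlace K, ⨆ i, v ((y i : 𝓞 K) : K) ≤ 1 := by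
    refine finprod_induction (p := fun x : ℝ => 0 ≤ x ∧ x ≤ 1) ?_ ?_ ?_ |>.2
    · exact ⟨zero_le_one, le_rfl⟩
    · rintro x y ⟨hx, hx'⟩ ⟨hy, hy'⟩
      exact ⟨mul_nonneg hx hy, mul_le_one₀ hx' hy hy'⟩
    · intro v
      refine ⟨Real.iSup_nonneg fun i => apply_nonneg v _, ciSup_le fun i => ?_⟩
      obtain ⟨u, rfl⟩ := (FinitePlace.equivHeightOneSpectrum (K := K)).symm.surjective v
      exact fv_int_le_one u (y i)
  have h3 : 0 ≤ ∏ᶠ v : FinitePlace K, ⨆ i, v ((y i : 𝓞 K) : K) :=
    finprod_nonneg fun v => Real.iSup_nonneg fun i => apply_nonneg v _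
  calc _ ≤ M ^ Module.finrank ℚ K * 1 :=
        mul_le_mul h1 h2 h3 (pow_nonneg hM.le _)
    _ = M ^ Module.finrank ℚ K := mul_one _

end Pool.Agent.T6.H54.PM
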