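import Mathlib
import Pool.Agent.T6.H54.PM.Hyp

set_option autoImplicit false
set_option linter.unusedSectionVars false

/-!
# Chains of points, periodic modulo primes, on rational curves
-/

namespace Pool.Agent.T6.H54.PM

open NumberField Polynomial IsDedekindDomain Pool.Agent.TH409.SH Height

theorem wt_theta {S : Set ℕ} (hS : ∀ p, p ∈ S ↔ p.Prime) (n : ℕ) :
    wt S n = Chebyshev.theta n := by
  classical
  rw [Chebyshev.theta_eq_sum_primesLE_log]
  unfold wt
  refine Finset.sum_congr ?_ fun _ _ => rfl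
  ext p
  rw [Nat.mem_primesLE]
  constructor
  · intro hp
    obtain ⟨h1, h2⟩ := Finset.mem_filter.1 hp
    exact ⟨Nat.lt_succ_iff.1 (Finset.mem_range.1 h1), (hS p).1 h2⟩
  · rintro ⟨h1, h2⟩
    exact Finset.mem_filter.2 ⟨Finset.mem_range.2 (Nat.lt_succ_of_le h1), (hS p).2 h2⟩

/-- all primes: `δ = 1 / 2` is admissible -/
theorem wt_primes : ∃ n₀ : ℕ, ∀ n : ℕ, n₀ ≤ n → (1 / 2 : ℝ) * n ≤ wt {p | p.Prime} n := by
  have h1 : ∀ᶠ n : ℕ in Filter.atTop, Real.log (n : ℝ) ≤ 1 / 100 * Real.sqrt n := by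
    have h := (isLittleO_log_rpow_atTop (r := 1 / 2) (by norm_num)).bound
      (show (0 : ℝ) < 1 / 100 by norm_num)
    have h' := tendsto_natCast_atTop_atTop (R := ℝ) |>.eventually h
    filter_upwards [h', Filter.eventually_ge_atTop 1] with n hn hn1
    have hn1' : (1 : ℝ) ≤ n := by exact_mod_cast hn1
    rw [Real.norm_of_nonneg (Real.log_nonneg hn1'), Real.norm_of_nonneg (by positivity),
      ← Real.sqrt_eq_rpow] at hn
    exact hn
  have h2 : ∀ᶠ n : ℕ in Filter.atTop, (100 : ℝ) ≤ n :=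
    (tendsto_natCast_atTop_atTop (R := ℝ)).eventually_ge_atTop 100
  obtain ⟨n₀, hn₀⟩ := Filter.eventually_atTop.1 (h1.and h2)
  refine ⟨n₀, fun n hn => ?_⟩
  obtain ⟨h3, h4⟩ := hn₀ n hn
  have hwt : wt {p | p.Prime} n = Chebyshev.theta n := wt_theta (fun _ => Iff.rfl) n
  rw [hwt]
  refine le_trans ?_ (Chebyshev.theta_ge n)
  have hn0 : (0 : ℝ) ≤ n := by linarith
  have hs : Real.sqrt n * Real.sqrt n = n := Real.mul_self_sqrt hn0
  have hs0 : 0 ≤ Real.sqrt n := Real.sqrt_nonneg _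
  have h5 : 2 * Real.sqrt n * Real.log n ≤ 1 / 50 * n := by
    calc 2 * Real.sqrt n * Real.log n ≤ 2 * Real.sqrt n * (1 / 100 * Real.sqrt n) := by gcongr
      _ = 1 / 50 * (Real.sqrt n * Real.sqrt n) := by ring
      _ = 1 / 50 * n := by rw [hs]
  have hs1 : Real.sqrt n ≤ n := by
    nlinarith [Real.one_le_sqrt.2 (show (1 : ℝ) ≤ n by linarith)]
  have h6 : Real.log ((n : ℝ) + 1) ≤ 1 / 20 * n := by
    have h7 : Real.log ((n : ℝ) + 1) ≤ Real.log (2 * n) := Real.log_le_log (by linarith) (by linarith)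
    rw [Real.log_mul (by norm_num) (by linarith)] at h7
    have h8 := Real.log_two_lt_d9
    linarith
  have h9 := Real.log_two_gt_d9
  nlinarith

variable {K : Type} [Field K] [NumberField K]

theorem log_growth {A c : ℝ} (hA : 1 ≤ A) (hc : 0 < c) (D : ℕ) :
    ∃ C₀ : ℝ, ∀ n : ℕ, Real.log (A * ((n : ℝ) + 1) ^ D) ≤ c * n + C₀ := by
  refine ⟨Real.log A + c + D * |Real.log ((D + 1) / c)|, fun n => ?_⟩
  have hn : (0 : ℝ) < (n : ℝ) + 1 := by positivity
  rw [Real.log_mul (by linarith) (by positivity), Real.log_pow]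
  have hD : (0 : ℝ) < (D : ℝ) + 1 := by positivity
  have hy : 0 < c * ((n : ℝ) + 1) / (D + 1) := by positivity
  have h1 := Real.log_le_sub_one_of_pos hy
  have h2 : Real.log ((n : ℝ) + 1) = Real.log (c * ((n : ℝ) + 1) / (D + 1)) +
      Real.log ((D + 1) / c) := by
    rw [← Real.log_mul hy.ne' (by positivity)]
    congr 1
    field_simp
  have h3 : Real.log ((n : ℝ) + 1) ≤ c * ((n : ℝ) + 1) / (D + 1) + |Real.log ((D + 1) / c)| := by
    have := le_abs_self (Real.log (((D : ℝ) + 1) / c))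
    linarith
  have h4 : (D : ℝ) * (c * ((n : ℝ) + 1) / (D + 1)) ≤ c * ((n : ℝ) + 1) := by
    rw [mul_div_assoc', div_le_iff₀ hD]
    have : 0 ≤ c * ((n : ℝ) + 1) := by positivity
    nlinarith
  have h5 : (D : ℝ) * Real.log ((n : ℝ) + 1) ≤
      D * (c * ((n : ℝ) + 1) / (D + 1) + |Real.log ((D + 1) / c)|) := by gcongr
  linarith

/-- polynomial curves give chains -/
theorem poly_chain {N : ℕ} (F : Fin (N + 1) → (𝓞 K)[X])
    (hu : ∃ u : Fin (N + 1) → K[X], ∑ j, u j * (F j).map (algebraMap (𝓞 K) K) = 1) (c : ℝ)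
    (hc : 0 < c) : ∃ (p₀ : ℕ) (C₀ : ℝ), ∀ S : Set ℕ, (∀ p ∈ S, p.Prime) → ∀ T,
      Chain S p₀ c C₀ T (fun n j => (((F j).eval (n : 𝓞 K) : 𝓞 K) : K)) := by
  classical
  obtain ⟨E, hE, u, hu⟩ := prim_at F hu
  -- the height
  have hgrow : ∀ (w : InfinitePlace K) (j : Fin (N + 1)), ∃ A : ℝ, 0 ≤ A ∧ ∀ n : ℕ,
      w (((F j).eval (n : 𝓞 K) : 𝓞 K) : K) ≤ A * ((n : ℝ) + 1) ^ (F j).natDegree := by
    intro w j
    refine ⟨∑ i ∈ Finset.range ((F j).natDegree + 1), w (((F j).coeff i : 𝓞 K) : K),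
      Finset.sum_nonneg fun i _ => apply_nonneg w _, fun n => ?_⟩
    have e1 : (((F j).eval (n : 𝓞 K) : 𝓞 K) : K) =
        ∑ i ∈ Finset.range ((F j).natDegree + 1), (((F j).coeff i : 𝓞 K) : K) * (n : K) ^ i := by
      rw [eval_eq_sum_range]
      refine (map_sum (algebraMap (𝓞 K) K) _ _).trans (Finset.sum_congr rfl fun i _ => ?_)
      rw [map_mul, map_pow, map_natCast]
    rw [e1, Finset.sum_mul]
    have hsum : w (∑ i ∈ Finset.range ((F j).natDegree + 1), (((F j).coeff i : 𝓞 K) : K) *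
        (n : K) ^ i) ≤ ∑ i ∈ Finset.range ((F j).natDegree + 1),
          w ((((F j).coeff i : 𝓞 K) : K) * (n : K) ^ i) := by
      rw [← InfinitePlace.norm_embedding_eq, map_sum]
      refine (norm_sum_le _ _).trans (Finset.sum_le_sum fun i _ => ?_)
      rw [InfinitePlace.norm_embedding_eq]
    refine hsum.trans (Finset.sum_le_sum fun i hi => ?_)
    rw [map_mul, map_pow, InfinitePlace.map_natCast]
    refine mul_le_mul_of_nonneg_left ?_ (apply_nonneg w _)
    have hi' : i ≤ (F j).natDegree := by have := Finset.mem_range.1 hi; omega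
    calc (n : ℝ) ^ i ≤ ((n : ℝ) + 1) ^ i := by
          refine pow_le_pow_left₀ (Nat.cast_nonneg _) ?_ _
          linarith
      _ ≤ ((n : ℝ) + 1) ^ (F j).natDegree :=
        pow_le_pow_right₀ (by have : (0 : ℝ) ≤ n := Nat.cast_nonneg _; linarith) hi'
  choose A hA0 hA using hgrow
  set A₁ : ℝ := 1 + ∑ w, ∑ j, A w j with hA₁
  have hA₁1 : 1 ≤ A₁ := by
    have : 0 ≤ ∑ w, ∑ j, A w j := Finset.sum_nonneg fun w _ => Finset.sum_nonneg fun j _ => hA0 w j
    linarith
  have hAle : ∀ w j, A w j ≤ A₁ := by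
    intro w j
    have h1 : A w j ≤ ∑ j, A w j :=
      Finset.single_le_sum (f := fun j => A w j) (fun j _ => hA0 w j) (Finset.mem_univ j)
    have h2 : ∑ j, A w j ≤ ∑ w, ∑ j, A w j :=
      Finset.single_le_sum (f := fun w => ∑ j, A w j)
        (fun w _ => Finset.sum_nonneg fun j _ => hA0 w j) (Finset.mem_univ w)
    linarith
  set D : ℕ := ∑ j, (F j).natDegree with hD
  have hDle : ∀ j, (F j).natDegree ≤ D := fun j =>
    Finset.single_le_sum (f := fun j => (F j).natDegree) (fun _ _ => Nat.zero_le _)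
      (Finset.mem_univ j)
  obtain ⟨C₀, hC₀⟩ := log_growth hA₁1 hc D
  have hne : ∀ n : ℕ, (fun j => (((F j).eval (n : 𝓞 K) : 𝓞 K) : K)) ≠ 0 := by
    intro n h0
    apply hE
    have h1 := congrArg (eval (n : 𝓞 K)) hu
    rw [eval_C, eval_finsetSum] at h1
    rw [← h1]
    refine Finset.sum_eq_zero fun j _ => ?_
    rw [eval_mul, RingOfIntegers.coe_eq_zero_iff.1 (congrFun h0 j), mul_zero]
  refine ⟨Ideal.absNorm (Ideal.span {E}) + 1, C₀, fun S hS T => ⟨fun n _ => hne n, ?_, ?_⟩⟩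
  · intro p hp hp0 n _
    have hpp := hS p hp
    refine ⟨1, 1, fun j => (F j).eval ((n + p : ℕ) : 𝓞 K), fun j => (F j).eval (n : 𝓞 K),
      one_ne_zero, one_ne_zero, fun j => by rw [one_mul], fun j => by rw [one_mul], ?_, ?_⟩
    · set e₀ : ℕ := Ideal.absNorm (Ideal.span {E}) with he₀
      have he0 : 0 < e₀ := by
        refine Nat.pos_of_ne_zero ?_
        rw [he₀, Ne, Ideal.absNorm_eq_zero_iff, Ideal.span_singleton_eq_bot]
        exact hE
      obtain ⟨E', hE'⟩ : E ∣ (e₀ : 𝓞 K) := Ideal.mem_span_singleton.1 (Ideal.absNorm_mem _)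
      have hcop : IsCoprime ((e₀ : ℕ) : ℤ) ((p : ℕ) : ℤ) := by
        rw [Nat.isCoprime_iff_coprime]
        refine ((Nat.Prime.coprime_iff_not_dvd hpp).2 fun hd => ?_).symm
        have := Nat.le_of_dvd he0 hd
        omega
      obtain ⟨a, b, hab⟩ := hcop
      have h3 := congrArg (Int.cast : ℤ → 𝓞 K) hab
      push_cast at h3
      refine ⟨fun j => (a : 𝓞 K) * E' * (u j).eval ((n + p : ℕ) : 𝓞 K), -(b : 𝓞 K), ?_⟩
      have h1 := congrArg (eval ((n + p : ℕ) : 𝓞 K)) hu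
      rw [eval_C, eval_finsetSum] at h1
      have h4 : ∑ j, (a : 𝓞 K) * E' * (u j).eval ((n + p : ℕ) : 𝓞 K) *
          (F j).eval ((n + p : ℕ) : 𝓞 K) = (a : 𝓞 K) * E' * E := by
        rw [← h1, Finset.mul_sum]
        refine Finset.sum_congr rfl fun j _ => ?_
        rw [eval_mul]
        ring
      rw [h4]
      linear_combination h3 - (a : 𝓞 K) * hE'
    · intro j
      have h1 := sub_dvd_eval_sub ((n + p : ℕ) : 𝓞 K) (n : 𝓞 K) (F j)
      refine dvd_trans ?_ h1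
      push_cast
      rw [add_sub_cancel_left]
  · intro n _
    refine (ah_le_of_int (fun j => (F j).eval (n : 𝓞 K)) (hne n)
      (M := A₁ * ((n : ℝ) + 1) ^ D) (by positivity) fun w j => ?_).trans (hC₀ n)
    refine (hA w j n).trans ?_
    have h1 : (1 : ℝ) ≤ (n : ℝ) + 1 := by
      have : (0 : ℝ) ≤ n := Nat.cast_nonneg _
      linarith
    exact mul_le_mul (hAle w j) (pow_le_pow_right₀ h1 (hDle j)) (by positivity) (by linarith)

end Pool.Agent.T6.H54.PM
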