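import Mathlib
import Pool.Agent.T6.H54.PM.Conv

set_option autoImplicit false
set_option linter.unusedSectionVars false

/-!
# The absence of rational curves and chains of points, periodic modulo primes
-/

namespace Pool.Agent.T6.H54.PM

open NumberField Polynomial IsDedekindDomain Pool.Agent.TH409.SH Height

/-- on a variety which contains a rational curve there are nonconstant sequences of slow growth,
periodic modulo all large primes -/
theorem conv {N : ℕ} {k : Type} [Field k] [NumberField k]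
    (FF : Set (MvPolynomial (Fin (N + 1)) (𝓞 k))) (hFF : ∀ G ∈ FF, ∃ e, G.IsHomogeneous e)
    (h : ¬ NoRatCurve FF) :
    ∃ (K : Type) (_ : Field K) (_ : NumberField K) (_ : Algebra k K)
      (P : ℕ → Fin (N + 1) → K), (∀ n, IsZero FF (P n)) ∧ (∃ n, ¬ Same (P n) (P 0)) ∧
      ∀ c : ℝ, 0 < c → ∃ (p₀ : ℕ) (C₀ : ℝ), ∀ S : Set ℕ, (∀ p ∈ S, p.Prime) → ∀ T,
        Chain S p₀ c C₀ T P := by
  classical
  unfold NoRatCurve at h
  push Not at h
  obtain ⟨K, iK, iN, iA, q, hq, i, j, a, b, hcon⟩ := h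
  have hq0 : q ≠ 0 := by
    rintro rfl
    apply hcon
    simp
  obtain ⟨F, e, g, he, hu, hF⟩ := prim q hq0
  set f : Fin (N + 1) → K[X] := fun j => (F j).map (algebraMap (𝓞 K) K) with hf
  have hfev : ∀ (n : ℕ) j, (f j).eval (n : K) = (((F j).eval (n : 𝓞 K) : 𝓞 K) : K) := by
    intro n j
    rw [hf]
    simp only
    rw [Polynomial.eval_natCast_map (algebraMap (𝓞 K) K) (F j) n]
  have hg0 : g ≠ 0 := by
    rintro rfl
    apply hq0
    funext j
    have h1 := hF j
    rw [zero_mul] at h1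
    exact (mul_eq_zero.1 h1).resolve_left (C_ne_zero.2 he)
  have hzero : ∀ G ∈ FF, MvPolynomial.aeval f (MvPolynomial.map (algebraMap (𝓞 k) k) G) = 0 := by
    intro G hG
    obtain ⟨e', he'⟩ := hFF G hG
    have he'' := he'.map (algebraMap (𝓞 k) k)
    have h1 := Pool.Agent.H458.Sp.aeval_smul_homog _ he'' g f
    have h2 := Pool.Agent.H458.Sp.aeval_smul_homog _ he'' (C e) q
    have h3 : (fun i => g * f i) = fun i => C e * q i := funext fun i => (hF i).symm
    rw [h3, h2, hq G hG, mul_zero] at h1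
    exact (mul_eq_zero.1 h1.symm).resolve_left (pow_ne_zero _ hg0)
  refine ⟨K, iK, iN, iA, fun n j => (((F j).eval (n : 𝓞 K) : 𝓞 K) : K), ?_, ?_, ?_⟩
  · intro n G hG
    have h1 := MvPolynomial.comp_aeval_apply (R := k) f
      ((Polynomial.aeval (n : K) : K[X] →ₐ[K] K).restrictScalars k)
      (MvPolynomial.map (algebraMap (𝓞 k) k) G)
    rw [hzero G hG, map_zero] at h1
    have h5 : (fun i => ((Polynomial.aeval (n : K) : K[X] →ₐ[K] K).restrictScalars k) (f i)) =
        fun j => (((F j).eval (n : 𝓞 K) : 𝓞 K) : K) := by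
      funext i
      rw [AlgHom.restrictScalars_apply, coe_aeval_eq_eval, hfev]
    rw [h5] at h1
    exact h1.symm
  · by_contra hall
    push Not at hall
    -- all minors vanish
    have hmin : ∀ i j, f i * C ((f j).eval ((0 : ℕ) : K)) = f j * C ((f i).eval ((0 : ℕ) : K)) := by
      intro i j
      rw [← sub_eq_zero]
      refine zero_of_nat _ fun n => ?_
      obtain ⟨c, hc, h1⟩ := hall n
      rw [eval_sub, eval_mul, eval_mul, eval_C, eval_C, hfev, hfev, hfev, hfev]
      have h2 := h1 i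
      have h3 := h1 j
      simp only at h2 h3
      rw [h2, h3]
      ring
    obtain ⟨l, hl⟩ : ∃ l, (f l).eval ((0 : ℕ) : K) ≠ 0 := by
      by_contra h0
      push Not at h0
      obtain ⟨u, hu⟩ := hu
      have h1 := congrArg (fun p : K[X] => p.eval ((0 : ℕ) : K)) hu
      simp only [eval_finsetSum, eval_mul, eval_one] at h1
      rw [Finset.sum_eq_zero] at h1
      · exact zero_ne_one h1
      · intro j _
        have h2 : ((F j).map (algebraMap (𝓞 K) K)).eval ((0 : ℕ) : K) = 0 := h0 j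
        rw [h2, mul_zero]
    set s : Fin (N + 1) → K := fun i => (f i).eval ((0 : ℕ) : K) with hs
    have hev : ∀ i (z : K), (f i).eval z * s l = (f l).eval z * s i := by
      intro i z
      have h1 := congrArg (eval z) (hmin i l)
      rw [eval_mul, eval_mul, eval_C, eval_C] at h1
      exact h1
    have hqv : ∀ i (z : K), e * (q i).eval z = g.eval z * (f i).eval z := by
      intro i z
      have h1 := congrArg (eval z) (hF i)
      rw [eval_mul, eval_mul, eval_C] at h1
      exact h1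
    apply hcon
    have h1 : (e * s l) ^ 2 * ((q i).eval a * (q j).eval b) =
        (e * s l) ^ 2 * ((q j).eval a * (q i).eval b) := by
      have e1 : (e * s l) ^ 2 * ((q i).eval a * (q j).eval b) =
          (e * (q i).eval a) * (e * (q j).eval b) * s l ^ 2 := by ring
      have e2 : (e * s l) ^ 2 * ((q j).eval a * (q i).eval b) =
          (e * (q j).eval a) * (e * (q i).eval b) * s l ^ 2 := by ring
      rw [e1, e2, hqv, hqv, hqv, hqv]
      have f1 := hev i a
      have f2 := hev j b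
      have f3 := hev j a
      have f4 := hev i b
      have e3 : g.eval a * (f i).eval a * (g.eval b * (f j).eval b) * s l ^ 2 =
          g.eval a * g.eval b * (((f i).eval a * s l) * ((f j).eval b * s l)) := by ring
      have e4 : g.eval a * (f j).eval a * (g.eval b * (f i).eval b) * s l ^ 2 =
          g.eval a * g.eval b * (((f j).eval a * s l) * ((f i).eval b * s l)) := by ring
      rw [e3, e4, f1, f2, f3, f4]
      ring
    exact mul_left_cancel₀ (pow_ne_zero _ (mul_ne_zero he hl)) h1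
  · intro c hc
    exact poly_chain F hu c hc

/-- **Characterisation of the absence of rational curves by chains.** -/
theorem noRat_iff {N : ℕ} (k : Type) [Field k] [NumberField k]
    (FF : Set (MvPolynomial (Fin (N + 1)) (𝓞 k))) (d : ℕ)
    (hFF : ∀ G ∈ FF, ∃ e ≤ d, G.IsHomogeneous e) :
    NoRatCurve FF ↔ ∀ (K : Type) [Field K] [NumberField K] [Algebra k K] (S : Set ℕ),
      (∀ p ∈ S, p.Prime) → ∀ δ : ℝ, 0 < δ → ∀ n₀ : ℕ, (∀ n : ℕ, n₀ ≤ n → δ * n ≤ wt S n) →
      ∀ (p₀ : ℕ) (C₀ : ℝ), ∃ T₀ : ℕ, ∀ T ≥ T₀, ∀ P : ℕ → Fin (N + 1) → K,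
        Chain S p₀ ((δ / 16) ^ 3) C₀ T P → (∀ n ≤ T, IsZero FF (P n)) →
        ∀ n ≤ T, Same (P n) (P 0) := by
  constructor
  · intro hno K _ _ _ S hS δ hδ n₀ hwt p₀ C₀
    obtain ⟨T₀, hT₀⟩ := hyp_uniform hS hδ hwt p₀ C₀ K N d
    exact ⟨T₀, fun T hT P hP hX => hT₀ k FF hFF hno T hT P hP hX⟩
  · intro h
    by_contra hno
    obtain ⟨K, iK, iN, iA, P, hPX, ⟨n, hn⟩, hP⟩ := conv FF (fun G hG => by
      obtain ⟨e, _, he⟩ := hFF G hG
      exact ⟨e, he⟩) hno
    obtain ⟨n₀, hn₀⟩ := wt_primes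
    obtain ⟨p₀, C₀, hchain⟩ := hP (((1 / 2 : ℝ) / 16) ^ 3) (by norm_num)
    obtain ⟨T₀, hT₀⟩ := h K {p | p.Prime} (fun p hp => hp) (1 / 2) (by norm_num) n₀ hn₀ p₀ C₀
    exact hn (hT₀ (max T₀ n) (le_max_left _ _) P (hchain _ (fun p hp => hp) _)
      (fun m _ => hPX m) n (le_max_right _ _))

end Pool.Agent.T6.H54.PM
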